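import Pool.Agent.H521R4.RB.Defs

set_option autoImplicit false
open Classical

/-!
# TASK A (helper266): existence of binary supplies (Gilbert-Varshamov union bound)
-/

namespace Pool.H521RB

/-- the number of subsets of size at most `n` of `EE n` -/
theorem vol_boundA (n : ℕ) :
    ((Finset.univ : Finset (Finset (EE n))).filter (fun S => S.card ≤ n)).card * 8 ^ (15 * n) ≤
      9 ^ (16 * n) := by
  have h := Finset.sum_pow_mul_eq_add_pow (1 : ℕ) 8 (Finset.univ : Finset (EE n))
  have hc : (Finset.univ : Finset (EE n)).card = 16 * n := by simp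
  rw [hc] at h
  rw [show (1 + 8 : ℕ) = 9 by norm_num] at h
  rw [← h, Finset.powerset_univ, Finset.card_eq_sum_ones, Finset.sum_mul]
  refine le_trans (Finset.sum_le_sum (g := fun S : Finset (EE n) => 1 ^ S.card * 8 ^ (16 * n - S.card))
    fun S hS => ?_) (Finset.sum_le_sum_of_subset (Finset.filter_subset _ _))
  rw [Finset.mem_filter] at hS
  rw [one_pow, one_mul, one_mul]
  exact Nat.pow_le_pow_right (by norm_num) (by omega)

theorem card_AA (n : ℕ) : Fintype.card (AA n) = 2 ^ (8 * n) := by
  rw [Fintype.card_fun, ZMod.card, Fintype.card_fin]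

theorem vol_lt (n : ℕ) (hn : 0 < n) :
    2 * ((Finset.univ : Finset (Finset (EE n))).filter (fun S => S.card ≤ n)).card <
      2 ^ (8 * n) := by
  have h := vol_boundA n
  have h8 : 0 < 8 ^ (15 * n) := by positivity
  have h2 : 2 * 9 ^ (16 * n) < 2 ^ (8 * n) * 8 ^ (15 * n) := by
    have e1 : (9 : ℕ) ^ (16 * n) = (9 ^ 16) ^ n := by rw [pow_mul]
    have e2 : (2 : ℕ) ^ (8 * n) * 8 ^ (15 * n) = (2 ^ 53) ^ n := by
      rw [show (8 : ℕ) = 2 ^ 3 by norm_num, ← pow_mul, ← pow_add, ← pow_mul]; congr 1; ring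
    rw [e1, e2]
    calc 2 * (9 ^ 16) ^ n ≤ 2 ^ n * (9 ^ 16) ^ n := by
          apply Nat.mul_le_mul_right
          calc 2 = 2 ^ 1 := by norm_num
            _ ≤ 2 ^ n := Nat.pow_le_pow_right (by norm_num) hn
      _ = (2 * 9 ^ 16) ^ n := by rw [mul_pow]
      _ < (2 ^ 53) ^ n := Nat.pow_lt_pow_left (by norm_num) (by omega)
  by_contra hcon
  push Not at hcon
  have := Nat.mul_le_mul_right (8 ^ (15 * n)) hcon
  nlinarith

/-- sum condition -/
theorem card_B1 (n : ℕ) (S : Finset (EE n)) (hS : S.Nonempty) :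
    ((Finset.univ : Finset (EE n → AA n)).filter (fun h => ∑ i ∈ S, h i = 0)).card * 2 ^ (8 * n) ≤
      (2 ^ (8 * n)) ^ (16 * n) := by
  obtain ⟨i0, hi0⟩ := hS
  have hinj : ((Finset.univ : Finset (EE n → AA n)).filter (fun h => ∑ i ∈ S, h i = 0)).card ≤
      Fintype.card ({i : EE n // i ≠ i0} → AA n) := by
    rw [← Finset.card_univ]
    refine Finset.card_le_card_of_injOn (fun h i => h i.1) (fun _ _ => Finset.mem_univ _) ?_
    intro h hh h' hh' heq
    rw [Finset.coe_filter, Set.mem_setOf_eq] at hh hh'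
    have hne : ∀ i, i ≠ i0 → h i = h' i := fun i hi => congrFun heq ⟨i, hi⟩
    have e1 := hh.2
    have e2 := hh'.2
    rw [← Finset.add_sum_erase _ _ hi0] at e1 e2
    have e3 : ∑ i ∈ S.erase i0, h i = ∑ i ∈ S.erase i0, h' i :=
      Finset.sum_congr rfl fun i hi => hne i (Finset.ne_of_mem_erase hi)
    rw [e3] at e1
    have e4 : h i0 = h' i0 := add_right_cancel (e1.trans e2.symm)
    funext i
    by_cases hi : i = i0
    · rw [hi, e4]
    · exact hne i hi
  rw [Fintype.card_fun, card_AA] at hinj
  have hc : Fintype.card {i : EE n // i ≠ i0} = 16 * n - 1 := by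
    rw [Fintype.card_subtype_compl]; simp
  rw [hc] at hinj
  have hpos : 0 < 16 * n := by have := i0.2; omega
  calc _ ≤ (2 ^ (8 * n)) ^ (16 * n - 1) * 2 ^ (8 * n) := Nat.mul_le_mul_right _ hinj
    _ = (2 ^ (8 * n)) ^ (16 * n) := by rw [← pow_succ]; congr 1; omega

/-- a nonzero functional is balanced -/
theorem card_half (n : ℕ) (u : AA n) (hu : u ≠ 0) (z : ZMod 2) :
    ((Finset.univ : Finset (AA n)).filter (fun v => u ⬝ᵥ v = z)).card * 2 = 2 ^ (8 * n) := by
  obtain ⟨j, hj⟩ : ∃ j, u j ≠ 0 := by
    by_contra h; push Not at h; exact hu (funext h)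
  have h01 : ∀ z : ZMod 2, z = 0 ∨ z = 1 := by decide
  have hj1 : u j = 1 := (h01 (u j)).resolve_left hj
  have hd : ∀ v : AA n, u ⬝ᵥ (v + Pi.single j 1) = u ⬝ᵥ v + 1 := by
    intro v; rw [dotProduct_add, dotProduct_single, hj1, mul_one]
  have hss : ∀ v : AA n, v + Pi.single j 1 + Pi.single j 1 = v := by
    intro v
    rw [add_assoc]
    have : (Pi.single j 1 + Pi.single j 1 : AA n) = 0 := by
      rw [← Pi.single_add]
      have : (1 + 1 : ZMod 2) = 0 := by decide
      rw [this, Pi.single_zero]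
    rw [this, add_zero]
  have hz2 : ∀ z : ZMod 2, z + 1 + 1 = z := by decide
  have heq : ((Finset.univ : Finset (AA n)).filter (fun v => u ⬝ᵥ v = z)).card =
      ((Finset.univ : Finset (AA n)).filter (fun v => u ⬝ᵥ v = z + 1)).card := by
    refine Finset.card_nbij' (fun v => v + Pi.single j 1) (fun v => v + Pi.single j 1) ?_ ?_ ?_ ?_
    · intro v hv
      rw [Finset.coe_filter, Set.mem_setOf_eq] at hv ⊢
      exact ⟨Finset.mem_univ _, by rw [hd, hv.2]⟩
    · intro v hv
      rw [Finset.coe_filter, Set.mem_setOf_eq] at hv ⊢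
      exact ⟨Finset.mem_univ _, by rw [hd, hv.2, hz2]⟩
    · intro v _; exact hss v
    · intro v _; exact hss v
  have hsum : ((Finset.univ : Finset (AA n)).filter (fun v => u ⬝ᵥ v = z)).card +
      ((Finset.univ : Finset (AA n)).filter (fun v => u ⬝ᵥ v = z + 1)).card = 2 ^ (8 * n) := by
    rw [← card_AA, ← Finset.card_univ, ← Finset.card_union_of_disjoint]
    · congr 1
      ext v
      rw [Finset.mem_union, Finset.mem_filter, Finset.mem_filter]
      have hz3 : ∀ z w : ZMod 2, w = z ∨ w = z + 1 := by decide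
      rcases hz3 z (u ⬝ᵥ v) with h | h
      · exact ⟨fun _ => Finset.mem_univ _, fun _ => Or.inl ⟨Finset.mem_univ _, h⟩⟩
      · exact ⟨fun _ => Finset.mem_univ _, fun _ => Or.inr ⟨Finset.mem_univ _, h⟩⟩
    · rw [Finset.disjoint_filter]
      intro v _ h1 h2
      rw [h1] at h2
      have hz4 : ∀ z : ZMod 2, z ≠ z + 1 := by decide
      exact hz4 z h2
  omega

/-- weight condition -/
theorem card_B2 (n : ℕ) (u : AA n) (hu : u ≠ 0) :
    ((Finset.univ : Finset (EE n → AA n)).filter
      (fun h => (Finset.univ.filter (fun i => u ⬝ᵥ h i ≠ 0)).card < n)).card *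
        2 ^ (16 * n) ≤
      ((Finset.univ : Finset (Finset (EE n))).filter (fun S => S.card ≤ n)).card *
        (2 ^ (8 * n)) ^ (16 * n) := by
  have hfib : ∀ T : Finset (EE n),
      ((Finset.univ : Finset (EE n → AA n)).filter
        (fun h => Finset.univ.filter (fun i => u ⬝ᵥ h i ≠ 0) = T)).card * 2 ^ (16 * n) ≤
      (2 ^ (8 * n)) ^ (16 * n) := by
    intro T
    have hsub : (Finset.univ : Finset (EE n → AA n)).filter
        (fun h => Finset.univ.filter (fun i => u ⬝ᵥ h i ≠ 0) = T) ⊆
        Fintype.piFinset (fun i : EE n => (Finset.univ : Finset (AA n)).filter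
          (fun v => u ⬝ᵥ v = if i ∈ T then 1 else 0)) := by
      intro h hh
      rw [Finset.mem_filter] at hh
      rw [Fintype.mem_piFinset]
      intro i
      rw [Finset.mem_filter]
      refine ⟨Finset.mem_univ _, ?_⟩
      have h01 : ∀ z : ZMod 2, z = 0 ∨ z = 1 := by decide
      by_cases hi : i ∈ T
      · rw [if_pos hi]
        rw [← hh.2, Finset.mem_filter] at hi
        exact (h01 _).resolve_left hi.2
      · rw [if_neg hi]
        rw [← hh.2, Finset.mem_filter] at hi
        by_contra hne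
        exact hi ⟨Finset.mem_univ _, hne⟩
    have h2 : (2 : ℕ) ^ (16 * n) = ∏ _i : EE n, 2 := by
      rw [Finset.prod_const, Finset.card_univ, Fintype.card_fin]
    have h3 : ((2 : ℕ) ^ (8 * n)) ^ (16 * n) = ∏ _i : EE n, 2 ^ (8 * n) := by
      rw [Finset.prod_const, Finset.card_univ, Fintype.card_fin]
    calc _ ≤ (Fintype.piFinset (fun i : EE n => (Finset.univ : Finset (AA n)).filter
          (fun v => u ⬝ᵥ v = if i ∈ T then 1 else 0))).card * 2 ^ (16 * n) :=
          Nat.mul_le_mul_right _ (Finset.card_le_card hsub)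
      _ = (2 ^ (8 * n)) ^ (16 * n) := by
          rw [Fintype.card_piFinset, h2, h3, ← Finset.prod_mul_distrib]
          exact Finset.prod_congr rfl fun i _ => card_half n u hu _
  have hcov : (Finset.univ : Finset (EE n → AA n)).filter
      (fun h => (Finset.univ.filter (fun i => u ⬝ᵥ h i ≠ 0)).card < n) ⊆
      ((Finset.univ : Finset (Finset (EE n))).filter (fun S => S.card ≤ n)).biUnion
        (fun T => (Finset.univ : Finset (EE n → AA n)).filter
        (fun h => Finset.univ.filter (fun i => u ⬝ᵥ h i ≠ 0) = T)) := by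
    intro h hh
    rw [Finset.mem_filter] at hh
    rw [Finset.mem_biUnion]
    exact ⟨Finset.univ.filter (fun i => u ⬝ᵥ h i ≠ 0),
      Finset.mem_filter.2 ⟨Finset.mem_univ _, hh.2.le⟩, Finset.mem_filter.2 ⟨Finset.mem_univ _, rfl⟩⟩
  calc _ ≤ (∑ T ∈ (Finset.univ : Finset (Finset (EE n))).filter (fun S => S.card ≤ n),
        ((Finset.univ : Finset (EE n → AA n)).filter
        (fun h => Finset.univ.filter (fun i => u ⬝ᵥ h i ≠ 0) = T)).card) * 2 ^ (16 * n) :=
        Nat.mul_le_mul_right _ ((Finset.card_le_card hcov).trans Finset.card_biUnion_le)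
    _ ≤ _ := by
        rw [Finset.sum_mul]
        refine (Finset.sum_le_card_nsmul _ _ _ fun T _ => hfib T).trans ?_
        rw [smul_eq_mul]

theorem code_exists (n : ℕ) (hn : 0 < n) : Nonempty (Code n) := by
  by_contra hcon
  have hcov : (Finset.univ : Finset (EE n → AA n)) ⊆
      (((Finset.univ : Finset (Finset (EE n))).filter (fun S => S.card ≤ n)).filter
          (fun S => S.Nonempty)).biUnion
        (fun S => (Finset.univ : Finset (EE n → AA n)).filter (fun h => ∑ i ∈ S, h i = 0)) ∪
      ((Finset.univ : Finset (AA n)).filter (fun u => u ≠ 0)).biUnion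
        (fun u => (Finset.univ : Finset (EE n → AA n)).filter
          (fun h => (Finset.univ.filter (fun i => u ⬝ᵥ h i ≠ 0)).card < n)) := by
    intro h _
    by_contra hh
    rw [Finset.mem_union, not_or] at hh
    apply hcon
    refine ⟨⟨h, fun S hS hSn h0 => hh.1 ?_, fun u hu => ?_⟩⟩
    · rw [Finset.mem_biUnion]
      exact ⟨S, Finset.mem_filter.2 ⟨Finset.mem_filter.2 ⟨Finset.mem_univ _, hSn⟩, hS⟩,
        Finset.mem_filter.2 ⟨Finset.mem_univ _, h0⟩⟩
    · by_contra hlt
      push Not at hlt
      apply hh.2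
      rw [Finset.mem_biUnion]
      exact ⟨u, Finset.mem_filter.2 ⟨Finset.mem_univ _, hu⟩,
        Finset.mem_filter.2 ⟨Finset.mem_univ _, hlt⟩⟩
  set A := 2 ^ (8 * n) with hA
  set V := ((Finset.univ : Finset (Finset (EE n))).filter (fun S => S.card ≤ n)).card with hV
  set W := A ^ (16 * n) with hW
  have hApos : 0 < A := by positivity
  have hWpos : 0 < W := by positivity
  have hcard : (Finset.univ : Finset (EE n → AA n)).card = W := by
    rw [Finset.card_univ, Fintype.card_fun, card_AA, Fintype.card_fin]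
  have h1 : (((Finset.univ : Finset (Finset (EE n))).filter (fun S => S.card ≤ n)).filter
          (fun S => S.Nonempty)).sum
        (fun S => ((Finset.univ : Finset (EE n → AA n)).filter (fun h => ∑ i ∈ S, h i = 0)).card)
        * A ≤ V * W := by
    rw [Finset.sum_mul]
    refine (Finset.sum_le_card_nsmul _ _ W fun S hS => ?_).trans ?_
    · rw [Finset.mem_filter] at hS
      exact card_B1 n S hS.2
    · rw [smul_eq_mul]
      exact Nat.mul_le_mul_right _ (Finset.card_le_card (Finset.filter_subset _ _))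
  have h2 : ((Finset.univ : Finset (AA n)).filter (fun u => u ≠ 0)).sum
        (fun u => ((Finset.univ : Finset (EE n → AA n)).filter
          (fun h => (Finset.univ.filter (fun i => u ⬝ᵥ h i ≠ 0)).card < n)).card) * A ≤ V * W := by
    have hAA : 2 ^ (16 * n) = A * A := by rw [hA, ← pow_add]; congr 1; ring
    have h3 : ((Finset.univ : Finset (AA n)).filter (fun u => u ≠ 0)).sum
        (fun u => ((Finset.univ : Finset (EE n → AA n)).filter
          (fun h => (Finset.univ.filter (fun i => u ⬝ᵥ h i ≠ 0)).card < n)).card) * (A * A) ≤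
          A * (V * W) := by
      rw [← hAA, Finset.sum_mul]
      refine (Finset.sum_le_card_nsmul _ _ (V * W) fun u hu => ?_).trans ?_
      · rw [Finset.mem_filter] at hu
        exact card_B2 n u hu.2
      · rw [smul_eq_mul]
        apply Nat.mul_le_mul_right
        refine (Finset.card_le_card (Finset.filter_subset _ _)).trans ?_
        rw [Finset.card_univ, card_AA]
    have h4 := h3
    rw [← mul_assoc, mul_comm _ (A)] at h4
    exact Nat.le_of_mul_le_mul_left h4 hApos
  have h5 := (Finset.card_le_card hcov).trans (Finset.card_union_le _ _)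
  rw [hcard] at h5
  have h6 := h5.trans (Nat.add_le_add Finset.card_biUnion_le Finset.card_biUnion_le)
  have h7 := Nat.mul_le_mul_right A h6
  rw [Nat.add_mul] at h7
  have h8 : W * A ≤ V * W + V * W := h7.trans (Nat.add_le_add h1 h2)
  have h9 := vol_lt n hn
  have h10 : (V * W + V * W) < W * A := by
    have : V * W + V * W = W * (2 * V) := by ring
    rw [this]
    exact Nat.mul_lt_mul_of_pos_left h9 hWpos
  omega

end Pool.H521RB
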