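import Pool.Agent.H521R4.RB.Defs

/-!
# Level dynamics: definition of the perturbed weights through level vectors
-/

set_option autoImplicit false
open Classical

namespace Pool.H521RB

abbrev Ix (M : ℕ) := Fin M × Bool

section
variable {M : ℕ} (J : Fin M → ℕ)

noncomputable def cl (z : ℝ) : ℝ := max 0 (min 1 z)

theorem cl_nonneg (z : ℝ) : 0 ≤ cl z := le_max_left _ _
theorem cl_le_one (z : ℝ) : cl z ≤ 1 := max_le zero_le_one (min_le_left _ _)
theorem cl_lip (y z : ℝ) : |cl y - cl z| ≤ |y - z| := by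
  unfold cl
  have h1 : |max 0 (min 1 y) - max 0 (min 1 z)| ≤ |min 1 y - min 1 z| := by
    rw [max_comm 0, max_comm 0]; exact abs_max_sub_max_le_abs _ _ _
  have h2 : |min 1 y - min 1 z| ≤ |y - z| := by
    rw [min_comm 1, min_comm 1]
    have := abs_min_sub_min_le_max y 1 z 1
    simpa using this
  exact h1.trans h2

def NN (n : Ix M → ℕ) (i : Fin M) : ℕ := max (n (i, false)) (n (i, true))

noncomputable def g1 (n : Ix M → ℕ) (i : Fin M) : ℝ :=
  cl (((NN n i : ℝ) - 16 * J i) / (16 * J i))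
noncomputable def g2 (n : Ix M → ℕ) (i : Fin M) : ℝ :=
  cl (((NN n i : ℝ) - 32 * J i) / (16 * J i))
noncomputable def G1 (n : Ix M → ℕ) (s : Fin M) : ℝ := ∏ i ∈ Finset.Iio s, g1 J n i
noncomputable def mu (n : Ix M → ℕ) (i : Fin M) : ℝ :=
  (∏ j ∈ Finset.Iio i, g2 J n j) * (1 - g2 J n i)
noncomputable def nu (n : Ix M → ℕ) (s i : Fin M) : ℝ := (1 - G1 J n s) * mu J n i

def par (n : Ix M → ℕ) (i : Fin M) : ℕ :=
  (∑ p ∈ Finset.univ.filter (fun p : Ix M => i < p.1), n p) % 2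

noncomputable def sg (n : Ix M → ℕ) (p : Ix M) : ℝ :=
  if n p % 2 = par n p.1 then 0 else 1

noncomputable def cc (n : Ix M → ℕ) (i : Fin M) : ℝ :=
  if n (i, false) % 2 = par n i ∧ n (i, true) % 2 = par n i then 100 else 1 / 100

noncomputable def rr (n : Ix M → ℕ) (p : Ix M) : ℝ :=
  if n p % 2 = par n p.1 then 100 else 1 / 100

noncomputable def om (n : Ix M → ℕ) (p : Ix M) : ℝ :=
  ∑ i ∈ Finset.Iio p.1, nu J n p.1 i * cc n i + G1 J n p.1 * rr n p

/-- neighbouring level vectors in coordinate `p` -/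
def nbr (p : Ix M) (n n' : Ix M → ℕ) : Prop :=
  (∀ q, q ≠ p → n' q = n q) ∧ n' p ≤ n p + 1 ∧ n p ≤ n' p + 1

variable {J}

theorem g1_nonneg (n : Ix M → ℕ) (i : Fin M) : 0 ≤ g1 J n i := cl_nonneg _
theorem g1_le (n : Ix M → ℕ) (i : Fin M) : g1 J n i ≤ 1 := cl_le_one _
theorem g2_nonneg (n : Ix M → ℕ) (i : Fin M) : 0 ≤ g2 J n i := cl_nonneg _
theorem g2_le (n : Ix M → ℕ) (i : Fin M) : g2 J n i ≤ 1 := cl_le_one _

theorem G1_nonneg (n : Ix M → ℕ) (s : Fin M) : 0 ≤ G1 J n s :=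
  Finset.prod_nonneg fun i _ => g1_nonneg n i
theorem G1_le (n : Ix M → ℕ) (s : Fin M) : G1 J n s ≤ 1 :=
  Finset.prod_le_one (fun i _ => g1_nonneg n i) fun i _ => g1_le n i
theorem mu_nonneg (n : Ix M → ℕ) (s : Fin M) : 0 ≤ mu J n s :=
  mul_nonneg (Finset.prod_nonneg fun i _ => g2_nonneg n i) (by linarith [g2_le (J := J) n s])
theorem mu_le (n : Ix M → ℕ) (s : Fin M) : mu J n s ≤ 1 := by
  have h1 : ∏ j ∈ Finset.Iio s, g2 J n j ≤ 1 :=
    Finset.prod_le_one (fun i _ => g2_nonneg n i) fun i _ => g2_le n i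
  have h2 := g2_nonneg (J := J) n s
  have h3 := g2_le (J := J) n s
  have h4 : 0 ≤ ∏ j ∈ Finset.Iio s, g2 J n j := Finset.prod_nonneg fun i _ => g2_nonneg n i
  unfold mu
  nlinarith
theorem nu_nonneg (n : Ix M → ℕ) (s i : Fin M) : 0 ≤ nu J n s i :=
  mul_nonneg (by linarith [G1_le (J := J) n s]) (mu_nonneg n i)
theorem nu_le (n : Ix M → ℕ) (s i : Fin M) : nu J n s i ≤ 1 := by
  have h1 := G1_le (J := J) n s
  have h2 := G1_nonneg (J := J) n s
  have h3 := mu_nonneg (J := J) n i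
  have h4 := mu_le (J := J) n i
  unfold nu
  nlinarith

theorem sg_cases (n : Ix M → ℕ) (p : Ix M) : sg n p = 0 ∨ sg n p = 1 := by
  unfold sg; split_ifs <;> simp

/-- if `g2 > 0` then `g1 = 1` -/
theorem g1_eq_one (hJ : ∀ i, 0 < J i) {n : Ix M → ℕ} {i : Fin M} (h : g2 J n i ≠ 0) :
    g1 J n i = 1 := by
  have hJi : (0:ℝ) < J i := by exact_mod_cast hJ i
  have h1 : 0 < ((NN n i : ℝ) - 32 * J i) / (16 * J i) := by
    by_contra hc
    apply h
    unfold g2 cl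
    rw [max_eq_left]
    exact (min_le_right _ _).trans (not_lt.mp hc)
  have h2 : 0 < (NN n i : ℝ) - 32 * J i := by
    rcases div_pos_iff.mp h1 with h | h
    · exact h.1
    · linarith [h.2]
  unfold g1 cl
  have h3 : 1 ≤ ((NN n i : ℝ) - 16 * J i) / (16 * J i) := by
    rw [le_div_iff₀ (by positivity)]; linarith
  rw [min_eq_left h3, max_eq_right zero_le_one]

theorem lt_of_g2_ne_one (hJ : ∀ i, 0 < J i) {n : Ix M → ℕ} {i : Fin M} (h : g2 J n i ≠ 1) :
    (NN n i : ℝ) < 48 * J i := by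
  have hJi : (0:ℝ) < J i := by exact_mod_cast hJ i
  by_contra hc
  apply h
  unfold g2 cl
  have h3 : 1 ≤ ((NN n i : ℝ) - 32 * J i) / (16 * J i) := by
    rw [le_div_iff₀ (by positivity)]; linarith [not_lt.mp hc]
  rw [min_eq_left h3, max_eq_right zero_le_one]

theorem gt_of_g1_ne_zero (hJ : ∀ i, 0 < J i) {n : Ix M → ℕ} {i : Fin M} (h : g1 J n i ≠ 0) :
    16 * (J i : ℝ) < NN n i := by
  have hJi : (0:ℝ) < J i := by exact_mod_cast hJ i
  by_contra hc
  apply h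
  unfold g1 cl
  rw [max_eq_left]
  refine (min_le_right _ _).trans ?_
  apply div_nonpos_of_nonpos_of_nonneg
  · linarith [not_lt.mp hc]
  · positivity

/-- `∑_{i<s} ν_i = 1 - G1 s` -/
theorem sum_nu (hJ : ∀ i, 0 < J i) (n : Ix M → ℕ) (s : Fin M) :
    ∑ i ∈ Finset.Iio s, nu J n s i = 1 - G1 J n s := by
  have h1 := Finset.prod_one_sub_ordered (Finset.Iio s) (fun i => 1 - g2 J n i)
  simp only [sub_sub_cancel] at h1
  have h2 : ∑ i ∈ Finset.Iio s, mu J n i = 1 - ∏ i ∈ Finset.Iio s, g2 J n i := by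
    rw [h1, sub_sub_cancel]
    refine Finset.sum_congr rfl fun i hi => ?_
    have : (Finset.Iio s).filter (fun j => j < i) = Finset.Iio i := by
      ext j
      simp only [Finset.mem_filter, Finset.mem_Iio] at *
      exact ⟨fun h => h.2, fun h => ⟨h.trans hi, h⟩⟩
    rw [this]
    unfold mu; ring
  unfold nu
  rw [← Finset.mul_sum, h2]
  by_cases h3 : ∏ i ∈ Finset.Iio s, g2 J n i = 0
  · rw [h3]; ring
  · have h4 : G1 J n s = 1 := by
      unfold G1
      apply Finset.prod_eq_one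
      intro i hi
      exact g1_eq_one hJ (Finset.prod_ne_zero_iff.mp h3 i hi)
    rw [h4]; ring

/-- if `mu n i ≠ 0` then supply `i` is in full preference mode and below `48 J`. -/
theorem pref_of_mu (hJ : ∀ i, 0 < J i) {n : Ix M → ℕ} {i : Fin M} (h : mu J n i ≠ 0) :
    G1 J n i = 1 ∧ ∀ ε, (n (i, ε) : ℝ) < 48 * J i := by
  have h1 : ∏ j ∈ Finset.Iio i, g2 J n j ≠ 0 := left_ne_zero_of_mul h
  have h2 : 1 - g2 J n i ≠ 0 := right_ne_zero_of_mul h
  refine ⟨?_, ?_⟩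
  · unfold G1
    apply Finset.prod_eq_one
    intro j hj
    exact g1_eq_one hJ (Finset.prod_ne_zero_iff.mp h1 j hj)
  · have h3 : (NN n i : ℝ) < 48 * J i := lt_of_g2_ne_one hJ (fun h => h2 (by rw [h]; ring))
    intro ε
    have : n (i, ε) ≤ NN n i := by
      unfold NN; cases ε
      · exact le_max_left _ _
      · exact le_max_right _ _
    have : (n (i, ε) : ℝ) ≤ NN n i := by exact_mod_cast this
    linarith

theorem cc_bd (n : Ix M → ℕ) (i : Fin M) : 1 / 100 ≤ cc n i ∧ cc n i ≤ 100 := by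
  unfold cc; split_ifs <;> norm_num
theorem rr_bd (n : Ix M → ℕ) (p : Ix M) : 1 / 100 ≤ rr n p ∧ rr n p ≤ 100 := by
  unfold rr; split_ifs <;> norm_num

theorem om_bd (hJ : ∀ i, 0 < J i) (n : Ix M → ℕ) (p : Ix M) :
    1 / 100 ≤ om J n p ∧ om J n p ≤ 100 := by
  have h := sum_nu hJ n p.1
  have hG := G1_nonneg (J := J) n p.1
  have hr := rr_bd n p
  have h1 : ∑ i ∈ Finset.Iio p.1, nu J n p.1 i * cc n i ≤ ∑ i ∈ Finset.Iio p.1, nu J n p.1 i * 100 :=
    Finset.sum_le_sum fun i _ => mul_le_mul_of_nonneg_left (cc_bd n i).2 (nu_nonneg n _ _)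
  have h2 : ∑ i ∈ Finset.Iio p.1, nu J n p.1 i * (1/100) ≤ ∑ i ∈ Finset.Iio p.1, nu J n p.1 i * cc n i :=
    Finset.sum_le_sum fun i _ => mul_le_mul_of_nonneg_left (cc_bd n i).1 (nu_nonneg n _ _)
  rw [← Finset.sum_mul, h] at h1 h2
  unfold om
  constructor <;> nlinarith [hr.1, hr.2]

end
end Pool.H521RB
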