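import Pool.Agent.H521R4.RB.Core1

/-!
# Lipschitz estimates for the control shares
-/

set_option autoImplicit false
open Classical

namespace Pool.H521RB

section
variable {M : ℕ} {J : Fin M → ℕ}

theorem abs_prod_sub_le {α : Type} [DecidableEq α] (S : Finset α) (f f' : α → ℝ) (a : α) (c : ℝ)
    (hf : ∀ i, 0 ≤ f i ∧ f i ≤ 1) (heq : ∀ i, i ≠ a → f' i = f i)
    (hc : |f' a - f a| ≤ c) : |∏ i ∈ S, f' i - ∏ i ∈ S, f i| ≤ c := by
  have hc0 : 0 ≤ c := (abs_nonneg _).trans hc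
  by_cases ha : a ∈ S
  · rw [← Finset.mul_prod_erase S f ha, ← Finset.mul_prod_erase S f' ha]
    have h1 : ∏ x ∈ S.erase a, f' x = ∏ x ∈ S.erase a, f x :=
      Finset.prod_congr rfl fun i hi => heq i (Finset.ne_of_mem_erase hi)
    rw [h1, ← sub_mul, abs_mul]
    have h2 : |∏ x ∈ S.erase a, f x| ≤ 1 := by
      rw [abs_of_nonneg (Finset.prod_nonneg fun i _ => (hf i).1)]
      exact Finset.prod_le_one (fun i _ => (hf i).1) fun i _ => (hf i).2
    calc |f' a - f a| * |∏ x ∈ S.erase a, f x| ≤ c * 1 :=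
          mul_le_mul hc h2 (abs_nonneg _) hc0
      _ = c := mul_one c
  · have h1 : ∏ x ∈ S, f' x = ∏ x ∈ S, f x :=
      Finset.prod_congr rfl fun i hi => heq i (fun h => ha (h ▸ hi))
    rw [h1, sub_self, abs_zero]; exact hc0

theorem NN_nbr {p : Ix M} {n n' : Ix M → ℕ} (h : nbr p n n') (i : Fin M) :
    (i ≠ p.1 → NN n' i = NN n i) ∧ |(NN n' i : ℝ) - NN n i| ≤ 1 := by
  obtain ⟨h1, h2, h3⟩ := h
  have hne : i ≠ p.1 → NN n' i = NN n i := by
    intro hi
    unfold NN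
    rw [h1 (i, false) (fun h => hi (by rw [← h])), h1 (i, true) (fun h => hi (by rw [← h]))]
  refine ⟨hne, ?_⟩
  by_cases hi : i = p.1
  · have key : NN n' i ≤ NN n i + 1 ∧ NN n i ≤ NN n' i + 1 := by
      subst hi
      obtain ⟨i, ε⟩ := p
      unfold NN
      have ha := h1 (i, !ε) (by simp)
      cases ε
      · simp only [Bool.not_false] at ha
        simp only at h2 h3 ⊢
        rw [ha]; omega
      · simp only [Bool.not_true] at ha
        simp only at h2 h3 ⊢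
        rw [ha]; omega
    rw [abs_le]
    have e1 : (NN n' i : ℝ) ≤ NN n i + 1 := by exact_mod_cast key.1
    have e2 : (NN n i : ℝ) ≤ NN n' i + 1 := by exact_mod_cast key.2
    constructor <;> linarith
  · rw [hne hi]; simp

theorem g_nbr (hJ : ∀ i, 0 < J i) {p : Ix M} {n n' : Ix M → ℕ} (h : nbr p n n') (i : Fin M) :
    (i ≠ p.1 → g1 J n' i = g1 J n i ∧ g2 J n' i = g2 J n i) ∧
    |g1 J n' i - g1 J n i| ≤ 1 / (16 * J i) ∧ |g2 J n' i - g2 J n i| ≤ 1 / (16 * J i) := by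
  have hJi : (0:ℝ) < J i := by exact_mod_cast hJ i
  obtain ⟨h1, h2⟩ := NN_nbr h i
  refine ⟨fun hi => ?_, ?_, ?_⟩
  · unfold g1 g2; rw [h1 hi]; exact ⟨rfl, rfl⟩
  · unfold g1
    refine (cl_lip _ _).trans ?_
    rw [← sub_div, abs_div, abs_of_pos (show (0:ℝ) < 16 * J i by positivity)]
    gcongr
    rw [show (NN n' i : ℝ) - 16 * J i - (NN n i - 16 * J i) = NN n' i - NN n i by ring]
    exact h2
  · unfold g2
    refine (cl_lip _ _).trans ?_
    rw [← sub_div, abs_div, abs_of_pos (show (0:ℝ) < 16 * J i by positivity)]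
    gcongr
    rw [show (NN n' i : ℝ) - 32 * J i - (NN n i - 32 * J i) = NN n' i - NN n i by ring]
    exact h2

theorem G1_nbr (hJ : ∀ i, 0 < J i) {p : Ix M} {n n' : Ix M → ℕ} (h : nbr p n n') (s : Fin M) :
    (s ≤ p.1 → G1 J n' s = G1 J n s) ∧ |G1 J n' s - G1 J n s| ≤ 1 / (16 * J p.1) := by
  refine ⟨fun hs => ?_, ?_⟩
  · unfold G1
    refine Finset.prod_congr rfl fun i hi => ?_
    exact ((g_nbr hJ h i).1 (ne_of_lt ((Finset.mem_Iio.mp hi).trans_le hs))).1
  · unfold G1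
    exact abs_prod_sub_le _ _ _ p.1 _ (fun i => ⟨g1_nonneg n i, g1_le n i⟩)
      (fun i hi => ((g_nbr hJ h i).1 hi).1) (g_nbr hJ h p.1).2.1

theorem mu_nbr (hJ : ∀ i, 0 < J i) {p : Ix M} {n n' : Ix M → ℕ} (h : nbr p n n') (i : Fin M) :
    (i < p.1 → mu J n' i = mu J n i) ∧ |mu J n' i - mu J n i| ≤ 1 / (16 * J p.1) := by
  have h0 : (0:ℝ) ≤ 1 / (16 * J p.1) := by positivity
  have hlt : i < p.1 → mu J n' i = mu J n i := by
    intro hi
    unfold mu
    rw [((g_nbr hJ h i).1 (ne_of_lt hi)).2]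
    congr 1
    refine Finset.prod_congr rfl fun j hj => ?_
    exact ((g_nbr hJ h j).1 (ne_of_lt ((Finset.mem_Iio.mp hj).trans hi))).2
  refine ⟨hlt, ?_⟩
  have hP : ∀ m : Ix M → ℕ, 0 ≤ ∏ j ∈ Finset.Iio i, g2 J m j ∧ ∏ j ∈ Finset.Iio i, g2 J m j ≤ 1 :=
    fun m => ⟨Finset.prod_nonneg fun j _ => g2_nonneg m j,
      Finset.prod_le_one (fun j _ => g2_nonneg m j) fun j _ => g2_le m j⟩
  rcases lt_trichotomy i p.1 with hi | hi | hi
  · rw [hlt hi]; simpa using h0
  · -- only the last factor changes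
    have e1 : ∏ j ∈ Finset.Iio i, g2 J n' j = ∏ j ∈ Finset.Iio i, g2 J n j := by
      refine Finset.prod_congr rfl fun j hj => ?_
      exact ((g_nbr hJ h j).1 (ne_of_lt ((Finset.mem_Iio.mp hj).trans_le hi.le))).2
    unfold mu
    rw [e1, ← mul_sub, abs_mul, abs_of_nonneg (hP n).1]
    have e2 : |1 - g2 J n' i - (1 - g2 J n i)| ≤ 1 / (16 * J p.1) := by
      rw [show 1 - g2 J n' i - (1 - g2 J n i) = -(g2 J n' i - g2 J n i) by ring, abs_neg, ← hi]
      exact (g_nbr hJ h i).2.2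
    calc _ ≤ 1 * (1 / (16 * (J p.1 : ℝ))) :=
          mul_le_mul (hP n).2 e2 (abs_nonneg _) zero_le_one
      _ = _ := one_mul _
  · have e1 : |∏ j ∈ Finset.Iio i, g2 J n' j - ∏ j ∈ Finset.Iio i, g2 J n j| ≤ 1 / (16 * J p.1) :=
      abs_prod_sub_le _ _ _ p.1 _ (fun i => ⟨g2_nonneg n i, g2_le n i⟩)
        (fun i hi => ((g_nbr hJ h i).1 hi).2) (g_nbr hJ h p.1).2.2
    unfold mu
    rw [((g_nbr hJ h i).1 (ne_of_gt hi)).2, ← sub_mul, abs_mul]
    have e2 : |1 - g2 J n i| ≤ 1 := by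
      rw [abs_le]; constructor <;> linarith [g2_nonneg (J := J) n i, g2_le (J := J) n i]
    calc _ ≤ 1 / (16 * (J p.1 : ℝ)) * 1 := mul_le_mul e1 e2 (abs_nonneg _) h0
      _ = _ := mul_one _

theorem nu_nbr (hJ : ∀ i, 0 < J i) {p : Ix M} {n n' : Ix M → ℕ} (h : nbr p n n') (s i : Fin M) :
    (s ≤ p.1 → i < p.1 → nu J n' s i = nu J n s i) ∧
    |nu J n' s i - nu J n s i| ≤ 1 / (8 * J p.1) := by
  have hJp : (0:ℝ) < J p.1 := by exact_mod_cast hJ p.1
  refine ⟨fun hs hi => ?_, ?_⟩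
  · unfold nu; rw [(G1_nbr hJ h s).1 hs, (mu_nbr hJ h i).1 hi]
  · have e1 := (G1_nbr hJ h s).2
    have e2 := (mu_nbr hJ h i).2
    have e3 : nu J n' s i - nu J n s i =
        -(G1 J n' s - G1 J n s) * mu J n' i + (1 - G1 J n s) * (mu J n' i - mu J n i) := by
      unfold nu; ring
    rw [e3]
    refine (abs_add_le _ _).trans ?_
    rw [abs_mul, abs_mul, abs_neg]
    have h1 : |mu J n' i| ≤ 1 := by
      rw [abs_of_nonneg (mu_nonneg n' i)]; exact mu_le n' i
    have h2 : |1 - G1 J n s| ≤ 1 := by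
      rw [abs_le]; constructor <;> linarith [G1_nonneg (J := J) n s, G1_le (J := J) n s]
    have h3 : (0:ℝ) ≤ 1 / (16 * J p.1) := by positivity
    have k1 := mul_le_mul e1 h1 (abs_nonneg _) h3
    have k2 := mul_le_mul h2 e2 (abs_nonneg _) zero_le_one
    have k3 : (1:ℝ) / (8 * J p.1) = 1 / (16 * J p.1) * 1 + 1 * (1 / (16 * J p.1)) := by
      field_simp; norm_num
    rw [k3]; linarith

/-- weights of coordinate `p` in preference mode -/
theorem om_pref {n : Ix M → ℕ} {p : Ix M} (h : G1 J n p.1 = 1) : om J n p = rr n p := by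
  unfold om
  rw [h, one_mul]
  have : ∑ i ∈ Finset.Iio p.1, nu J n p.1 i * cc n i = 0 := by
    refine Finset.sum_eq_zero fun i _ => ?_
    unfold nu; rw [h]; ring
  rw [this, zero_add]

theorem nbr_up (p : Ix M) (n : Ix M → ℕ) : nbr p n (Function.update n p (n p + 1)) :=
  ⟨fun q hq => Function.update_of_ne hq _ _, by simp, by simp; omega⟩

theorem nbr_dn (p : Ix M) (n : Ix M → ℕ) : nbr p n (Function.update n p (n p - 1)) :=
  ⟨fun q hq => Function.update_of_ne hq _ _, by simp; omega, by simp; omega⟩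

/-- parity of the coarser levels is not changed by moves at levels `≤ i` -/
theorem par_nbr {p : Ix M} {n n' : Ix M → ℕ} (h : nbr p n n') (i : Fin M) (hi : p.1 ≤ i) :
    par n' i = par n i := by
  unfold par
  congr 1
  refine Finset.sum_congr rfl fun q hq => ?_
  rw [Finset.mem_filter] at hq
  exact h.1 q (fun h => absurd hq.2 (by rw [h]; exact not_lt.mpr hi))

/-- parity of coarser levels flips by an up move at level `> i` -/
theorem par_up (p : Ix M) (n : Ix M → ℕ) (i : Fin M) (hi : i < p.1) :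
    par (Function.update n p (n p + 1)) i = (par n i + 1) % 2 := by
  unfold par
  rw [Finset.sum_update_of_mem (by simp [hi]), ]
  have h2 : ∑ q ∈ Finset.univ.filter (fun q : Ix M => i < q.1), n q =
      n p + ∑ q ∈ (Finset.univ.filter (fun q : Ix M => i < q.1)) \ {p}, n q := by
    rw [Finset.sdiff_singleton_eq_erase, Finset.add_sum_erase _ _ (by simp [hi])]
  rw [h2]; omega

end
end Pool.H521RB
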