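import Pool.Agent.H521R4.RB.Core2

/-!
# The corrected potential and its drift
-/

set_option autoImplicit false
open Classical

namespace Pool.H521RB

noncomputable def gg (j k : ℕ) : ℝ := 2 ^ (min k (16 * j))
noncomputable def XX (j k : ℕ) : ℝ := if k < 16 * j then (k:ℝ) / 2 + 24.24 * j else 0
noncomputable def YY (j k : ℕ) : ℝ := if k < 16 * j then 2400 * (j:ℝ) else 0

theorem gg_pos (j k : ℕ) : 0 < gg j k := by unfold gg; positivity
theorem gg_succ (j k : ℕ) : gg j (k+1) ≤ 2 * gg j k := by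
  unfold gg
  rw [← pow_succ']
  exact pow_le_pow_right₀ (by norm_num) (by omega)
theorem gg_pred (j k : ℕ) : gg j (k-1) ≤ gg j k := by
  unfold gg
  exact pow_le_pow_right₀ (by norm_num) (by omega)
theorem XX_nonneg (j k : ℕ) : 0 ≤ XX j k := by unfold XX; split_ifs <;> positivity
theorem YY_nonneg (j k : ℕ) : 0 ≤ YY j k := by unfold YY; split_ifs <;> positivity
theorem XY_le (j k : ℕ) : 2 * XX j k + YY j k ≤ 2500 * j := by
  unfold XX YY
  split_ifs with h
  · have h' : (k:ℝ) < 16 * j := by exact_mod_cast h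
    have hj : (0:ℝ) ≤ j := Nat.cast_nonneg j
    linarith
  · have hj : (0:ℝ) ≤ j := Nat.cast_nonneg j
    linarith

section
variable {M : ℕ} (J : Fin M → ℕ) (p0 : Ix M)

noncomputable def Psi (n : Ix M → ℕ) (i : Fin M) : ℝ :=
  gg (J p0.1) (n p0) * (XX (J p0.1) (n p0) * (sg n (i, false) + sg n (i, true))
    + YY (J p0.1) (n p0) * (sg n (i, false) * sg n (i, true)))

noncomputable def T1 (n : Ix M → ℕ) (i : Fin M) : ℝ :=
  nu J n p0.1 i / (4800 * J i) * Psi J p0 n i

noncomputable def ff (n : Ix M → ℕ) : ℝ :=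
  gg (J p0.1) (n p0) + ∑ i ∈ Finset.Iio p0.1, T1 J p0 n i

/-- contribution of coordinate `p` to the generator -/
noncomputable def Lp (U D : Ix M → ℝ) (f : (Ix M → ℕ) → ℝ) (n : Ix M → ℕ) (p : Ix M) : ℝ :=
  U p * om J (Function.update n p (n p + 1)) p * (f (Function.update n p (n p + 1)) - f n)
    + D p * om J n p * (f (Function.update n p (n p - 1)) - f n)

variable {J p0}

theorem Psi_bd (n : Ix M → ℕ) (i : Fin M) :
    0 ≤ Psi J p0 n i ∧ Psi J p0 n i ≤ 2500 * J p0.1 * gg (J p0.1) (n p0) := by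
  have hg := gg_pos (J p0.1) (n p0)
  have hX := XX_nonneg (J p0.1) (n p0)
  have hY := YY_nonneg (J p0.1) (n p0)
  have hXY := XY_le (J p0.1) (n p0)
  unfold Psi
  rcases sg_cases n (i, false) with h1 | h1 <;> rcases sg_cases n (i, true) with h2 | h2 <;>
    rw [h1, h2] <;> constructor <;> nlinarith

theorem T1_nonneg (n : Ix M → ℕ) (i : Fin M) : 0 ≤ T1 J p0 n i :=
  mul_nonneg (div_nonneg (nu_nonneg n _ _) (by positivity)) (Psi_bd n i).1

theorem ff_ge (n : Ix M → ℕ) : gg (J p0.1) (n p0) ≤ ff J p0 n := by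
  unfold ff
  have : 0 ≤ ∑ i ∈ Finset.Iio p0.1, T1 J p0 n i := Finset.sum_nonneg fun i _ => T1_nonneg n i
  linarith

theorem Lp_le (hJ : ∀ i, 0 < J i) {U D : Ix M → ℝ} {n : Ix M → ℕ} {p : Ix M}
    (hU : 0 ≤ U p) (hD : 0 ≤ D p) (hUD : U p + D p ≤ 4800 * J p.1)
    {f : (Ix M → ℕ) → ℝ} {b : ℝ} (hb : 0 ≤ b)
    (h1 : f (Function.update n p (n p + 1)) - f n ≤ b)
    (h2 : f (Function.update n p (n p - 1)) - f n ≤ b) :
    Lp J U D f n p ≤ 480000 * J p.1 * b := by
  unfold Lp
  have o1 := om_bd hJ (Function.update n p (n p + 1)) p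
  have o2 := om_bd hJ n p
  have e1 : U p * om J (Function.update n p (n p + 1)) p * (f (Function.update n p (n p + 1)) - f n)
      ≤ U p * 100 * b := by
    calc _ ≤ U p * om J (Function.update n p (n p + 1)) p * b :=
          mul_le_mul_of_nonneg_left h1 (mul_nonneg hU (by linarith [o1.1]))
      _ ≤ U p * 100 * b :=
          mul_le_mul_of_nonneg_right (mul_le_mul_of_nonneg_left o1.2 hU) hb
  have e2 : D p * om J n p * (f (Function.update n p (n p - 1)) - f n) ≤ D p * 100 * b := by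
    calc _ ≤ D p * om J n p * b :=
          mul_le_mul_of_nonneg_left h2 (mul_nonneg hD (by linarith [o2.1]))
      _ ≤ D p * 100 * b :=
          mul_le_mul_of_nonneg_right (mul_le_mul_of_nonneg_left o2.2 hD) hb
  nlinarith

/-- coarser moves -/
theorem T1_coarse (hJ : ∀ i, 0 < J i) {n n' : Ix M → ℕ} {p : Ix M}
    (h : n' p0 ≤ n p0 + 1) (i : Fin M) :
    T1 J p0 n' i - T1 J p0 n i ≤
      (1 / (4800 * J i)) * (2500 * J p0.1 * (2 * gg (J p0.1) (n p0))) := by
  have hJi : (0:ℝ) < J i := by exact_mod_cast hJ i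
  have h1 := T1_nonneg (J := J) (p0 := p0) n i
  have h2 : T1 J p0 n' i ≤ (1 / (4800 * J i)) * (2500 * J p0.1 * (2 * gg (J p0.1) (n p0))) := by
    unfold T1
    have hP := Psi_bd (J := J) (p0 := p0) n' i
    have hnu : nu J n' p0.1 i / (4800 * J i) ≤ 1 / (4800 * J i) := by
      gcongr; exact nu_le n' _ _
    refine mul_le_mul hnu (hP.2.trans ?_) hP.1 (by positivity)
    have : gg (J p0.1) (n' p0) ≤ 2 * gg (J p0.1) (n p0) := by
      refine le_trans ?_ (gg_succ _ _)
      unfold gg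
      exact pow_le_pow_right₀ (by norm_num) (by omega)
    gcongr
  linarith

/-- finer or equal level moves: change of the share times the potential -/
theorem T1_fine (hJ : ∀ i, 0 < J i) {n n' : Ix M → ℕ} {p : Ix M} (h : nbr p n n')
    (hp : p ≠ p0) (i : Fin M) :
    T1 J p0 n' i - T1 J p0 n i ≤
      (1 / (4800 * J i)) * (nu J n p0.1 i * (Psi J p0 n' i - Psi J p0 n i)) +
      (1 / (4800 * J i)) * (1 / (8 * J p.1) * (2500 * J p0.1 * gg (J p0.1) (n p0))) := by
  have hJi : (0:ℝ) < J i := by exact_mod_cast hJ i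
  have hk : n' p0 = n p0 := h.1 p0 (fun h => hp h.symm)
  have hP := Psi_bd (J := J) (p0 := p0) n' i
  rw [hk] at hP
  have hnu := (abs_le.mp (nu_nbr hJ h p0.1 i).2).2
  have e : T1 J p0 n' i - T1 J p0 n i =
      (1 / (4800 * J i)) * (nu J n p0.1 i * (Psi J p0 n' i - Psi J p0 n i)) +
      (1 / (4800 * J i)) * ((nu J n' p0.1 i - nu J n p0.1 i) * Psi J p0 n' i) := by
    unfold T1; ring
  rw [e]
  have h3 : (nu J n' p0.1 i - nu J n p0.1 i) * Psi J p0 n' i ≤
      1 / (8 * J p.1) * (2500 * J p0.1 * gg (J p0.1) (n p0)) := by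
    calc _ ≤ 1 / (8 * (J p.1 : ℝ)) * Psi J p0 n' i := mul_le_mul_of_nonneg_right hnu hP.1
      _ ≤ _ := mul_le_mul_of_nonneg_left hP.2 (by positivity)
  have h4 : (0:ℝ) ≤ 1 / (4800 * J i) := by positivity
  linarith [mul_le_mul_of_nonneg_left h3 h4]

/-- error coefficient -/
noncomputable def ee (J : Fin M → ℕ) (p0 : Ix M) (i : Fin M) (p : Ix M) : ℝ :=
  if i < p.1 then 500000 * J p.1 * J p0.1 / J i else 31250 * J p0.1 / J i

theorem Lp_T1_coarse (hJ : ∀ i, 0 < J i) {U D : Ix M → ℝ} {n : Ix M → ℕ} {p : Ix M}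
    (hU : 0 ≤ U p) (hD : 0 ≤ D p) (hUD : U p + D p ≤ 4800 * J p.1) {i : Fin M} (hip : i < p.1) :
    Lp J U D (fun n => T1 J p0 n i) n p ≤ ee J p0 i p * gg (J p0.1) (n p0) := by
  have hJi : (0:ℝ) < J i := by exact_mod_cast hJ i
  have hg := gg_pos (J p0.1) (n p0)
  have hk1 : (Function.update n p (n p + 1)) p0 ≤ n p0 + 1 := by
    by_cases h : p0 = p
    · subst h; simp
    · rw [Function.update_of_ne h]; omega
  have hk2 : (Function.update n p (n p - 1)) p0 ≤ n p0 + 1 := by
    by_cases h : p0 = p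
    · subst h; simp; omega
    · rw [Function.update_of_ne h]; omega
  have := Lp_le hJ hU hD hUD (f := fun n => T1 J p0 n i)
    (b := (1 / (4800 * J i)) * (2500 * J p0.1 * (2 * gg (J p0.1) (n p0)))) (by positivity)
    (T1_coarse (p := p) hJ hk1 i) (T1_coarse (p := p) hJ hk2 i)
  refine this.trans (le_of_eq ?_)
  unfold ee
  rw [if_pos hip]
  field_simp
  ring

theorem Psi_fine {n n' : Ix M → ℕ} {p : Ix M} (h : nbr p n n')
    (hp : p ≠ p0) {i : Fin M} (hpi : p.1 < i) : Psi J p0 n' i = Psi J p0 n i := by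
  have hk : n' p0 = n p0 := h.1 p0 (fun h => hp h.symm)
  have hpar := par_nbr h i hpi.le
  have hs : ∀ ε, sg n' (i, ε) = sg n (i, ε) := by
    intro ε
    unfold sg
    rw [h.1 (i, ε) (fun hh => absurd hpi (by rw [← hh]; exact lt_irrefl _))]
    simp only
    rw [hpar]
  unfold Psi
  rw [hk, hs, hs]

theorem Lp_T1_fine (hJ : ∀ i, 0 < J i) {U D : Ix M → ℝ} {n : Ix M → ℕ} {p : Ix M}
    (hU : 0 ≤ U p) (hD : 0 ≤ D p) (hUD : U p + D p ≤ 4800 * J p.1) {i : Fin M} (hip : p.1 < i)
    (hi : i < p0.1) :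
    Lp J U D (fun n => T1 J p0 n i) n p ≤ ee J p0 i p * gg (J p0.1) (n p0) := by
  have hJi : (0:ℝ) < J i := by exact_mod_cast hJ i
  have hJp : (0:ℝ) < J p.1 := by exact_mod_cast hJ p.1
  have hg := gg_pos (J p0.1) (n p0)
  have hp : p ≠ p0 := fun h => absurd (hip.trans hi) (by rw [h]; exact lt_irrefl _)
  have k1 := T1_fine hJ (nbr_up p n) hp i
  have k2 := T1_fine hJ (nbr_dn p n) hp i
  rw [Psi_fine (nbr_up p n) hp hip, sub_self, mul_zero, mul_zero, zero_add] at k1
  rw [Psi_fine (nbr_dn p n) hp hip, sub_self, mul_zero, mul_zero, zero_add] at k2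
  have := Lp_le hJ hU hD hUD (f := fun n => T1 J p0 n i) (by positivity) k1 k2
  refine this.trans (le_of_eq ?_)
  unfold ee
  rw [if_neg (not_lt.mpr hip.le)]
  field_simp
  ring

/-- main part of a half of level `i` -/
noncomputable def mainp (J : Fin M → ℕ) (p0 : Ix M) (n : Ix M → ℕ) (i : Fin M) (ε : Bool) : ℝ :=
  nu J n p0.1 i * gg (J p0.1) (n p0) *
    ((XX (J p0.1) (n p0) + YY (J p0.1) (n p0) * sg n (i, !ε)) * (1.01 - 100.01 * sg n (i, ε)))

theorem Psi_flip {n n' : Ix M → ℕ} {i : Fin M} {ε : Bool} (h : nbr (i, ε) n n')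
    (hi : i < p0.1) (hfl : n' (i, ε) % 2 ≠ n (i, ε) % 2) :
    Psi J p0 n' i - Psi J p0 n i = gg (J p0.1) (n p0) *
      ((XX (J p0.1) (n p0) + YY (J p0.1) (n p0) * sg n (i, !ε)) * (1 - 2 * sg n (i, ε))) := by
  have hk : n' p0 = n p0 := h.1 p0 (fun hh => absurd hi (by rw [hh]; exact lt_irrefl _))
  have hpar : par n' i = par n i := par_nbr h i le_rfl
  have ho : sg n' (i, !ε) = sg n (i, !ε) := by
    unfold sg
    rw [h.1 (i, !ε) (by simp)]
    simp only
    rw [hpar]
  have hf : sg n' (i, ε) = 1 - sg n (i, ε) := by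
    unfold sg
    simp only
    rw [hpar]
    have hp2 : par n i < 2 := by unfold par; exact Nat.mod_lt _ (by norm_num)
    split_ifs with a b b
    · exact absurd (a.trans b.symm) hfl
    · norm_num
    · norm_num
    · exfalso; omega
  unfold Psi
  rw [hk]
  cases ε
  · simp only [Bool.not_false] at ho ⊢
    rw [ho, hf]; ring
  · simp only [Bool.not_true] at ho ⊢
    rw [ho, hf]; ring

theorem Lp_T1_eq (hJ : ∀ i, 0 < J i) {U D : Ix M → ℝ} {n : Ix M → ℕ} {i : Fin M} {ε : Bool}
    (hU : 0 ≤ U (i, ε)) (hD : 0 ≤ D (i, ε)) (hUD : U (i, ε) + D (i, ε) ≤ 4800 * J i)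
    (hin : n (i, ε) < 150 * J i → U (i, ε) = 4800 * J i - n (i, ε) ∧ D (i, ε) = n (i, ε))
    (hi : i < p0.1) :
    Lp J U D (fun n => T1 J p0 n i) n (i, ε) ≤
      mainp J p0 n i ε + ee J p0 i (i, ε) * gg (J p0.1) (n p0) := by
  have hJi : (0:ℝ) < J i := by exact_mod_cast hJ i
  have hg := gg_pos (J p0.1) (n p0)
  have hX := XX_nonneg (J p0.1) (n p0)
  have hY := YY_nonneg (J p0.1) (n p0)
  have hp : ((i, ε) : Ix M) ≠ p0 := fun h => absurd hi (by rw [← h]; exact lt_irrefl _)
  have k1 := T1_fine hJ (nbr_up (i, ε) n) hp i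
  have k2 := T1_fine hJ (nbr_dn (i, ε) n) hp i
  have hee : ee J p0 i (i, ε) * gg (J p0.1) (n p0) = 480000 * J i *
      ((1 / (4800 * J i)) * (1 / (8 * J i) * (2500 * J p0.1 * gg (J p0.1) (n p0)))) := by
    unfold ee
    rw [if_neg (lt_irrefl _)]
    field_simp
    ring
  by_cases hnu : nu J n p0.1 i = 0
  · rw [hnu, zero_mul, mul_zero, zero_add] at k1 k2
    have := Lp_le hJ hU hD hUD (f := fun n => T1 J p0 n i) (by positivity) k1 k2
    unfold mainp
    rw [hnu, zero_mul, zero_mul, zero_add, hee]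
    exact this
  · have hmu : mu J n i ≠ 0 := fun h => hnu (by unfold nu; rw [h, mul_zero])
    obtain ⟨hG, hn48⟩ := pref_of_mu hJ hmu
    have hn := hn48 ε
    have hn' : n (i, ε) < 150 * J i := by
      have : (n (i, ε) : ℝ) < (150 * J i : ℕ) := by push_cast; linarith
      exact_mod_cast this
    obtain ⟨hUe, hDe⟩ := hin hn'
    have hnu0 := nu_nonneg (J := J) n p0.1 i
    -- weights
    have hG' : G1 J (Function.update n (i, ε) (n (i, ε) + 1)) i = 1 := by
      rw [(G1_nbr hJ (nbr_up (i, ε) n) i).1 le_rfl]; exact hG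
    have o1 : om J (Function.update n (i, ε) (n (i, ε) + 1)) (i, ε) =
        rr (Function.update n (i, ε) (n (i, ε) + 1)) (i, ε) := om_pref hG'
    have o2 : om J n (i, ε) = rr n (i, ε) := om_pref hG
    have hparu : par (Function.update n (i, ε) (n (i, ε) + 1)) i = par n i :=
      par_nbr (nbr_up (i, ε) n) i le_rfl
    have hp2 : par n i < 2 := by unfold par; exact Nat.mod_lt _ (by norm_num)
    have w1 : om J (Function.update n (i, ε) (n (i, ε) + 1)) (i, ε) =
        if sg n (i, ε) = 0 then 1 / 100 else 100 := by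
      rw [o1]
      unfold rr sg
      simp only [Function.update_self]
      rw [hparu]
      by_cases a : n (i, ε) % 2 = par n i
      · rw [if_pos a, if_neg (by omega)]; simp
      · rw [if_neg a, if_pos (by omega)]; simp
    have w2 : om J n (i, ε) = if sg n (i, ε) = 0 then 100 else 1 / 100 := by
      rw [o2]
      unfold rr sg
      by_cases a : n (i, ε) % 2 = par n i
      · rw [if_pos a, if_pos a]; simp
      · rw [if_neg a, if_neg a]; simp
    set b : ℝ := (1 / (4800 * J i)) * (1 / (8 * J i) * (2500 * J p0.1 * gg (J p0.1) (n p0))) with hb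
    have hb0 : 0 ≤ b := by positivity
    set A : ℝ := XX (J p0.1) (n p0) + YY (J p0.1) (n p0) * sg n (i, !ε) with hA
    have hA0 : 0 ≤ A := by
      have : 0 ≤ sg n (i, !ε) := by rcases sg_cases n (i, !ε) with h | h <;> rw [h]; norm_num
      positivity
    have f1 := Psi_flip (J := J) (p0 := p0) (nbr_up (i, ε) n) hi (by
      simp only [Function.update_self]; omega)
    rw [f1, ← hA] at k1
    have hcoef : (0:ℝ) ≤ nu J n p0.1 i * gg (J p0.1) (n p0) * A := by positivity
    -- the down move: either `n (i, ε) = 0` and `D = 0`, or the parity flips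
    have kd : D (i, ε) * om J n (i, ε) *
        (T1 J p0 (Function.update n (i, ε) (n (i, ε) - 1)) i - T1 J p0 n i) ≤
        D (i, ε) * om J n (i, ε) * ((1 / (4800 * J i)) *
          (nu J n p0.1 i * (gg (J p0.1) (n p0) * (A * (1 - 2 * sg n (i, ε))))) + b) := by
      by_cases h0 : n (i, ε) = 0
      · rw [hDe, h0]; simp
      · have f2 := Psi_flip (J := J) (p0 := p0) (nbr_dn (i, ε) n) hi (by
          simp only [Function.update_self]; omega)
        rw [f2, ← hA] at k2
        refine mul_le_mul_of_nonneg_left k2 (mul_nonneg hD ?_)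
        linarith [(om_bd hJ n (i, ε)).1]
    have ku : U (i, ε) * om J (Function.update n (i, ε) (n (i, ε) + 1)) (i, ε) *
        (T1 J p0 (Function.update n (i, ε) (n (i, ε) + 1)) i - T1 J p0 n i) ≤
        U (i, ε) * om J (Function.update n (i, ε) (n (i, ε) + 1)) (i, ε) * ((1 / (4800 * J i)) *
          (nu J n p0.1 i * (gg (J p0.1) (n p0) * (A * (1 - 2 * sg n (i, ε))))) + b) := by
      refine mul_le_mul_of_nonneg_left k1 (mul_nonneg hU ?_)
      linarith [(om_bd hJ (Function.update n (i, ε) (n (i, ε) + 1)) (i, ε)).1]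
    have hR : U (i, ε) * om J (Function.update n (i, ε) (n (i, ε) + 1)) (i, ε) +
        D (i, ε) * om J n (i, ε) ≤ 480000 * J i := by
      have a1 := (om_bd hJ (Function.update n (i, ε) (n (i, ε) + 1)) (i, ε)).2
      have a2 := (om_bd hJ n (i, ε)).2
      nlinarith
    have hmain : (U (i, ε) * om J (Function.update n (i, ε) (n (i, ε) + 1)) (i, ε) +
        D (i, ε) * om J n (i, ε)) * (1 / (4800 * J i)) * (1 - 2 * sg n (i, ε)) ≤
        1.01 - 100.01 * sg n (i, ε) := by
      rw [w1, w2, hUe, hDe]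
      rcases sg_cases n (i, ε) with h | h
      · rw [h]
        simp only [if_true]
        rw [mul_zero, sub_zero, mul_one, mul_zero, sub_zero, mul_one_div, div_le_iff₀ (by positivity)]
        linarith
      · rw [h]
        simp only [one_ne_zero, if_false]
        rw [show (1:ℝ) - 2 * 1 = -1 by norm_num, mul_neg_one, mul_one_div, neg_le,
          le_div_iff₀ (by positivity)]
        have : (0:ℝ) ≤ n (i, ε) := Nat.cast_nonneg _
        nlinarith
    unfold Lp
    rw [hee]
    unfold mainp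
    rw [← hA]
    have hfin : (U (i, ε) * om J (Function.update n (i, ε) (n (i, ε) + 1)) (i, ε) +
        D (i, ε) * om J n (i, ε)) * (1 / (4800 * J i)) * (1 - 2 * sg n (i, ε)) *
          (nu J n p0.1 i * gg (J p0.1) (n p0) * A) ≤
        (1.01 - 100.01 * sg n (i, ε)) * (nu J n p0.1 i * gg (J p0.1) (n p0) * A) :=
      mul_le_mul_of_nonneg_right hmain hcoef
    have hRb := mul_le_mul_of_nonneg_right hR hb0
    nlinarith [ku, kd, hfin, hRb]

end
end Pool.H521RB
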