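import Pool.Agent.H521R4.RB.Core3

/-!
# Total drift of the corrected potential
-/

set_option autoImplicit false
open Classical

namespace Pool.H521RB

section
variable {M : ℕ} {J : Fin M → ℕ} {p0 : Ix M}

theorem Lp_ff (U D : Ix M → ℝ) (n : Ix M → ℕ) (p : Ix M) :
    Lp J U D (ff J p0) n p = Lp J U D (fun n => gg (J p0.1) (n p0)) n p +
      ∑ i ∈ Finset.Iio p0.1, Lp J U D (fun n => T1 J p0 n i) n p := by
  unfold Lp ff
  rw [Finset.sum_add_distrib, ← Finset.mul_sum, ← Finset.mul_sum, Finset.sum_sub_distrib,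
    Finset.sum_sub_distrib]
  ring

theorem Lp_g_ne (U D : Ix M → ℝ) (n : Ix M → ℕ) {p : Ix M} (hp : p ≠ p0) :
    Lp J U D (fun n => gg (J p0.1) (n p0)) n p = 0 := by
  unfold Lp
  simp only
  rw [Function.update_of_ne (Ne.symm hp), Function.update_of_ne (Ne.symm hp)]
  ring

theorem Lp_g_high (hJ : ∀ i, 0 < J i) {U D : Ix M → ℝ} {n : Ix M → ℕ}
    (hD : 0 ≤ D p0) (hk : 16 * J p0.1 ≤ n p0) :
    Lp J U D (fun n => gg (J p0.1) (n p0)) n p0 ≤ 0 := by
  unfold Lp
  simp only [Function.update_self]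
  have h1 : gg (J p0.1) (n p0 + 1) = gg (J p0.1) (n p0) := by
    unfold gg; congr 1; omega
  rw [h1, sub_self, mul_zero, zero_add]
  have h2 := gg_pred (J p0.1) (n p0)
  have h3 := (om_bd hJ n p0).1
  exact mul_nonpos_of_nonneg_of_nonpos (mul_nonneg hD (by linarith)) (by linarith)

theorem Lp_g_low (hJ : ∀ i, 0 < J i) {U D : Ix M → ℝ} {n : Ix M → ℕ}
    (hin : n p0 < 150 * J p0.1 → U p0 = 4800 * J p0.1 - n p0 ∧ D p0 = n p0)
    (hk : n p0 < 16 * J p0.1) :
    Lp J U D (fun n => gg (J p0.1) (n p0)) n p0 ≤ gg (J p0.1) (n p0) *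
      (∑ i ∈ Finset.Iio p0.1, nu J n p0.1 i * (48 * J p0.1 +
        480000 * J p0.1 * (sg n (i, false) * sg n (i, true)) -
        50 * n p0 * (1 - (sg n (i, false) + sg n (i, true)))) + 480000 * J p0.1 * G1 J n p0.1) := by
  have hJ0 : (0:ℝ) < J p0.1 := by exact_mod_cast hJ p0.1
  obtain ⟨hU, hD⟩ := hin (by omega)
  have hg := gg_pos (J p0.1) (n p0)
  have hk' : (n p0 : ℝ) < 16 * J p0.1 := by exact_mod_cast hk
  have hn0 : (0:ℝ) ≤ n p0 := Nat.cast_nonneg _
  -- upper bound for the up weight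
  have hom1 : om J (Function.update n p0 (n p0 + 1)) p0 ≤
      ∑ i ∈ Finset.Iio p0.1, nu J n p0.1 i * (1 / 100 + 100 * (sg n (i, false) * sg n (i, true)))
        + 100 * G1 J n p0.1 := by
    unfold om
    rw [(G1_nbr hJ (nbr_up p0 n) p0.1).1 le_rfl]
    have h2 : G1 J n p0.1 * rr (Function.update n p0 (n p0 + 1)) p0 ≤ 100 * G1 J n p0.1 := by
      have := G1_nonneg (J := J) n p0.1
      nlinarith [(rr_bd (Function.update n p0 (n p0 + 1)) p0).2]
    refine add_le_add (Finset.sum_le_sum fun i hi => ?_) h2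
    have hi' : i < p0.1 := Finset.mem_Iio.mp hi
    rw [(nu_nbr hJ (nbr_up p0 n) p0.1 i).1 le_rfl hi']
    refine mul_le_mul_of_nonneg_left ?_ (nu_nonneg n _ _)
    have hne : ∀ ε, ((i, ε) : Ix M) ≠ p0 := fun ε h => absurd hi' (by rw [← h]; exact lt_irrefl _)
    have hp2 : par n i < 2 := by unfold par; exact Nat.mod_lt _ (by norm_num)
    unfold cc sg
    rw [Function.update_of_ne (hne false), Function.update_of_ne (hne true), par_up p0 n i hi']
    simp only
    by_cases a : n (i, false) % 2 = par n i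
    · rw [if_pos a, if_neg (by omega)]; norm_num
    · by_cases b : n (i, true) % 2 = par n i
      · rw [if_pos b, if_neg a, if_neg (by omega)]; norm_num
      · rw [if_neg a, if_neg b]
        split_ifs <;> norm_num
  -- lower bound for the down weight
  have hom2 : ∑ i ∈ Finset.Iio p0.1, nu J n p0.1 i *
      (100 * (1 - (sg n (i, false) + sg n (i, true)))) ≤ om J n p0 := by
    unfold om
    have h2 : 0 ≤ G1 J n p0.1 * rr n p0 :=
      mul_nonneg (G1_nonneg n _) (by linarith [(rr_bd n p0).1])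
    have h3 : ∑ i ∈ Finset.Iio p0.1, nu J n p0.1 i *
      (100 * (1 - (sg n (i, false) + sg n (i, true)))) ≤
        ∑ i ∈ Finset.Iio p0.1, nu J n p0.1 i * cc n i := by
      refine Finset.sum_le_sum fun i hi => ?_
      refine mul_le_mul_of_nonneg_left ?_ (nu_nonneg n _ _)
      unfold cc sg
      simp only
      by_cases a : n (i, false) % 2 = par n i <;> by_cases b : n (i, true) % 2 = par n i <;>
        simp [a, b] <;> norm_num
    linarith
  unfold Lp
  simp only [Function.update_self]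
  have h1 : gg (J p0.1) (n p0 + 1) = 2 * gg (J p0.1) (n p0) := by
    unfold gg
    rw [← pow_succ']; congr 1; omega
  rw [h1, hU, hD]
  have hup : ((4800 * J p0.1 - n p0 : ℝ)) * om J (Function.update n p0 (n p0 + 1)) p0 *
      (2 * gg (J p0.1) (n p0) - gg (J p0.1) (n p0)) ≤ gg (J p0.1) (n p0) * (4800 * J p0.1 *
      (∑ i ∈ Finset.Iio p0.1, nu J n p0.1 i * (1 / 100 + 100 * (sg n (i, false) * sg n (i, true)))
        + 100 * G1 J n p0.1)) := by
    have ho := (om_bd hJ (Function.update n p0 (n p0 + 1)) p0).1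
    have a1 : ((4800 * J p0.1 - n p0 : ℝ)) * om J (Function.update n p0 (n p0 + 1)) p0 ≤
        4800 * J p0.1 * om J (Function.update n p0 (n p0 + 1)) p0 := by nlinarith
    have a2 := mul_le_mul_of_nonneg_left hom1 (show (0:ℝ) ≤ 4800 * J p0.1 by positivity)
    have a3 := mul_le_mul_of_nonneg_left (a1.trans a2) hg.le
    linarith
  have hdn : (n p0 : ℝ) * om J n p0 * (gg (J p0.1) (n p0 - 1) - gg (J p0.1) (n p0)) ≤
      gg (J p0.1) (n p0) * (-(1/2) * (n p0 * ∑ i ∈ Finset.Iio p0.1, nu J n p0.1 i *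
      (100 * (1 - (sg n (i, false) + sg n (i, true)))))) := by
    rcases Nat.eq_zero_or_pos (n p0) with h0 | h0
    · rw [h0]; simp
    · have h2 : gg (J p0.1) (n p0) = 2 * gg (J p0.1) (n p0 - 1) := by
        unfold gg
        rw [← pow_succ']; congr 1; omega
      have h3 : gg (J p0.1) (n p0 - 1) - gg (J p0.1) (n p0) = -(1/2) * gg (J p0.1) (n p0) := by
        linarith
      rw [h3]
      have a4 := mul_le_mul_of_nonneg_left (mul_le_mul_of_nonneg_left hom2 hn0) hg.le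
      linarith
  refine (add_le_add hup hdn).trans (le_of_eq ?_)
  rw [← mul_add]
  congr 1
  rw [mul_add, Finset.mul_sum, Finset.mul_sum, Finset.mul_sum]
  have : ∀ A B C : ℝ, A + C + B = (A + B) + C := fun A B C => by ring
  rw [this, ← Finset.sum_add_distrib]
  congr 1
  · refine Finset.sum_congr rfl fun i _ => ?_
    ring
  · ring

/-- total error coefficient -/
noncomputable def EE' (J : Fin M → ℕ) (p0 : Ix M) : ℝ := ∑ i ∈ Finset.Iio p0.1, ∑ p, ee J p0 i p

theorem ee_nonneg (i : Fin M) (p : Ix M) : 0 ≤ ee J p0 i p := by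
  unfold ee; split_ifs <;> positivity

theorem EE'_nonneg : 0 ≤ EE' J p0 :=
  Finset.sum_nonneg fun i _ => Finset.sum_nonneg fun p _ => ee_nonneg i p

theorem sum_T1 (hJ : ∀ i, 0 < J i) {U D : Ix M → ℝ} {n : Ix M → ℕ}
    (hU : ∀ p, 0 ≤ U p) (hD : ∀ p, 0 ≤ D p) (hUD : ∀ p, U p + D p ≤ 4800 * J p.1)
    (hin : ∀ p, n p < 150 * J p.1 → U p = 4800 * J p.1 - n p ∧ D p = n p)
    {i : Fin M} (hi : i < p0.1) :
    ∑ p, Lp J U D (fun n => T1 J p0 n i) n p ≤
      (mainp J p0 n i false + mainp J p0 n i true) + (∑ p, ee J p0 i p) * gg (J p0.1) (n p0) := by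
  have h1 : ∀ p : Ix M, Lp J U D (fun n => T1 J p0 n i) n p ≤
      (if p = (i, false) then mainp J p0 n i false else 0) +
      (if p = (i, true) then mainp J p0 n i true else 0) + ee J p0 i p * gg (J p0.1) (n p0) := by
    intro p
    rcases lt_trichotomy i p.1 with h | h | h
    · have := Lp_T1_coarse (J := J) (p0 := p0) (n := n) hJ (hU p) (hD p) (hUD p) h
      rw [if_neg (by rintro rfl; exact absurd h (lt_irrefl _)),
        if_neg (by rintro rfl; exact absurd h (lt_irrefl _))]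
      linarith
    · obtain ⟨a, ε⟩ := p
      simp only at h
      subst h
      have := Lp_T1_eq (J := J) (p0 := p0) (n := n) hJ (hU _) (hD _) (hUD (i, ε)) (hin (i, ε)) hi
      cases ε
      · simpa using this
      · simpa using this
    · have := Lp_T1_fine (J := J) (p0 := p0) (n := n) hJ (hU p) (hD p) (hUD p) h hi
      rw [if_neg (by rintro rfl; exact absurd h (lt_irrefl _)),
        if_neg (by rintro rfl; exact absurd h (lt_irrefl _))]
      linarith
  refine (Finset.sum_le_sum fun p _ => h1 p).trans (le_of_eq ?_)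
  rw [Finset.sum_add_distrib, Finset.sum_add_distrib, ← Finset.sum_mul]
  simp

theorem drift_low (hJ : ∀ i, 0 < J i) {U D : Ix M → ℝ} {n : Ix M → ℕ}
    (hU : ∀ p, 0 ≤ U p) (hD : ∀ p, 0 ≤ D p) (hUD : ∀ p, U p + D p ≤ 4800 * J p.1)
    (hin : ∀ p, n p < 150 * J p.1 → U p = 4800 * J p.1 - n p ∧ D p = n p)
    (hk : n p0 < 16 * J p0.1) :
    ∑ p, Lp J U D (ff J p0) n p ≤ gg (J p0.1) (n p0) *
      ((1 - G1 J n p0.1) * (96.9648 * J p0.1 - 48.99 * n p0) + 480000 * J p0.1 * G1 J n p0.1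
        + EE' J p0) := by
  have hg := gg_pos (J p0.1) (n p0)
  have hJ0 : (0:ℝ) < J p0.1 := by exact_mod_cast hJ p0.1
  have hn0 : (0:ℝ) ≤ n p0 := Nat.cast_nonneg _
  rw [Finset.sum_congr rfl fun p _ => Lp_ff U D n p, Finset.sum_add_distrib, Finset.sum_comm]
  have h1 : ∑ p, Lp J U D (fun n => gg (J p0.1) (n p0)) n p =
      Lp J U D (fun n => gg (J p0.1) (n p0)) n p0 :=
    Finset.sum_eq_single p0 (fun p _ hp => Lp_g_ne U D n hp) (by simp)
  rw [h1]
  have h2 := Lp_g_low hJ (hin p0) hk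
  have h3 := Finset.sum_le_sum fun i (hi : i ∈ Finset.Iio p0.1) =>
    sum_T1 (J := J) (p0 := p0) (n := n) hJ hU hD hUD hin (Finset.mem_Iio.mp hi)
  refine (add_le_add h2 h3).trans ?_
  rw [Finset.sum_add_distrib, ← Finset.sum_mul]
  have h4 : gg (J p0.1) (n p0) * (∑ i ∈ Finset.Iio p0.1, nu J n p0.1 i * (48 * J p0.1 +
        480000 * J p0.1 * (sg n (i, false) * sg n (i, true)) -
        50 * n p0 * (1 - (sg n (i, false) + sg n (i, true))))) +
      ∑ i ∈ Finset.Iio p0.1, (mainp J p0 n i false + mainp J p0 n i true) ≤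
      gg (J p0.1) (n p0) * ((1 - G1 J n p0.1) * (96.9648 * J p0.1 - 48.99 * n p0)) := by
    rw [← sum_nu hJ n p0.1, Finset.sum_mul, Finset.mul_sum, Finset.mul_sum, ← Finset.sum_add_distrib]
    refine Finset.sum_le_sum fun i _ => ?_
    have hnu := nu_nonneg (J := J) n p0.1 i
    have hXe : XX (J p0.1) (n p0) = (n p0 : ℝ) / 2 + 24.24 * J p0.1 := by
      unfold XX; rw [if_pos hk]
    have hYe : YY (J p0.1) (n p0) = 2400 * (J p0.1 : ℝ) := by
      unfold YY; rw [if_pos hk]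
    unfold mainp
    rw [hXe, hYe]
    simp only [Bool.not_false, Bool.not_true]
    have key : (48 * (J p0.1 : ℝ) +
        480000 * J p0.1 * (sg n (i, false) * sg n (i, true)) -
        50 * n p0 * (1 - (sg n (i, false) + sg n (i, true)))) +
        (((n p0 : ℝ) / 2 + 24.24 * J p0.1 + 2400 * J p0.1 * sg n (i, true)) *
          (1.01 - 100.01 * sg n (i, false))) +
        (((n p0 : ℝ) / 2 + 24.24 * J p0.1 + 2400 * J p0.1 * sg n (i, false)) *
          (1.01 - 100.01 * sg n (i, true))) ≤ 96.9648 * J p0.1 - 48.99 * n p0 := by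
      rcases sg_cases n (i, false) with a | a <;> rcases sg_cases n (i, true) with b | b <;>
        rw [a, b] <;> nlinarith
    have := mul_le_mul_of_nonneg_left key (mul_nonneg hnu hg.le)
    linarith
  unfold EE'
  nlinarith [h4]

theorem drift_high (hJ : ∀ i, 0 < J i) {U D : Ix M → ℝ} {n : Ix M → ℕ}
    (hU : ∀ p, 0 ≤ U p) (hD : ∀ p, 0 ≤ D p) (hUD : ∀ p, U p + D p ≤ 4800 * J p.1)
    (hin : ∀ p, n p < 150 * J p.1 → U p = 4800 * J p.1 - n p ∧ D p = n p)
    (hk : 16 * J p0.1 ≤ n p0) :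
    ∑ p, Lp J U D (ff J p0) n p ≤ gg (J p0.1) (n p0) * EE' J p0 := by
  rw [Finset.sum_congr rfl fun p _ => Lp_ff U D n p, Finset.sum_add_distrib, Finset.sum_comm]
  have h1 : ∑ p, Lp J U D (fun n => gg (J p0.1) (n p0)) n p =
      Lp J U D (fun n => gg (J p0.1) (n p0)) n p0 :=
    Finset.sum_eq_single p0 (fun p _ hp => Lp_g_ne U D n hp) (by simp)
  rw [h1]
  have h2 := Lp_g_high (J := J) (U := U) hJ (hD p0) hk
  have h3 := Finset.sum_le_sum fun i (hi : i ∈ Finset.Iio p0.1) =>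
    sum_T1 (J := J) (p0 := p0) (n := n) hJ hU hD hUD hin (Finset.mem_Iio.mp hi)
  refine (add_le_add h2 h3).trans ?_
  rw [Finset.sum_add_distrib, ← Finset.sum_mul]
  have h4 : ∑ i ∈ Finset.Iio p0.1, (mainp J p0 n i false + mainp J p0 n i true) = 0 := by
    refine Finset.sum_eq_zero fun i _ => ?_
    unfold mainp XX YY
    rw [if_neg (not_lt.mpr hk), if_neg (not_lt.mpr hk)]
    ring
  rw [h4]
  unfold EE'
  linarith [mul_comm (gg (J p0.1) (n p0)) (∑ i ∈ Finset.Iio p0.1, ∑ p, ee J p0 i p)]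

/-- crude growth bound -/
theorem drift_crude (hJ : ∀ i, 0 < J i) {U D : Ix M → ℝ} {n : Ix M → ℕ}
    (hU : ∀ p, 0 ≤ U p) (hD : ∀ p, 0 ≤ D p) (hUD : ∀ p, U p + D p ≤ 4800 * J p.1)
    (hin : ∀ p, n p < 150 * J p.1 → U p = 4800 * J p.1 - n p ∧ D p = n p) :
    ∑ p, Lp J U D (ff J p0) n p ≤ (480000 * J p0.1 + EE' J p0) * gg (J p0.1) (n p0) := by
  have hg := gg_pos (J p0.1) (n p0)
  have hJ0 : (0:ℝ) < J p0.1 := by exact_mod_cast hJ p0.1
  have hn0 : (0:ℝ) ≤ n p0 := Nat.cast_nonneg _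
  have hG0 := G1_nonneg (J := J) n p0.1
  have hG1 := G1_le (J := J) n p0.1
  by_cases hk : n p0 < 16 * J p0.1
  · refine (drift_low hJ hU hD hUD hin hk).trans ?_
    rw [mul_comm]
    refine mul_le_mul_of_nonneg_right ?_ hg.le
    have h1 : (1 - G1 J n p0.1) * (96.9648 * J p0.1 - 48.99 * n p0) ≤
        (1 - G1 J n p0.1) * (480000 * J p0.1) :=
      mul_le_mul_of_nonneg_left (by linarith) (by linarith)
    linarith
  · refine (drift_high hJ hU hD hUD hin (not_lt.mp hk)).trans ?_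
    rw [mul_comm]
    refine mul_le_mul_of_nonneg_right ?_ hg.le
    linarith

/-- controlled drift bound -/
theorem drift_ctrl (hJ : ∀ i, 0 < J i) {U D : Ix M → ℝ} {n : Ix M → ℕ}
    (hU : ∀ p, 0 ≤ U p) (hD : ∀ p, 0 ≤ D p) (hUD : ∀ p, U p + D p ≤ 4800 * J p.1)
    (hin : ∀ p, n p < 150 * J p.1 → U p = 4800 * J p.1 - n p ∧ D p = n p) :
    ∑ p, Lp J U D (ff J p0) n p ≤ 97 * J p0.1 * 2 ^ (2 * J p0.1) +
      480000 * J p0.1 * 2 ^ (16 * J p0.1) * G1 J n p0.1 + EE' J p0 * gg (J p0.1) (n p0) := by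
  have hg := gg_pos (J p0.1) (n p0)
  have hJ0 : (0:ℝ) < J p0.1 := by exact_mod_cast hJ p0.1
  have hn0 : (0:ℝ) ≤ n p0 := Nat.cast_nonneg _
  have hG0 := G1_nonneg (J := J) n p0.1
  have hG1 := G1_le (J := J) n p0.1
  have hE := EE'_nonneg (J := J) (p0 := p0)
  have hg16 : gg (J p0.1) (n p0) ≤ 2 ^ (16 * J p0.1) := by
    unfold gg; exact pow_le_pow_right₀ (by norm_num) (by omega)
  by_cases hk : n p0 < 16 * J p0.1
  · refine (drift_low hJ hU hD hUD hin hk).trans ?_
    have h1 : gg (J p0.1) (n p0) * ((1 - G1 J n p0.1) * (96.9648 * J p0.1 - 48.99 * n p0)) ≤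
        97 * J p0.1 * 2 ^ (2 * J p0.1) := by
      by_cases h2 : n p0 < 2 * J p0.1
      · have hg2 : gg (J p0.1) (n p0) ≤ 2 ^ (2 * J p0.1) := by
          unfold gg; exact pow_le_pow_right₀ (by norm_num) (by omega)
        have h3 : (1 - G1 J n p0.1) * (96.9648 * J p0.1 - 48.99 * n p0) ≤ 97 * J p0.1 := by
          nlinarith
        calc _ ≤ gg (J p0.1) (n p0) * (97 * J p0.1) := mul_le_mul_of_nonneg_left h3 hg.le
          _ ≤ 2 ^ (2 * J p0.1) * (97 * J p0.1) := mul_le_mul_of_nonneg_right hg2 (by positivity)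
          _ = _ := by ring
      · have h2' : (2 * J p0.1 : ℝ) ≤ n p0 := by exact_mod_cast not_lt.mp h2
        have h3 : (1 - G1 J n p0.1) * (96.9648 * J p0.1 - 48.99 * n p0) ≤ 0 :=
          mul_nonpos_of_nonneg_of_nonpos (by linarith) (by linarith)
        have h4 := mul_nonpos_of_nonneg_of_nonpos hg.le h3
        have h5 : (0:ℝ) ≤ 97 * J p0.1 * 2 ^ (2 * J p0.1) := by positivity
        linarith
    have h2 : gg (J p0.1) (n p0) * (480000 * J p0.1 * G1 J n p0.1) ≤
        480000 * J p0.1 * 2 ^ (16 * J p0.1) * G1 J n p0.1 := by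
      have := mul_le_mul_of_nonneg_right hg16 (show 0 ≤ 480000 * J p0.1 * G1 J n p0.1 by positivity)
      linarith
    linarith
  · refine (drift_high hJ hU hD hUD hin (not_lt.mp hk)).trans ?_
    have h5 : (0:ℝ) ≤ 97 * J p0.1 * 2 ^ (2 * J p0.1) := by positivity
    have h6 : (0:ℝ) ≤ 480000 * J p0.1 * 2 ^ (16 * J p0.1) * G1 J n p0.1 := by positivity
    linarith

end
end Pool.H521RB
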