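import Pool.Agent.H521R4.RB.Defs

/-!
# Capped word length (TASK B, by helper510)
-/

set_option autoImplicit false
open Classical

namespace Pool.H521RB

section B
variable {n : ℕ} (C : Code n) (L : ℕ)

theorem dbl (v : AA n) : v + v = 0 := by
  funext j
  exact CharTwo.add_self_eq_zero (v j)

theorem sum_symmDiff (S T : Finset (EE n)) :
    ∑ i ∈ symmDiff S T, C.h i = ∑ i ∈ S, C.h i + ∑ i ∈ T, C.h i := by
  have h1 : ∑ i ∈ symmDiff S T, C.h i = ∑ i ∈ S \ T, C.h i + ∑ i ∈ T \ S, C.h i := by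
    rw [symmDiff_def, Finset.sup_eq_union, Finset.sum_union disjoint_sdiff_sdiff]
  have h2 := Finset.sum_inter_add_sum_sdiff S T C.h
  have h3 := Finset.sum_inter_add_sum_sdiff T S C.h
  rw [Finset.inter_comm] at h3
  rw [h1, ← h2, ← h3]
  have h4 := dbl (∑ i ∈ S ∩ T, C.h i)
  calc ∑ i ∈ S \ T, C.h i + ∑ i ∈ T \ S, C.h i
      = (∑ i ∈ S ∩ T, C.h i + ∑ i ∈ S ∩ T, C.h i) +
        (∑ i ∈ S \ T, C.h i + ∑ i ∈ T \ S, C.h i) := by rw [h4, zero_add]
    _ = _ := by abel

theorem rep_unique (S T : Finset (EE n)) (h : ∑ i ∈ S, C.h i = ∑ i ∈ T, C.h i)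
    (hc : S.card + T.card ≤ n) : S = T := by
  by_contra hne
  have h1 : (symmDiff S T).Nonempty := by
    rw [Finset.nonempty_iff_ne_empty, Ne, ← Finset.bot_eq_empty, symmDiff_eq_bot]
    exact hne
  have h2 : (symmDiff S T).card ≤ n := by
    refine le_trans ?_ hc
    refine (Finset.card_le_card ?_).trans (Finset.card_union_le S T)
    exact symmDiff_le_sup
  apply C.dist _ h1 h2
  rw [sum_symmDiff, h, dbl]

theorem lev_le (x : AA n) : lev C L x ≤ L := Nat.sInf_le (Or.inl rfl)

theorem lev_le_card (x : AA n) (S : Finset (EE n)) (h : ∑ i ∈ S, C.h i = x) :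
    lev C L x ≤ S.card := Nat.sInf_le (Or.inr ⟨S, rfl, h⟩)

theorem lev_zero : lev C L 0 = 0 := by
  have h := lev_le_card C L 0 ∅ (by simp)
  simpa using h

theorem lev_rep (x : AA n) (h : lev C L x < L) :
    ∃ S : Finset (EE n), S.card = lev C L x ∧ ∑ i ∈ S, C.h i = x := by
  have h1 : lev C L x ∈ ({L} ∪ {j | ∃ S : Finset (EE n), S.card = j ∧ ∑ i ∈ S, C.h i = x} : Set ℕ) :=
    Nat.sInf_mem ⟨L, Or.inl rfl⟩
  rcases h1 with h1 | h1
  · rw [Set.mem_singleton_iff] at h1
    omega
  · exact h1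

theorem add_add (x y : AA n) : x + y + y = x := by
  rw [add_assoc, dbl, add_zero]

theorem sum_erase' (S : Finset (EE n)) (e : EE n) (he : e ∈ S) :
    ∑ i ∈ S.erase e, C.h i = ∑ i ∈ S, C.h i + C.h e := by
  rw [← Finset.sum_erase_add S _ he, add_add]

theorem sum_insert' (S : Finset (EE n)) (e : EE n) (he : e ∉ S) :
    ∑ i ∈ insert e S, C.h i = ∑ i ∈ S, C.h i + C.h e := by
  rw [Finset.sum_insert he, add_comm]

theorem lev_char (hL : 2 * L ≤ n) (x : AA n) (hx : lev C L x < L) :
    ∃ S : Finset (EE n), S.card = lev C L x ∧ ∀ e,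
      (e ∈ S → lev C L (x + C.h e) + 1 = lev C L x) ∧
      (e ∉ S → lev C L (x + C.h e) = lev C L x + 1) := by
  obtain ⟨S, hS, hSx⟩ := lev_rep C L x hx
  refine ⟨S, hS, fun e => ⟨fun he => ?_, fun he => ?_⟩⟩
  · have h1 := lev_le_card C L (x + C.h e) (S.erase e) (by rw [sum_erase' C S e he, hSx])
    rw [Finset.card_erase_of_mem he, hS] at h1
    have hpos : 0 < S.card := Finset.card_pos.2 ⟨e, he⟩
    by_contra hne
    have h2 : lev C L (x + C.h e) < L := by omega
    obtain ⟨T, hT, hTx⟩ := lev_rep C L _ h2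
    by_cases heT : e ∈ T
    · have h3 := lev_le_card C L x (T.erase e) (by rw [sum_erase' C T e heT, hTx, add_add])
      rw [Finset.card_erase_of_mem heT] at h3
      omega
    · have h3 := lev_le_card C L x (insert e T) (by rw [sum_insert' C T e heT, hTx, add_add])
      rw [Finset.card_insert_of_notMem heT] at h3
      omega
  · have h1 := lev_le_card C L (x + C.h e) (insert e S) (by rw [sum_insert' C S e he, hSx])
    rw [Finset.card_insert_of_notMem he, hS] at h1
    by_contra hne
    have h2 : lev C L (x + C.h e) < L := by omega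
    obtain ⟨T, hT, hTx⟩ := lev_rep C L _ h2
    by_cases heT : e ∈ T
    · have h4 : S = T.erase e := by
        apply rep_unique C
        · rw [hSx, sum_erase' C T e heT, hTx, add_add]
        · rw [Finset.card_erase_of_mem heT]
          omega
      have h5 : T.card = S.card + 1 := by
        rw [h4, Finset.card_erase_of_mem heT]
        have : 0 < T.card := Finset.card_pos.2 ⟨e, heT⟩
        omega
      omega
    · have h4 : S = insert e T := by
        apply rep_unique C
        · rw [hSx, sum_insert' C T e heT, hTx, add_add]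
        · rw [Finset.card_insert_of_notMem heT]
          omega
      exact he (h4 ▸ Finset.mem_insert_self e T)

theorem lev_step (hL : 2 * L ≤ n) (x : AA n) (e : EE n) :
    lev C L (x + C.h e) = lev C L x + 1 ∨ lev C L (x + C.h e) + 1 = lev C L x ∨
      (lev C L (x + C.h e) = L ∧ lev C L x = L) := by
  by_cases hx : lev C L x < L
  · obtain ⟨S, -, hS⟩ := lev_char C L hL x hx
    by_cases he : e ∈ S
    · exact Or.inr (Or.inl ((hS e).1 he))
    · exact Or.inl ((hS e).2 he)
  · have hxL : lev C L x = L := le_antisymm (lev_le C L x) (not_lt.1 hx)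
    by_cases hy : lev C L (x + C.h e) < L
    · obtain ⟨S, -, hS⟩ := lev_char C L hL (x + C.h e) hy
      have h := hS e
      rw [add_add] at h
      by_cases he : e ∈ S
      · exact Or.inl (h.1 he).symm
      · exact Or.inr (Or.inl (h.2 he).symm)
    · exact Or.inr (Or.inr ⟨le_antisymm (lev_le C L _) (not_lt.1 hy), hxL⟩)

theorem card_up (hL : 2 * L ≤ n) (x : AA n) (hx : lev C L x < L) :
    (Finset.univ.filter (fun e => lev C L (x + C.h e) = lev C L x + 1)).card = 16 * n - lev C L x := by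
  obtain ⟨S, hSc, hS⟩ := lev_char C L hL x hx
  have h : Finset.univ.filter (fun e => lev C L (x + C.h e) = lev C L x + 1) = Sᶜ := by
    ext e
    rw [Finset.mem_filter, Finset.mem_compl]
    constructor
    · rintro ⟨-, h⟩ he
      have := (hS e).1 he
      omega
    · intro he
      exact ⟨Finset.mem_univ _, (hS e).2 he⟩
  rw [h, Finset.card_compl, Fintype.card_fin, hSc]

theorem card_down (hL : 2 * L ≤ n) (x : AA n) (hx : lev C L x < L) :
    (Finset.univ.filter (fun e => lev C L (x + C.h e) + 1 = lev C L x)).card = lev C L x := by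
  obtain ⟨S, hSc, hS⟩ := lev_char C L hL x hx
  have h : Finset.univ.filter (fun e => lev C L (x + C.h e) + 1 = lev C L x) = S := by
    ext e
    rw [Finset.mem_filter]
    constructor
    · rintro ⟨-, h⟩
      by_contra he
      have := (hS e).2 he
      omega
    · intro he
      exact ⟨Finset.mem_univ _, (hS e).1 he⟩
  rw [h, hSc]

theorem vol_bound (n a : ℕ) (hn : 1 ≤ n) (ha : 2 * a ≤ n) :
    10 * ∑ j ∈ Finset.range a, (16 * n).choose j ≤ 2 ^ (8 * n) := by
  have h1 : 8 ^ (16 * n) * ∑ j ∈ Finset.range a, (16 * n).choose j ≤ 8 ^ a * 9 ^ (16 * n) := by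
    have h2 : (9 : ℕ) ^ (16 * n) =
        ∑ j ∈ Finset.range (16 * n + 1), 8 ^ (16 * n - j) * (16 * n).choose j := by
      have := add_pow 1 8 (16 * n)
      simpa using this
    rw [h2, Finset.mul_sum, Finset.mul_sum]
    calc ∑ j ∈ Finset.range a, 8 ^ (16 * n) * (16 * n).choose j
        ≤ ∑ j ∈ Finset.range a, 8 ^ a * (8 ^ (16 * n - j) * (16 * n).choose j) := by
          apply Finset.sum_le_sum
          intro j hj
          rw [Finset.mem_range] at hj
          rw [← mul_assoc, ← pow_add]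
          exact Nat.mul_le_mul_right _ (Nat.pow_le_pow_right (by norm_num) (by omega))
      _ ≤ _ := by
          apply Finset.sum_le_sum_of_subset
          intro j hj
          rw [Finset.mem_range] at hj ⊢
          omega
  have h3 : (10 * (8 ^ a * 9 ^ (16 * n))) ^ 2 ≤ ((8 : ℕ) ^ (16 * n) * 2 ^ (8 * n)) ^ 2 := by
    have e1 : (10 * (8 ^ a * 9 ^ (16 * n))) ^ 2 = 100 * (8 ^ (2 * a) * (81 ^ 16) ^ n) := by
      have : (81 : ℕ) = 9 ^ 2 := by norm_num
      rw [this, ← pow_mul, ← pow_mul]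
      ring
    have e2 : ((8 : ℕ) ^ (16 * n) * 2 ^ (8 * n)) ^ 2 = (2 ^ 112) ^ n := by
      have : (8 : ℕ) = 2 ^ 3 := by norm_num
      rw [this, ← pow_mul, ← pow_mul]
      ring
    rw [e1, e2]
    calc 100 * (8 ^ (2 * a) * (81 ^ 16) ^ n) ≤ 100 ^ n * (8 ^ n * (81 ^ 16) ^ n) := by
          apply Nat.mul_le_mul
          · calc 100 = 100 ^ 1 := by norm_num
              _ ≤ 100 ^ n := Nat.pow_le_pow_right (by norm_num) hn
          · exact Nat.mul_le_mul_right _ (Nat.pow_le_pow_right (by norm_num) ha)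
      _ = (100 * (8 * 81 ^ 16)) ^ n := by rw [mul_pow, mul_pow]
      _ ≤ (2 ^ 112) ^ n := Nat.pow_le_pow_left (by norm_num) n
  have h4 : 10 * (8 ^ a * 9 ^ (16 * n)) ≤ (8 : ℕ) ^ (16 * n) * 2 ^ (8 * n) :=
    (Nat.pow_le_pow_iff_left (by norm_num)).1 h3
  have h5 : 8 ^ (16 * n) * (10 * ∑ j ∈ Finset.range a, (16 * n).choose j) ≤
      8 ^ (16 * n) * 2 ^ (8 * n) := by
    calc 8 ^ (16 * n) * (10 * ∑ j ∈ Finset.range a, (16 * n).choose j)
        = 10 * (8 ^ (16 * n) * ∑ j ∈ Finset.range a, (16 * n).choose j) := by ring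
      _ ≤ 10 * (8 ^ a * 9 ^ (16 * n)) := Nat.mul_le_mul_left _ h1
      _ ≤ _ := h4
  exact Nat.le_of_mul_le_mul_left h5 (by positivity)

theorem ball_small (hL : 2 * L ≤ n) (hn : 2 ≤ n) (a : ℕ) (ha : a ≤ L) :
    10 * (Finset.univ.filter (fun x : AA n => lev C L x < a)).card ≤ 2 ^ (8 * n) := by
  refine le_trans (Nat.mul_le_mul_left 10 ?_) (vol_bound n a (by omega) (by omega))
  have h1 : Finset.univ.filter (fun x : AA n => lev C L x < a) ⊆
      (Finset.univ.filter (fun S : Finset (EE n) => S.card < a)).image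
        (fun S => ∑ i ∈ S, C.h i) := by
    intro x hx
    rw [Finset.mem_filter] at hx
    obtain ⟨S, hS, hSx⟩ := lev_rep C L x (by omega)
    rw [Finset.mem_image]
    exact ⟨S, Finset.mem_filter.2 ⟨Finset.mem_univ _, by omega⟩, hSx⟩
  refine (Finset.card_le_card h1).trans (Finset.card_image_le.trans ?_)
  have h2 : Finset.univ.filter (fun S : Finset (EE n) => S.card < a) =
      (Finset.range a).biUnion (fun j => Finset.powersetCard j Finset.univ) := by
    ext S
    simp [Finset.mem_powersetCard]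
  rw [h2]
  refine Finset.card_biUnion_le.trans ?_
  apply Finset.sum_le_sum
  intro j _
  rw [Finset.card_powersetCard, Finset.card_univ, Fintype.card_fin]

end B

end Pool.H521RB
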