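import Pool.Agent.H521R4.RB.Core4
import Pool.Agent.H521R4.RB.Lev

/-!
# The perturbed walk: generator in terms of level vectors, expectation recursion
-/

set_option autoImplicit false
open Classical

namespace Pool.H521RB

section
variable {M : ℕ} (J : Fin M → ℕ) (C : ∀ p : Ix M, Code (300 * J p.1))

/-- level vector -/
noncomputable def lv (x : GG (fun p : Ix M => 300 * J p.1)) : Ix M → ℕ :=
  fun p => lev (C p) (150 * J p.1) (x p)

/-- the perturbed weights of generator edges -/
noncomputable def we (e : EG (fun p : Ix M => 300 * J p.1))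
    (x : GG (fun p : Ix M => 300 * J p.1)) : ℝ :=
  if lev (C e.1) (150 * J e.1.1) (x e.1 + (C e.1).h e.2) = lv J C x e.1 then 1 else
    om J (Function.update (lv J C x) e.1
      (max (lev (C e.1) (150 * J e.1.1) (x e.1 + (C e.1).h e.2)) (lv J C x e.1))) e.1

variable {J C}

theorem lv_add (e : EG (fun p : Ix M => 300 * J p.1)) (x : GG (fun p : Ix M => 300 * J p.1)) :
    lv J C (x + hh C e) = Function.update (lv J C x) e.1
      (lev (C e.1) (150 * J e.1.1) (x e.1 + (C e.1).h e.2)) := by
  funext p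
  unfold lv hh
  by_cases hp : p = e.1
  · subst hp
    rw [Function.update_self, Pi.add_apply, Pi.single_eq_same]
  · rw [Function.update_of_ne hp, Pi.add_apply, Pi.single_eq_of_ne hp, add_zero]

theorem lv_zero : lv J C 0 = fun _ => 0 := by
  funext p
  exact lev_zero _ _

theorem we_symm (e : EG (fun p : Ix M => 300 * J p.1)) (x : GG (fun p : Ix M => 300 * J p.1)) :
    we J C e (x + hh C e) = we J C e x := by
  have h1 : (x + hh C e) e.1 = x e.1 + (C e.1).h e.2 := by
    unfold hh; rw [Pi.add_apply, Pi.single_eq_same]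
  have h2 : (x + hh C e) e.1 + (C e.1).h e.2 = x e.1 := by
    rw [h1, add_assoc, dbl, add_zero]
  unfold we
  rw [h2, lv_add, Function.update_self, Function.update_idem]
  have h3 : lev (C e.1) (150 * J e.1.1) (x e.1) = lv J C x e.1 := rfl
  rw [h3, max_comm]
  by_cases h : lv J C x e.1 = lev (C e.1) (150 * J e.1.1) (x e.1 + (C e.1).h e.2)
  · rw [if_pos h, if_pos h.symm]
  · rw [if_neg h, if_neg (Ne.symm h)]

theorem we_bd (hJ : ∀ i, 0 < J i) (e : EG (fun p : Ix M => 300 * J p.1))
    (x : GG (fun p : Ix M => 300 * J p.1)) :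
    (100:ℝ)⁻¹ ≤ we J C e x ∧ we J C e x ≤ 100 := by
  unfold we
  split_ifs
  · norm_num
  · have := om_bd hJ (Function.update (lv J C x) e.1
      (max (lev (C e.1) (150 * J e.1.1) (x e.1 + (C e.1).h e.2)) (lv J C x e.1))) e.1
    refine ⟨?_, this.2⟩
    rw [← one_div]; exact this.1

variable (J C) in
/-- number of up generators -/
noncomputable def Un (x : GG (fun p : Ix M => 300 * J p.1)) (p : Ix M) : ℝ :=
  ((Finset.univ.filter (fun l => lev (C p) (150 * J p.1) (x p + (C p).h l) =
    lev (C p) (150 * J p.1) (x p) + 1)).card : ℝ)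

variable (J C) in
/-- number of down generators -/
noncomputable def Dn (x : GG (fun p : Ix M => 300 * J p.1)) (p : Ix M) : ℝ :=
  ((Finset.univ.filter (fun l => lev (C p) (150 * J p.1) (x p + (C p).h l) + 1 =
    lev (C p) (150 * J p.1) (x p))).card : ℝ)

theorem Un_nonneg (x : GG (fun p : Ix M => 300 * J p.1)) (p : Ix M) : 0 ≤ Un J C x p :=
  Nat.cast_nonneg _
theorem Dn_nonneg (x : GG (fun p : Ix M => 300 * J p.1)) (p : Ix M) : 0 ≤ Dn J C x p :=
  Nat.cast_nonneg _

theorem UD_le (x : GG (fun p : Ix M => 300 * J p.1)) (p : Ix M) :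
    Un J C x p + Dn J C x p ≤ 4800 * J p.1 := by
  unfold Un Dn
  rw [← Nat.cast_add, ← Finset.card_union_of_disjoint]
  · have := Finset.card_le_univ (Finset.univ.filter (fun l => lev (C p) (150 * J p.1)
      (x p + (C p).h l) = lev (C p) (150 * J p.1) (x p) + 1) ∪
      Finset.univ.filter (fun l => lev (C p) (150 * J p.1) (x p + (C p).h l) + 1 =
        lev (C p) (150 * J p.1) (x p)))
    rw [Fintype.card_fin] at this
    calc _ ≤ ((16 * (300 * J p.1) : ℕ) : ℝ) := by exact_mod_cast this
      _ = _ := by push_cast; ring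
  · rw [Finset.disjoint_filter]
    intro l _ h; omega

theorem UD_in (x : GG (fun p : Ix M => 300 * J p.1)) (p : Ix M)
    (h : lv J C x p < 150 * J p.1) :
    Un J C x p = 4800 * J p.1 - lv J C x p ∧ Dn J C x p = lv J C x p := by
  have hL : 2 * (150 * J p.1) ≤ 300 * J p.1 := by omega
  have h1 := card_up (C p) (150 * J p.1) hL (x p) h
  have h2 := card_down (C p) (150 * J p.1) hL (x p) h
  unfold lv at h ⊢
  unfold Un Dn
  rw [h1, h2]
  refine ⟨?_, rfl⟩
  rw [Nat.cast_sub (by omega)]
  push_cast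
  ring

/-- the generator on functions of the level vector -/
theorem gen_eq (f : (Ix M → ℕ) → ℝ) (x : GG (fun p : Ix M => 300 * J p.1)) :
    ∑ e : EG (fun p : Ix M => 300 * J p.1), we J C e x * (f (lv J C (x + hh C e)) - f (lv J C x)) =
      ∑ p, Lp J (Un J C x) (Dn J C x) f (lv J C x) p := by
  rw [Fintype.sum_sigma]
  refine Finset.sum_congr rfl fun p _ => ?_
  have hL : 2 * (150 * J p.1) ≤ 300 * J p.1 := by omega
  unfold Lp Un Dn
  rw [mul_assoc, mul_assoc, ← nsmul_eq_mul, ← nsmul_eq_mul, ← Finset.sum_const, ← Finset.sum_const,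
    Finset.sum_filter, Finset.sum_filter, ← Finset.sum_add_distrib]
  refine Finset.sum_congr rfl fun l _ => ?_
  rw [lv_add]
  unfold we
  simp only
  have hlv : lv J C x p = lev (C p) (150 * J p.1) (x p) := rfl
  rcases lev_step (C p) (150 * J p.1) hL (x p) l with h | h | ⟨h, h'⟩
  · rw [if_pos h, if_neg (show ¬ (lev (C p) (150 * J p.1) (x p + (C p).h l) + 1 =
      lev (C p) (150 * J p.1) (x p)) by omega), add_zero, if_neg (by rw [hlv]; omega)]
    rw [show max (lev (C p) (150 * J p.1) (x p + (C p).h l)) (lv J C x p) = lv J C x p + 1 by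
      rw [hlv]; omega, show lev (C p) (150 * J p.1) (x p + (C p).h l) = lv J C x p + 1 by
      rw [hlv]; omega]
  · rw [if_pos h, if_neg (show ¬ (lev (C p) (150 * J p.1) (x p + (C p).h l) =
      lev (C p) (150 * J p.1) (x p) + 1) by omega), zero_add, if_neg (by rw [hlv]; omega)]
    rw [show max (lev (C p) (150 * J p.1) (x p + (C p).h l)) (lv J C x p) = lv J C x p by
      rw [hlv]; omega, Function.update_eq_self,
      show lev (C p) (150 * J p.1) (x p + (C p).h l) = lv J C x p - 1 by
      rw [hlv]; omega]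
  · rw [if_pos (show lev (C p) (150 * J p.1) (x p + (C p).h l) = lv J C x p by rw [hlv]; omega),
      if_neg (show ¬ (lev (C p) (150 * J p.1) (x p + (C p).h l) =
        lev (C p) (150 * J p.1) (x p) + 1) by omega),
      if_neg (show ¬ (lev (C p) (150 * J p.1) (x p + (C p).h l) + 1 =
      lev (C p) (150 * J p.1) (x p)) by omega)]
    rw [show lev (C p) (150 * J p.1) (x p + (C p).h l) = lv J C x p by rw [hlv]; omega,
      Function.update_eq_self]
    ring

/-! ### expectation functional -/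

variable (J C) in
noncomputable def Ex (q t : ℕ) (F : GG (fun p : Ix M => 300 * J p.1) → ℝ) : ℝ :=
  ((TT C q (we J C))^[t] F) 0

theorem TT_add (q : ℕ) (w : EG (fun p : Ix M => 300 * J p.1) → GG (fun p : Ix M => 300 * J p.1) → ℝ)
    (F G : GG (fun p : Ix M => 300 * J p.1) → ℝ) :
    TT C q w (fun x => F x + G x) = fun x => TT C q w F x + TT C q w G x := by
  funext x
  unfold TT
  have : ∀ e, w e x * (F (x + hh C e) + G (x + hh C e) - (F x + G x)) =
      w e x * (F (x + hh C e) - F x) + w e x * (G (x + hh C e) - G x) := fun e => by ring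
  rw [Finset.sum_congr rfl fun e _ => this e, Finset.sum_add_distrib]
  ring

theorem TT_smul (q : ℕ) (w : EG (fun p : Ix M => 300 * J p.1) → GG (fun p : Ix M => 300 * J p.1) → ℝ)
    (c : ℝ) (F : GG (fun p : Ix M => 300 * J p.1) → ℝ) :
    TT C q w (fun x => c * F x) = fun x => c * TT C q w F x := by
  funext x
  unfold TT
  have : ∀ e, w e x * (c * F (x + hh C e) - c * F x) = c * (w e x * (F (x + hh C e) - F x)) :=
    fun e => by ring
  rw [Finset.sum_congr rfl fun e _ => this e, ← Finset.mul_sum]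
  ring

theorem TT_const (q : ℕ) (w : EG (fun p : Ix M => 300 * J p.1) → GG (fun p : Ix M => 300 * J p.1) → ℝ)
    (c : ℝ) : TT C q w (fun _ => c) = fun _ => c := by
  funext x
  unfold TT; simp

theorem TT_mono (q : ℕ) (w : EG (fun p : Ix M => 300 * J p.1) → GG (fun p : Ix M => 300 * J p.1) → ℝ)
    (hw : ∀ e x, 0 ≤ w e x) (hw2 : ∀ x, ∑ e, w e x ≤ 2 * (DD (fun p : Ix M => 300 * J p.1) q : ℝ))
    (hD : 0 < (DD (fun p : Ix M => 300 * J p.1) q : ℝ))
    {F G : GG (fun p : Ix M => 300 * J p.1) → ℝ} (h : ∀ x, F x ≤ G x) (x) :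
    TT C q w F x ≤ TT C q w G x := by
  unfold TT
  simp only [mul_sub, Finset.sum_sub_distrib, ← Finset.sum_mul]
  have h1 : ∑ e, w e x * F (x + hh C e) ≤ ∑ e, w e x * G (x + hh C e) :=
    Finset.sum_le_sum fun e _ => mul_le_mul_of_nonneg_left (h _) (hw e x)
  have h2 : 0 ≤ 1 - (1 / (2 * (DD (fun p : Ix M => 300 * J p.1) q : ℝ))) * ∑ e, w e x := by
    have : (1 / (2 * (DD (fun p : Ix M => 300 * J p.1) q : ℝ))) * ∑ e, w e x ≤ 1 := by
      rw [one_div, inv_mul_le_iff₀ (by positivity), mul_one]; exact hw2 x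
    linarith
  have h3 := mul_le_mul_of_nonneg_left (h x) h2
  have h4 := mul_le_mul_of_nonneg_left h1
    (show 0 ≤ 1 / (2 * (DD (fun p : Ix M => 300 * J p.1) q : ℝ)) by positivity)
  linarith

end
end Pool.H521RB
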