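import Pool.Agent.H521R4.RB.Core5

/-!
# Expectation recursion and the multi-scale induction
-/

set_option autoImplicit false
open Classical

namespace Pool.H521RB

section
variable {M : ℕ} {J : Fin M → ℕ} {C : ∀ p : Ix M, Code (300 * J p.1)} {q : ℕ}

theorem Ex_succ (t : ℕ) (F : GG (fun p : Ix M => 300 * J p.1) → ℝ) :
    Ex J C q (t + 1) F = Ex J C q t (TT C q (we J C) F) := by
  unfold Ex; rw [Function.iterate_succ_apply]

theorem Ex_zero (F : GG (fun p : Ix M => 300 * J p.1) → ℝ) : Ex J C q 0 F = F 0 := rfl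

theorem Ex_add (t : ℕ) (F G : GG (fun p : Ix M => 300 * J p.1) → ℝ) :
    Ex J C q t (fun x => F x + G x) = Ex J C q t F + Ex J C q t G := by
  induction t generalizing F G with
  | zero => rfl
  | succ t ih => rw [Ex_succ, TT_add, ih, Ex_succ, Ex_succ]

theorem Ex_smul (t : ℕ) (c : ℝ) (F : GG (fun p : Ix M => 300 * J p.1) → ℝ) :
    Ex J C q t (fun x => c * F x) = c * Ex J C q t F := by
  induction t generalizing F with
  | zero => rfl
  | succ t ih => rw [Ex_succ, TT_smul, ih, Ex_succ]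

theorem Ex_const (t : ℕ) (c : ℝ) : Ex J C q t (fun _ => c) = c := by
  induction t with
  | zero => rfl
  | succ t ih => rw [Ex_succ, TT_const, ih]

/-- standing assumptions on the size of `q` -/
def Big (J : Fin M → ℕ) (q : ℕ) : Prop :=
  0 < (DD (fun p : Ix M => 300 * J p.1) q : ℝ) ∧
  50 * (Fintype.card (EG (fun p : Ix M => 300 * J p.1)) : ℝ) ≤ DD (fun p : Ix M => 300 * J p.1) q ∧
  ∀ i, 500000 * (J i : ℝ) ≤ DD (fun p : Ix M => 300 * J p.1) q

theorem Ex_mono (hJ : ∀ i, 0 < J i) (hB : Big J q) (t : ℕ)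
    {F G : GG (fun p : Ix M => 300 * J p.1) → ℝ} (h : ∀ x, F x ≤ G x) :
    Ex J C q t F ≤ Ex J C q t G := by
  induction t generalizing F G with
  | zero => exact h 0
  | succ t ih =>
    rw [Ex_succ, Ex_succ]
    refine ih fun x => ?_
    refine TT_mono q _ (fun e x => ?_) (fun x => ?_) hB.1 h x
    · have := (we_bd (C := C) hJ e x).1
      linarith [show (0:ℝ) ≤ (100:ℝ)⁻¹ by norm_num]
    · have h1 : ∑ e, we J C e x ≤ ∑ _e : EG (fun p : Ix M => 300 * J p.1), (100:ℝ) :=
        Finset.sum_le_sum fun e _ => (we_bd hJ e x).2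
      rw [Finset.sum_const, Finset.card_univ, nsmul_eq_mul] at h1
      linarith [hB.2.1]

theorem TT_ff (f : (Ix M → ℕ) → ℝ) (x : GG (fun p : Ix M => 300 * J p.1)) :
    TT C q (we J C) (fun x => f (lv J C x)) x = f (lv J C x) +
      (1 / (2 * (DD (fun p : Ix M => 300 * J p.1) q : ℝ))) *
        ∑ p, Lp J (Un J C x) (Dn J C x) f (lv J C x) p := by
  unfold TT
  rw [gen_eq]

variable (J C q) in
/-- expectation of the corrected potential -/
noncomputable def yy (p0 : Ix M) (t : ℕ) : ℝ := Ex J C q t (fun x => ff J p0 (lv J C x))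

theorem ff_nonneg (p0 : Ix M) (n : Ix M → ℕ) : 0 ≤ ff J p0 n :=
  (gg_pos _ _).le.trans (ff_ge n)

theorem yy_nonneg (hJ : ∀ i, 0 < J i) (hB : Big J q) (p0 : Ix M) (t : ℕ) : 0 ≤ yy J C q p0 t := by
  unfold yy
  have := Ex_mono (C := C) hJ hB t (F := fun _ => 0) (G := fun x => ff J p0 (lv J C x))
    (fun x => ff_nonneg p0 _)
  rwa [Ex_const] at this

theorem yy_zero (p0 : Ix M) : yy J C q p0 0 = 1 := by
  unfold yy
  rw [Ex_zero, lv_zero]
  unfold ff
  have h1 : ∑ i ∈ Finset.Iio p0.1, T1 J p0 (fun _ => 0) i = 0 := by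
    refine Finset.sum_eq_zero fun i _ => ?_
    have : ∀ p : Ix M, sg (fun _ => 0) p = 0 := by
      intro p; unfold sg par; simp
    unfold T1 Psi
    rw [this, this]; ring
  rw [h1]
  unfold gg; simp

theorem yy_crude (hJ : ∀ i, 0 < J i) (hB : Big J q) (p0 : Ix M) (hE : EE' J p0 ≤ 1) (t : ℕ) :
    yy J C q p0 (t + 1) ≤ (1 + (480000 * J p0.1 + 1) /
      (2 * (DD (fun p : Ix M => 300 * J p.1) q : ℝ))) * yy J C q p0 t := by
  unfold yy
  rw [Ex_succ, ← Ex_smul]
  refine Ex_mono hJ hB t fun x => ?_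
  rw [TT_ff]
  have h1 := drift_crude (p0 := p0) hJ (Un_nonneg (C := C) x) (Dn_nonneg x) (UD_le x) (UD_in x)
  have h2 := ff_ge (J := J) (p0 := p0) (lv J C x)
  have h3 := gg_pos (J p0.1) (lv J C x p0)
  have h4 : (480000 * (J p0.1 : ℝ) + EE' J p0) * gg (J p0.1) (lv J C x p0) ≤
      (480000 * J p0.1 + 1) * ff J p0 (lv J C x) := by
    have hE0 := EE'_nonneg (J := J) (p0 := p0)
    refine mul_le_mul (by linarith) h2 h3.le (by positivity)
  have h5 := mul_le_mul_of_nonneg_left (h1.trans h4)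
    (show 0 ≤ 1 / (2 * (DD (fun p : Ix M => 300 * J p.1) q : ℝ)) by have := hB.1; positivity)
  have h6 : (1 + (480000 * (J p0.1 : ℝ) + 1) / (2 * (DD (fun p : Ix M => 300 * J p.1) q : ℝ))) *
      ff J p0 (lv J C x) = ff J p0 (lv J C x) + 1 / (2 * (DD (fun p : Ix M => 300 * J p.1) q : ℝ)) *
        ((480000 * J p0.1 + 1) * ff J p0 (lv J C x)) := by ring
  rw [h6]
  linarith

theorem G1_bound (hJ : ∀ i, 0 < J i) (n : Ix M → ℕ) {s i : Fin M} (hi : i < s) :
    G1 J n s ≤ (1 / 2 ^ (16 * J i)) * (ff J (i, false) n + ff J (i, true) n) := by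
  have hf1 := ff_nonneg (J := J) (i, false) n
  have hf2 := ff_nonneg (J := J) (i, true) n
  by_cases h : g1 J n i = 0
  · have : G1 J n s = 0 := Finset.prod_eq_zero (Finset.mem_Iio.mpr hi) h
    rw [this]; positivity
  · have h1 := gt_of_g1_ne_zero hJ h
    have h1' : 16 * J i < NN n i := by exact_mod_cast h1
    refine (G1_le n s).trans ?_
    rw [one_div, ← div_eq_inv_mul, le_div_iff₀ (by positivity), one_mul]
    have k1 := ff_ge (J := J) (p0 := (i, false)) n
    have k2 := ff_ge (J := J) (p0 := (i, true)) n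
    simp only at k1 k2
    unfold NN at h1'
    rcases lt_max_iff.mp h1' with h2 | h2
    · have : gg (J i) (n (i, false)) = 2 ^ (16 * J i) := by
        unfold gg; rw [min_eq_right h2.le]
      linarith
    · have : gg (J i) (n (i, true)) = 2 ^ (16 * J i) := by
        unfold gg; rw [min_eq_right h2.le]
      linarith

theorem yy_ctrl (hJ : ∀ i, 0 < J i) (hB : Big J q) (p0 : Ix M) {i : Fin M} (hi : i < p0.1) (t : ℕ) :
    yy J C q p0 (t + 1) ≤ (1 + EE' J p0 / (2 * (DD (fun p : Ix M => 300 * J p.1) q : ℝ))) *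
      yy J C q p0 t + (97 * J p0.1 * 2 ^ (2 * J p0.1) + 480000 * J p0.1 * 2 ^ (16 * J p0.1) *
        ((1 / 2 ^ (16 * J i)) * (yy J C q (i, false) t + yy J C q (i, true) t))) /
          (2 * (DD (fun p : Ix M => 300 * J p.1) q : ℝ)) := by
  have hD := hB.1
  set D2 : ℝ := 2 * (DD (fun p : Ix M => 300 * J p.1) q : ℝ) with hD2
  have hD2p : 0 < D2 := by positivity
  have key : ∀ x, TT C q (we J C) (fun x => ff J p0 (lv J C x)) x ≤
      (1 + EE' J p0 / D2) * ff J p0 (lv J C x) + (97 * J p0.1 * 2 ^ (2 * J p0.1) / D2 +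
        (480000 * J p0.1 * 2 ^ (16 * J p0.1) * (1 / 2 ^ (16 * J i)) / D2) *
          (ff J (i, false) (lv J C x) + ff J (i, true) (lv J C x))) := by
    intro x
    rw [TT_ff]
    have h1 := drift_ctrl (p0 := p0) hJ (Un_nonneg (C := C) x) (Dn_nonneg x) (UD_le x) (UD_in x)
    have h2 := ff_ge (J := J) (p0 := p0) (lv J C x)
    have h3 := G1_bound hJ (lv J C x) hi
    have hE0 := EE'_nonneg (J := J) (p0 := p0)
    have h4 := mul_le_mul_of_nonneg_left h2 hE0
    have h5 := mul_le_mul_of_nonneg_left h3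
      (show (0:ℝ) ≤ 480000 * J p0.1 * 2 ^ (16 * J p0.1) by positivity)
    have h6 : ∑ p, Lp J (Un J C x) (Dn J C x) (ff J p0) (lv J C x) p ≤
        97 * J p0.1 * 2 ^ (2 * J p0.1) + 480000 * J p0.1 * 2 ^ (16 * J p0.1) *
          ((1 / 2 ^ (16 * J i)) * (ff J (i, false) (lv J C x) + ff J (i, true) (lv J C x))) +
          EE' J p0 * ff J p0 (lv J C x) := by linarith
    have h7 := mul_le_mul_of_nonneg_left h6 (show 0 ≤ 1 / D2 by positivity)
    rw [← hD2]
    refine (add_le_add_right h7 _).trans (le_of_eq ?_)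
    ring
  have h := Ex_mono (C := C) hJ hB t key
  rw [← Ex_succ] at h
  rw [Ex_add, Ex_smul, Ex_add, Ex_const, Ex_smul, Ex_add] at h
  unfold yy
  refine h.trans (le_of_eq ?_)
  ring

/-- elementary recursion lemma -/
theorem rec_bound (y : ℕ → ℝ) (a b : ℝ) (ha : 0 ≤ a) (hb : 0 ≤ b) (T : ℕ) (h0 : y 0 ≤ 1)
    (h : ∀ t < T, y (t + 1) ≤ (1 + a) * y t + b) : y T ≤ Real.exp (a * T) * (1 + b * T) := by
  have key : ∀ t ≤ T, y t ≤ (1 + a) ^ t * (1 + b * t) := by
    intro t ht
    induction t with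
    | zero => simpa using h0
    | succ t ih =>
      have h1 := h t (by omega)
      have h2 := mul_le_mul_of_nonneg_left (ih (by omega)) (show 0 ≤ 1 + a by linarith)
      have h3 : b ≤ (1 + a) ^ (t + 1) * b := by
        have : 1 ≤ (1 + a) ^ (t + 1) := one_le_pow₀ (by linarith)
        nlinarith
      calc y (t + 1) ≤ (1 + a) * ((1 + a) ^ t * (1 + b * t)) + (1 + a) ^ (t + 1) * b := by linarith
        _ = (1 + a) ^ (t + 1) * (1 + b * ((t + 1 : ℕ) : ℝ)) := by push_cast; ring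
  refine (key T le_rfl).trans ?_
  have h1 : (1 + a) ^ T ≤ Real.exp (a * T) := by
    have := pow_le_pow_left₀ (by linarith) (Real.add_one_le_exp a) T
    rw [← Real.exp_nat_mul, add_comm] at this
    rwa [mul_comm a]
  have : 0 ≤ 1 + b * (T : ℝ) := by positivity
  exact mul_le_mul_of_nonneg_right h1 this

theorem grow_bound (y : ℕ → ℝ) (c : ℝ) (hc : 0 ≤ c) (hy : ∀ t, 0 ≤ y t)
    (h : ∀ t, y (t + 1) ≤ (1 + c) * y t) (t r : ℕ) : y (t + r) ≤ Real.exp (c * r) * y t := by
  have key : y (t + r) ≤ (1 + c) ^ r * y t := by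
    induction r with
    | zero => simp
    | succ r ih =>
      calc y (t + (r + 1)) ≤ (1 + c) * y (t + r) := h (t + r)
        _ ≤ (1 + c) * ((1 + c) ^ r * y t) := mul_le_mul_of_nonneg_left ih (by linarith)
        _ = _ := by ring
  refine key.trans (mul_le_mul_of_nonneg_right ?_ (hy t))
  have := pow_le_pow_left₀ (by linarith) (Real.add_one_le_exp c) r
  rw [← Real.exp_nat_mul, add_comm] at this
  rwa [mul_comm c]

end
end Pool.H521RB
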