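import Pool.Agent.H521R4.RB.Core6

/-!
# The multi-scale induction
-/

set_option autoImplicit false
open Classical

namespace Pool.H521RB

section
variable {M : ℕ} {J : Fin M → ℕ} {C : ∀ p : Ix M, Code (300 * J p.1)} {q : ℕ}

theorem stepA (hM : 0 < M) (hJ : ∀ i, 0 < J i)
    (hsep : ∀ i s : Fin M, i < s → 2 * J s + 3 ≤ J i)
    (hEE : ∀ p0 : Ix M, EE' J p0 ≤ 1 / (M:ℝ)) (hB : Big J q) (s : Fin M)
    (ih : ∀ i : Fin M, i < s → ∀ ε (t : ℕ),
      (t:ℝ) ≤ ((i:ℕ) + 1 : ℝ) * (DD (fun p : Ix M => 300 * J p.1) q : ℝ) / 60000 →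
      yy J C q (i, ε) t ≤ 2 ^ (9 * J i)) (ε : Bool) (T : ℕ)
    (hT : (T:ℝ) ≤ ((s:ℕ) : ℝ) * (DD (fun p : Ix M => 300 * J p.1) q : ℝ) / 60000) :
    yy J C q (s, ε) T ≤ Real.exp 1 * (1 + 98 * M * J s * 2 ^ (2 * J s)) := by
  have hD := hB.1
  set D : ℝ := (DD (fun p : Ix M => 300 * J p.1) q : ℝ) with hDdef
  have hM' : (1:ℝ) ≤ M := by exact_mod_cast hM
  have hJs : (1:ℝ) ≤ J s := by exact_mod_cast hJ s
  have hsM : ((s:ℕ):ℝ) ≤ M := by exact_mod_cast s.2.le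
  have hs0 : (0:ℝ) ≤ ((s:ℕ):ℝ) := Nat.cast_nonneg _
  have hexp : (1:ℝ) ≤ Real.exp 1 := by
    have := Real.add_one_le_exp (1:ℝ); linarith
  have hpp : (0:ℝ) ≤ 98 * M * J s * 2 ^ (2 * J s) := by positivity
  rcases Nat.eq_zero_or_pos (s:ℕ) with h0 | h0
  · rw [h0] at hT
    have : T = 0 := by
      have : (T:ℝ) ≤ 0 := by simpa using hT
      exact_mod_cast le_antisymm this (Nat.cast_nonneg _)
    rw [this, yy_zero]
    nlinarith
  · let i0 : Fin M := ⟨(s:ℕ) - 1, by omega⟩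
    have hi0 : i0 < s := by rw [Fin.lt_def]; show (s:ℕ) - 1 < s; omega
    have hi0' : ((i0:ℕ) + 1 : ℝ) = ((s:ℕ):ℝ) := by
      have : (i0:ℕ) + 1 = (s:ℕ) := by show (s:ℕ) - 1 + 1 = s; omega
      exact_mod_cast this
    have hJi := hsep i0 s hi0
    have hE0 := EE'_nonneg (J := J) (p0 := (s, ε))
    have hrec : ∀ t < T, yy J C q (s, ε) (t + 1) ≤ (1 + EE' J (s, ε) / (2 * D)) * yy J C q (s, ε) t
        + 98 * J s * 2 ^ (2 * J s) / (2 * D) := by
      intro t ht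
      have htT : (t:ℝ) ≤ ((i0:ℕ) + 1 : ℝ) * D / 60000 := by
        rw [hi0']
        have : (t:ℝ) ≤ T := by exact_mod_cast ht.le
        exact this.trans hT
      have y1 := ih i0 hi0 false t htT
      have y2 := ih i0 hi0 true t htT
      have h := yy_ctrl (C := C) hJ hB (s, ε) (i := i0) hi0 t
      refine h.trans ?_
      simp only
      rw [← hDdef]
      gcongr
      -- numeric estimate
      have e1 : (1 / 2 ^ (16 * J i0) : ℝ) * (yy J C q (i0, false) t + yy J C q (i0, true) t) ≤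
          2 / 2 ^ (7 * J i0) := by
        have : (1 / 2 ^ (16 * J i0) : ℝ) * (yy J C q (i0, false) t + yy J C q (i0, true) t) ≤
            (1 / 2 ^ (16 * J i0) : ℝ) * (2 ^ (9 * J i0) + 2 ^ (9 * J i0)) := by gcongr
        refine this.trans (le_of_eq ?_)
        rw [show 16 * J i0 = 7 * J i0 + 9 * J i0 by ring, pow_add]
        field_simp
        ring
      have e2 : (2:ℝ) ^ (14 * J s) * 2097152 ≤ 2 ^ (7 * J i0) := by
        rw [show (2097152:ℝ) = 2 ^ 21 by norm_num, ← pow_add]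
        exact pow_le_pow_right₀ (by norm_num) (by omega)
      have e3 : (480000 * J s * 2 ^ (16 * J s) * (2 / 2 ^ (7 * J i0)) : ℝ) ≤ J s * 2 ^ (2 * J s) := by
        rw [mul_div_assoc', div_le_iff₀ (by positivity)]
        rw [show 16 * J s = 2 * J s + 14 * J s by ring, pow_add]
        have : (0:ℝ) ≤ J s * 2 ^ (2 * J s) := by positivity
        nlinarith [mul_le_mul_of_nonneg_left e2 this, show (0:ℝ) ≤ J s * 2 ^ (2 * J s) * 2 ^ (14 * J s) by positivity]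
      have e4 := mul_le_mul_of_nonneg_left e1
        (show (0:ℝ) ≤ 480000 * J s * 2 ^ (16 * J s) by positivity)
      linarith
    have hfin := rec_bound (yy J C q (s, ε)) (EE' J (s, ε) / (2 * D)) (98 * J s * 2 ^ (2 * J s) / (2 * D))
      (by positivity) (by positivity) T (by rw [yy_zero]) hrec
    refine hfin.trans ?_
    have k1 : EE' J (s, ε) / (2 * D) * T ≤ 1 := by
      have a1 : EE' J (s, ε) / (2 * D) ≤ 1 / M / (2 * D) := by
        gcongr; exact hEE _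
      calc EE' J (s, ε) / (2 * D) * T ≤ 1 / M / (2 * D) * (M * D / 60000) := by
            refine mul_le_mul a1 (hT.trans ?_) (Nat.cast_nonneg _) (by positivity)
            gcongr
        _ = 1 / 120000 := by field_simp; norm_num
        _ ≤ 1 := by norm_num
    have k2 : 98 * J s * 2 ^ (2 * J s) / (2 * D) * T ≤ 98 * M * J s * 2 ^ (2 * J s) := by
      calc 98 * J s * 2 ^ (2 * J s) / (2 * D) * T ≤ 98 * J s * 2 ^ (2 * J s) / (2 * D) * (M * D / 60000) := by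
            refine mul_le_mul_of_nonneg_left (hT.trans ?_) (by positivity)
            gcongr
        _ = 98 * M * J s * 2 ^ (2 * J s) / 120000 := by field_simp; norm_num
        _ ≤ _ := by
            rw [div_le_iff₀ (by norm_num)]
            nlinarith
    gcongr

theorem exp4_le : Real.exp 4 ≤ 55 := by
  have h : Real.exp 4 = Real.exp 1 ^ 4 := by
    rw [← Real.exp_nat_mul]; norm_num
  have h2 : Real.exp 1 < 2.7182818286 := Real.exp_one_lt_d9
  have h3 := Real.exp_pos (1:ℝ)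
  rw [h]
  calc Real.exp 1 ^ 4 ≤ 2.7182818286 ^ 4 := pow_le_pow_left₀ h3.le h2.le 4
    _ ≤ 55 := by norm_num

theorem stepAll (hM : 0 < M) (hJ20 : ∀ i, M + 20 ≤ J i)
    (hsep : ∀ i s : Fin M, i < s → 2 * J s + 3 ≤ J i)
    (hEE : ∀ p0 : Ix M, EE' J p0 ≤ 1 / (M:ℝ)) (hB : Big J q)
    (hpow : ∀ j : ℕ, M + 20 ≤ j → (1 + 98 * (M:ℝ) * j) * 21 ≤ 2 ^ j) :
    ∀ s : Fin M, ∀ ε (t : ℕ),
      (t:ℝ) ≤ ((s:ℕ) + 1 : ℝ) * (DD (fun p : Ix M => 300 * J p.1) q : ℝ) / 60000 →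
      yy J C q (s, ε) t ≤ 2 ^ (9 * J s) := by
  have hJ : ∀ i, 0 < J i := fun i => by have := hJ20 i; omega
  intro s
  induction s using WellFoundedLT.induction with
  | ind s ih =>
  intro ε t ht
  have hD := hB.1
  have hDJ := hB.2.2 s
  set D : ℝ := (DD (fun p : Ix M => 300 * J p.1) q : ℝ) with hDdef
  have hM' : (1:ℝ) ≤ M := by exact_mod_cast hM
  have hJs : (1:ℝ) ≤ J s := by exact_mod_cast hJ s
  have hEs : EE' J (s, ε) ≤ 1 := by
    refine (hEE _).trans ?_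
    rw [div_le_one (by positivity)]; exact hM'
  -- split time
  set T := min t (⌊((s:ℕ) : ℝ) * D / 60000⌋₊) with hTdef
  have hTt : T ≤ t := min_le_left _ _
  have hs0 : (0:ℝ) ≤ ((s:ℕ) : ℝ) * D / 60000 := by positivity
  have hT : (T:ℝ) ≤ ((s:ℕ) : ℝ) * D / 60000 := by
    calc (T:ℝ) ≤ (⌊((s:ℕ) : ℝ) * D / 60000⌋₊ : ℝ) := by exact_mod_cast min_le_right _ _
      _ ≤ _ := Nat.floor_le hs0
  have hr : ((t - T : ℕ) : ℝ) ≤ D / 60000 + 1 := by
    rw [Nat.cast_sub hTt]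
    rcases le_total t (⌊((s:ℕ) : ℝ) * D / 60000⌋₊) with h | h
    · have : T = t := min_eq_left h
      rw [this, sub_self]; positivity
    · have h1 : T = ⌊((s:ℕ) : ℝ) * D / 60000⌋₊ := min_eq_right h
      have h2 := Nat.lt_floor_add_one (((s:ℕ) : ℝ) * D / 60000)
      rw [h1]
      have : ((s:ℕ) + 1 : ℝ) * D / 60000 = ((s:ℕ) : ℝ) * D / 60000 + D / 60000 := by ring
      linarith
  have hA := stepA (C := C) hM hJ hsep hEE hB s (fun i hi => ih i hi) ε T hT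
  have hgrow := grow_bound (yy J C q (s, ε)) ((480000 * J s + 1) / (2 * D)) (by positivity)
    (yy_nonneg hJ hB _) (fun t => yy_crude hJ hB (s, ε) hEs t) T (t - T)
  rw [Nat.add_sub_cancel' hTt] at hgrow
  have hexpo : (480000 * (J s:ℝ) + 1) / (2 * D) * ((t - T : ℕ) : ℝ) ≤ 4 * J s + 1 := by
    calc (480000 * (J s:ℝ) + 1) / (2 * D) * ((t - T : ℕ) : ℝ) ≤
        (480000 * (J s:ℝ) + 1) / (2 * D) * (D / 60000 + 1) :=
          mul_le_mul_of_nonneg_left hr (by positivity)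
      _ = (480000 * J s + 1) / 120000 + (480000 * J s + 1) / (2 * D) := by
          field_simp
          ring
      _ ≤ (480000 * J s + 1) / 120000 + 1 / 2 := by
          have : (480000 * (J s:ℝ) + 1) / (2 * D) ≤ 1 / 2 := by
            rw [div_le_iff₀ (by positivity)]
            linarith
          linarith
      _ ≤ _ := by linarith
  have h1 : yy J C q (s, ε) t ≤ Real.exp (4 * J s + 1) *
      (Real.exp 1 * (1 + 98 * M * J s * 2 ^ (2 * J s))) := by
    refine hgrow.trans (mul_le_mul (Real.exp_le_exp.mpr hexpo) hA (yy_nonneg hJ hB _ _)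
      (Real.exp_pos _).le)
  refine h1.trans ?_
  have h2 : Real.exp (4 * J s + 1) = Real.exp 4 ^ (J s) * Real.exp 1 := by
    rw [Real.exp_add, ← Real.exp_nat_mul]; ring_nf
  have h3 : Real.exp 4 ^ (J s) ≤ 55 ^ (J s) := pow_le_pow_left₀ (Real.exp_pos _).le exp4_le _
  have h4 : Real.exp 1 * Real.exp 1 ≤ 21 := by
    have h2 : Real.exp 1 < 2.7182818286 := Real.exp_one_lt_d9
    have h3 := Real.exp_pos (1:ℝ)
    nlinarith
  have h5 : 1 + 98 * (M:ℝ) * J s * 2 ^ (2 * J s) ≤ (1 + 98 * M * J s) * 2 ^ (2 * J s) := by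
    have : (1:ℝ) ≤ 2 ^ (2 * J s) := one_le_pow₀ (by norm_num)
    nlinarith
  have h6 := hpow (J s) (hJ20 s)
  rw [h2]
  have hpos : (0:ℝ) < 1 + 98 * M * J s * 2 ^ (2 * J s) := by positivity
  calc Real.exp 4 ^ (J s) * Real.exp 1 * (Real.exp 1 * (1 + 98 * M * J s * 2 ^ (2 * J s)))
      = Real.exp 4 ^ (J s) * ((Real.exp 1 * Real.exp 1) * (1 + 98 * M * J s * 2 ^ (2 * J s))) := by ring
    _ ≤ 55 ^ (J s) * (21 * ((1 + 98 * M * J s) * 2 ^ (2 * J s))) := by
        refine mul_le_mul h3 (mul_le_mul h4 h5 hpos.le (by norm_num)) ?_ (by positivity)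
        positivity
    _ = 55 ^ (J s) * (2 ^ (2 * J s) * ((1 + 98 * M * J s) * 21)) := by ring
    _ ≤ 55 ^ (J s) * (2 ^ (2 * J s) * 2 ^ (J s)) := by gcongr
    _ = 440 ^ (J s) := by
        rw [← pow_add, show 2 * J s + J s = 3 * J s by ring, pow_mul, ← mul_pow]; norm_num
    _ ≤ 512 ^ (J s) := pow_le_pow_left₀ (by norm_num) (by norm_num) _
    _ = 2 ^ (9 * J s) := by rw [pow_mul]; norm_num

/-- the target supply is still localised at time `M * D / 60000` -/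
theorem Ex_target (hM : 0 < M) (hJ20 : ∀ i, M + 20 ≤ J i)
    (hsep : ∀ i s : Fin M, i < s → 2 * J s + 3 ≤ J i)
    (hEE : ∀ p0 : Ix M, EE' J p0 ≤ 1 / (M:ℝ)) (hB : Big J q)
    (hpow : ∀ j : ℕ, M + 20 ≤ j → (1 + 98 * (M:ℝ) * j) * 21 ≤ 2 ^ j) (t : ℕ)
    (ht : (t:ℝ) ≤ (M:ℝ) * (DD (fun p : Ix M => 300 * J p.1) q : ℝ) / 60000) (p0 : Ix M)
    (hp0 : (p0.1 : ℕ) + 1 = M) :
    Ex J C q t (fun x => if 16 * J p0.1 ≤ lv J C x p0 then (1:ℝ) else 0) ≤ 1 / 100 := by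
  have hJ : ∀ i, 0 < J i := fun i => by have := hJ20 i; omega
  have h1 := stepAll (C := C) hM hJ20 hsep hEE hB hpow p0.1 p0.2 t (by
    have : ((p0.1 : ℕ) + 1 : ℝ) = M := by exact_mod_cast hp0
    rw [this]; exact ht)
  have h2 : Ex J C q t (fun x => if 16 * J p0.1 ≤ lv J C x p0 then (1:ℝ) else 0) ≤
      (1 / 2 ^ (16 * J p0.1)) * yy J C q p0 t := by
    unfold yy
    rw [← Ex_smul]
    refine Ex_mono hJ hB t fun x => ?_
    have hf := ff_ge (J := J) (p0 := p0) (lv J C x)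
    split_ifs with h
    · rw [one_div, ← div_eq_inv_mul, le_div_iff₀ (by positivity), one_mul]
      refine le_trans (le_of_eq ?_) hf
      unfold gg; rw [min_eq_right h]
    · have := ff_nonneg (J := J) p0 (lv J C x)
      positivity
  refine h2.trans ?_
  have h3 : (1 / 2 ^ (16 * J p0.1) : ℝ) * yy J C q p0 t ≤ (1 / 2 ^ (16 * J p0.1)) * 2 ^ (9 * J p0.1) := by
    gcongr
  refine h3.trans ?_
  rw [show 16 * J p0.1 = 7 * J p0.1 + 9 * J p0.1 by ring, pow_add, one_div, mul_inv, mul_assoc,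
    inv_mul_cancel₀ (by positivity), mul_one, one_div]
  have h4 : (100:ℝ) ≤ 2 ^ (7 * J p0.1) := by
    calc (100:ℝ) ≤ 2 ^ 7 := by norm_num
      _ ≤ 2 ^ (7 * J p0.1) := pow_le_pow_right₀ (by norm_num) (by have := hJ p0.1; omega)
  gcongr

end
end Pool.H521RB
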