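import Mathlib

/-!
# Definitions for the disproof of robustness of mixing times on transitive graphs

`Code n` : a binary supply: `16 n` columns in `F_2^{8 n}`, any nonempty set of at most `n`
columns has nonzero sum, and every nonzero functional is nonzero on at least `n` columns.
The group is a product of such supplies; the graph is its Cayley graph times a complete graph
`K_q`.
-/

set_option autoImplicit false
open Classical

namespace Pool.H521RB

abbrev AA (n : ℕ) := Fin (8 * n) → ZMod 2
abbrev EE (n : ℕ) := Fin (16 * n)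

/-- Binary supply. -/
structure Code (n : ℕ) where
  h : EE n → AA n
  dist : ∀ S : Finset (EE n), S.Nonempty → S.card ≤ n → ∑ i ∈ S, h i ≠ 0
  wt : ∀ u : AA n, u ≠ 0 → n ≤ (Finset.univ.filter (fun i => u ⬝ᵥ h i ≠ 0)).card

/-- Capped word length: `min L (least size of a set of columns with sum x)`. -/
noncomputable def lev {n : ℕ} (C : Code n) (L : ℕ) (x : AA n) : ℕ :=
  sInf ({L} ∪ {j | ∃ S : Finset (EE n), S.card = j ∧ ∑ i ∈ S, C.h i = x})

section Prod

variable {ι : Type} [Fintype ι] [DecidableEq ι] (nn : ι → ℕ)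

abbrev GG := ∀ p : ι, AA (nn p)
abbrev EG := Σ p : ι, EE (nn p)

variable {nn}

/-- the group element of a generator -/
noncomputable def hh (C : ∀ p : ι, Code (nn p)) (e : EG nn) : GG nn :=
  Pi.single e.1 ((C e.1).h e.2)

/-- The graph: Cayley graph of the product group, times `K_q`. -/
def gr (C : ∀ p : ι, Code (nn p)) (q : ℕ) : SimpleGraph (GG nn × Fin q) where
  Adj a b := (a.1 = b.1 ∧ a.2 ≠ b.2) ∨ (a.2 = b.2 ∧ a.1 ≠ b.1 ∧ ∃ e : EG nn, b.1 = a.1 + hh C e)
  symm := ⟨by
    rintro a b (⟨h1, h2⟩ | ⟨h1, h2, e, he⟩)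
    · exact Or.inl ⟨h1.symm, h2.symm⟩
    · refine Or.inr ⟨h1.symm, h2.symm, e, ?_⟩
      rw [he, add_assoc]
      have : hh C e + hh C e = 0 := by
        funext p; funext j
        have : ∀ z : ZMod 2, z + z = 0 := by decide
        exact this _
      rw [this, add_zero]⟩
  loopless := ⟨by
    rintro a (⟨h1, h2⟩ | ⟨h1, h2, e, he⟩)
    · exact h2 rfl
    · exact h2 rfl⟩

/-- degree of the graph -/
def DD (nn : ι → ℕ) (q : ℕ) : ℕ := Fintype.card (EG nn) + (q - 1)

/-- transition matrix of the frozen statement -/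
noncomputable def PP {V : Type} [Fintype V] [DecidableEq V] (w : V → V → ℝ) : Matrix V V ℝ :=
  Matrix.of (fun a b : V => (if a = b then (1:ℝ)/2 else 0) + w a b / (2 * ∑ z : V, w a z))

/-- The mixing condition of the frozen statement. -/
def MixF {V : Type} [Fintype V] [DecidableEq V] (w : V → V → ℝ) (t : ℕ) : Prop :=
  ∀ x : V, ∑ y : V, (∑ z : V, w y z) / (∑ a : V, ∑ b : V, w a b) *
            (((Matrix.of (fun a b : V => (if a = b then (1:ℝ)/2 else 0) + w a b / (2 * ∑ z : V, w a z))) ^ t) x y
              / ((∑ z : V, w y z) / (∑ a : V, ∑ b : V, w a b)) - 1) ^ 2 ≤ 1/4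

/-- the one step operator of the perturbed walk on functions of the group coordinate:
`T F x = F x + (1/(2D)) ∑ e, we e x (F (x + h e) - F x)` -/
noncomputable def TT (C : ∀ p : ι, Code (nn p)) (q : ℕ) (we : EG nn → GG nn → ℝ)
    (F : GG nn → ℝ) : GG nn → ℝ :=
  fun x => F x + (1 / (2 * (DD nn q : ℝ))) * ∑ e : EG nn, we e x * (F (x + hh C e) - F x)

end Prod

end Pool.H521RB
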