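import Pool.Agent.H521R4.RB.Defs

set_option autoImplicit false
open Classical

/-!
# TASK D1 (helper266): the graph is connected and vertex transitive
-/

namespace Pool.H521RB

section P
variable {ι : Type} [Fintype ι] [DecidableEq ι] {nn : ι → ℕ}

theorem hh_add_self (C : ∀ p : ι, Code (nn p)) (e : EG nn) : hh C e + hh C e = 0 := by
  funext p; funext j
  have : ∀ z : ZMod 2, z + z = 0 := by decide
  exact this _

theorem reach_add (C : ∀ p : ι, Code (nn p)) (q : ℕ) (a : GG nn) (c : Fin q) (e : EG nn) :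
    (gr C q).Reachable (a, c) (a + hh C e, c) := by
  by_cases h : hh C e = 0
  · rw [h, add_zero]
  · refine SimpleGraph.Adj.reachable (Or.inr ⟨rfl, fun h' => h ?_, e, rfl⟩)
    exact left_eq_add.1 h'

/-- the elements `g` such that adding `g` does not leave the component -/
def RS (C : ∀ p : ι, Code (nn p)) (q : ℕ) (c : Fin q) : Submodule (ZMod 2) (GG nn) where
  carrier := {g | ∀ a, (gr C q).Reachable (a, c) (a + g, c)}
  zero_mem' := fun a => by rw [add_zero]
  add_mem' := fun {g h} hg hh a => (hg a).trans (by rw [← add_assoc]; exact hh (a + g))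
  smul_mem' := fun r g hg => by
    have h2 : ∀ r : ZMod 2, r = 0 ∨ r = 1 := by decide
    rcases h2 r with rfl | rfl
    · intro a; rw [zero_smul, add_zero]
    · rw [one_smul]; exact hg

theorem span_top {n : ℕ} (C : Code n) : Submodule.span (ZMod 2) (Set.range C.h) = ⊤ := by
  by_contra hne
  obtain ⟨f, hf, hle⟩ := Submodule.exists_le_ker_of_lt_top _ (lt_top_iff_ne_top.2 hne)
  let u : AA n := fun j => f (Pi.single j 1)
  have hu : ∀ x : AA n, u ⬝ᵥ x = f x := by
    intro x
    conv_rhs => rw [← Finset.univ_sum_single x]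
    rw [map_sum]
    unfold dotProduct
    refine Finset.sum_congr rfl fun j _ => ?_
    have : (Pi.single j (x j) : AA n) = x j • Pi.single j 1 := by
      rw [← Pi.single_smul, smul_eq_mul, mul_one]
    rw [this, map_smul, smul_eq_mul, mul_comm]
  have hu0 : u ≠ 0 := by
    intro h0
    apply hf
    ext j
    have := hu (Pi.single j 1)
    rw [h0, zero_dotProduct] at this
    simpa using this.symm
  have hw := C.wt u hu0
  have he : (Finset.univ.filter (fun i => u ⬝ᵥ C.h i ≠ 0)) = ∅ := by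
    rw [Finset.filter_eq_empty_iff]
    intro i _
    rw [not_not, hu]
    exact hle (Submodule.subset_span ⟨i, rfl⟩)
  rw [he, Finset.card_empty] at hw
  have hn : n = 0 := by omega
  subst hn
  exact hu0 (Subsingleton.elim (h := inferInstanceAs (Subsingleton (Fin 0 → ZMod 2))) _ _)

theorem RS_top (C : ∀ p : ι, Code (nn p)) (q : ℕ) (c : Fin q) : RS C q c = ⊤ := by
  rw [eq_top_iff]
  intro g _
  have h1 : ∀ p : ι, ∀ x : AA (nn p), (Pi.single p x : GG nn) ∈ RS C q c := by
    intro p x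
    have hx : x ∈ Submodule.span (ZMod 2) (Set.range (C p).h) := by
      rw [span_top]; trivial
    have hle : Submodule.span (ZMod 2) (Set.range (C p).h) ≤
        (RS C q c).comap (LinearMap.single (ZMod 2) (fun p : ι => AA (nn p)) p) := by
      rw [Submodule.span_le]
      rintro _ ⟨i, rfl⟩
      show (Pi.single p ((C p).h i) : GG nn) ∈ RS C q c
      intro a
      exact reach_add C q a c ⟨p, i⟩
    exact hle hx
  rw [← Finset.univ_sum_single g]
  exact Submodule.sum_mem _ fun p _ => h1 p (g p)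

theorem gr_connected (C : ∀ p : ι, Code (nn p)) (q : ℕ) (hq : 0 < q) : (gr C q).Connected := by
  have hne : Nonempty (GG nn × Fin q) := ⟨(0, ⟨0, hq⟩)⟩
  refine ⟨fun a b => ?_⟩
  have h1 : (gr C q).Reachable (a.1, a.2) (b.1, a.2) := by
    have : (b.1 - a.1) ∈ RS C q a.2 := by rw [RS_top]; trivial
    have h := this a.1
    rwa [add_sub_cancel] at h
  have h2 : (gr C q).Reachable (b.1, a.2) (b.1, b.2) := by
    by_cases h : a.2 = b.2
    · rw [h]
    · exact SimpleGraph.Adj.reachable (Or.inl ⟨rfl, h⟩)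
  exact h1.trans h2

theorem gr_transitive (C : ∀ p : ι, Code (nn p)) (q : ℕ) :
    ∀ x y : GG nn × Fin q, ∃ φ : gr C q ≃g gr C q, φ x = y := by
  intro x y
  refine ⟨⟨(Equiv.addRight (y.1 - x.1)).prodCongr (Equiv.swap x.2 y.2), ?_⟩, ?_⟩
  · intro a b
    show ((a.1 + (y.1 - x.1) = b.1 + (y.1 - x.1) ∧
        Equiv.swap x.2 y.2 a.2 ≠ Equiv.swap x.2 y.2 b.2) ∨
      (Equiv.swap x.2 y.2 a.2 = Equiv.swap x.2 y.2 b.2 ∧
        a.1 + (y.1 - x.1) ≠ b.1 + (y.1 - x.1) ∧
        ∃ e : EG nn, b.1 + (y.1 - x.1) = a.1 + (y.1 - x.1) + hh C e)) ↔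
      ((a.1 = b.1 ∧ a.2 ≠ b.2) ∨ (a.2 = b.2 ∧ a.1 ≠ b.1 ∧ ∃ e : EG nn, b.1 = a.1 + hh C e))
    have h1 : ∀ e : EG nn, (b.1 + (y.1 - x.1) = a.1 + (y.1 - x.1) + hh C e) ↔
        (b.1 = a.1 + hh C e) := by
      intro e
      constructor
      · intro h
        have h' : b.1 + (y.1 - x.1) = (a.1 + hh C e) + (y.1 - x.1) := by rw [h]; abel
        exact add_right_cancel h'
      · intro h; rw [h]; abel
    simp only [add_left_inj, ne_eq, EmbeddingLike.apply_eq_iff_eq, h1]
  · show ((x.1 + (y.1 - x.1)), Equiv.swap x.2 y.2 x.2) = y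
    rw [add_sub_cancel, Equiv.swap_apply_left]

end P

end Pool.H521RB
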