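import Pool.Agent.H521R4.RB.Core4
set_option autoImplicit false
open Classical
namespace Pool.H521RB

def jf (M : ℕ) : ℕ → ℕ
  | 0 => M + 20
  | k + 1 => (1000000 * M ^ 3) * (jf M k) ^ 2

theorem jf_pos {M : ℕ} (hM : 0 < M) (k : ℕ) : 0 < jf M k := by
  induction k with
  | zero => unfold jf; omega
  | succ k ih => unfold jf; positivity

theorem jf_succ_ge {M : ℕ} (hM : 0 < M) (k : ℕ) : 1000000 * jf M k * jf M k ≤ jf M (k + 1) := by
  have h1 : 1 ≤ M ^ 3 := Nat.one_le_pow _ _ hM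
  show 1000000 * jf M k * jf M k ≤ (1000000 * M ^ 3) * (jf M k) ^ 2
  have h2 : 1000000 * jf M k * jf M k = (1000000 * 1) * (jf M k) ^ 2 := by ring
  rw [h2]
  gcongr

theorem jf_mono {M : ℕ} (hM : 0 < M) : Monotone (jf M) := by
  refine monotone_nat_of_le_succ fun k => ?_
  have h1 := jf_succ_ge hM k
  have h2 := jf_pos hM k
  nlinarith

theorem exists_J (M : ℕ) (hM : 0 < M) : ∃ J : Fin M → ℕ, (∀ i, M + 20 ≤ J i) ∧
    (∀ i s : Fin M, i < s → 2 * J s + 3 ≤ J i) ∧
    (∀ p0 : Ix M, EE' J p0 ≤ 1 / (M:ℝ)) := by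
  have hM1 : (1:ℝ) ≤ M := by exact_mod_cast hM
  let J : Fin M → ℕ := fun i => jf M (M - 1 - i)
  have hge : ∀ i, M + 20 ≤ J i := fun i => jf_mono hM (Nat.zero_le (M - 1 - i))
  have hpos : ∀ i, 0 < J i := fun i => jf_pos hM _
  -- key: for i < s
  have hk : ∀ i s : Fin M, i < s → M - 1 - (i:ℕ) = (M - 2 - (i:ℕ)) + 1 := by
    intro i s h
    have := s.2; have h' : (i:ℕ) < s := h
    omega
  have hle : ∀ i s : Fin M, i < s → J s ≤ jf M (M - 2 - i) := by
    intro i s h
    have := s.2; have h' : (i:ℕ) < s := h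
    exact jf_mono hM (by omega)
  refine ⟨J, hge, ?_, ?_⟩
  · intro i s h
    have h1 := jf_succ_ge hM (M - 2 - i)
    rw [← hk i s h] at h1
    have h2 := hle i s h
    have h3 := hge s
    have h4 : 1000000 * J s * J s ≤ 1000000 * jf M (M - 2 - i) * jf M (M - 2 - i) := by gcongr
    have h5 : 1000000 * J s * J s ≤ J i := h4.trans h1
    nlinarith
  · intro p0
    have hee : ∀ i ∈ Finset.Iio p0.1, ∀ p : Ix M, ee J p0 i p ≤ 1 / (2 * (M:ℝ) ^ 3) := by
      intro i hi p
      have hi' : i < p0.1 := Finset.mem_Iio.mp hi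
      set b := jf M (M - 2 - i) with hb
      have hbpos : (0:ℝ) < b := by exact_mod_cast jf_pos hM _
      have hb1 : (1:ℝ) ≤ b := by exact_mod_cast jf_pos hM _
      have hJi : (J i : ℝ) = 1000000 * (M:ℝ) ^ 3 * (b:ℝ) ^ 2 := by
        have : J i = (1000000 * M ^ 3) * b ^ 2 := by
          show jf M (M - 1 - i) = _
          rw [hk i p0.1 hi']; rfl
        rw [this]; push_cast; ring
      have hs : (J p0.1 : ℝ) ≤ b := by exact_mod_cast hle i p0.1 hi'
      have hM3 : (0:ℝ) < (M:ℝ) ^ 3 := by positivity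
      unfold ee
      rw [hJi]
      split_ifs with h
      · have hp : (J p.1 : ℝ) ≤ b := by exact_mod_cast hle i p.1 h
        rw [div_le_div_iff₀ (by positivity) (by positivity)]
        have : (J p.1 : ℝ) * J p0.1 ≤ b * b := mul_le_mul hp hs (Nat.cast_nonneg _) hbpos.le
        nlinarith [mul_le_mul_of_nonneg_left this hM3.le]
      · rw [div_le_div_iff₀ (by positivity) (by positivity)]
        have h1 : (J p0.1 : ℝ) ≤ b ^ 2 := hs.trans (by nlinarith)
        nlinarith [mul_le_mul_of_nonneg_left h1 hM3.le, mul_pos hM3 (pow_pos hbpos 2)]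
    unfold EE'
    have h1 : ∑ i ∈ Finset.Iio p0.1, ∑ p, ee J p0 i p ≤
        ∑ _i ∈ Finset.Iio p0.1, ∑ _p : Ix M, 1 / (2 * (M:ℝ) ^ 3) :=
      Finset.sum_le_sum fun i hi => Finset.sum_le_sum fun p _ => hee i hi p
    refine h1.trans ?_
    simp only [Finset.sum_const, Finset.card_univ, nsmul_eq_mul, Fintype.card_prod,
      Fintype.card_fin, Fintype.card_bool]
    have h2 : ((Finset.Iio p0.1).card : ℝ) ≤ M := by
      have := Finset.card_le_univ (Finset.Iio p0.1)
      rw [Fintype.card_fin] at this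
      exact_mod_cast this
    push_cast
    have h3 : ((Finset.Iio p0.1).card : ℝ) * ((M:ℝ) * 2 * (1 / (2 * (M:ℝ) ^ 3))) ≤
        (M:ℝ) * ((M:ℝ) * 2 * (1 / (2 * (M:ℝ) ^ 3))) :=
      mul_le_mul_of_nonneg_right h2 (by positivity)
    refine h3.trans (le_of_eq ?_)
    have hM0 : (M:ℝ) ≠ 0 := by positivity
    field_simp

end Pool.H521RB
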