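import Pool.Agent.H521R4.RB.Core4
set_option autoImplicit false
open Classical
namespace Pool.H521RB

theorem sum_small {M : ℕ} (J : Fin M → ℕ) (hJ : ∀ i, M + 20 ≤ J i) :
    ∑ p : Ix M, (1 / 11 : ℝ) ^ (300 * J p.1) ≤ 1 / 32 := by
  have h1 : ∀ p : Ix M, (1 / 11 : ℝ) ^ (300 * J p.1) ≤ (1 / 2) ^ (M + 20) := by
    intro p
    calc (1 / 11 : ℝ) ^ (300 * J p.1) ≤ (1 / 2) ^ (300 * J p.1) :=
          pow_le_pow_left₀ (by norm_num) (by norm_num) _
      _ ≤ (1 / 2) ^ (M + 20) :=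
          pow_le_pow_of_le_one (by norm_num) (by norm_num) (by have := hJ p.1; omega)
  refine (Finset.sum_le_sum fun p _ => h1 p).trans ?_
  rw [Finset.sum_const, Finset.card_univ, nsmul_eq_mul, Fintype.card_prod, Fintype.card_fin,
    Fintype.card_bool]
  have h2 : (M : ℝ) ≤ 2 ^ M := by exact_mod_cast (Nat.lt_two_pow_self (n := M)).le
  have h3 : ((M : ℝ)) * (1 / 2) ^ M ≤ 1 := by
    rw [one_div, inv_pow, ← div_eq_mul_inv, div_le_one (by positivity)]; exact h2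
  push_cast
  rw [pow_add]
  have h4 : (M : ℝ) * 2 * ((1 / 2) ^ M * (1 / 2) ^ 20) = (M * (1 / 2) ^ M) * (2 * (1 / 2) ^ 20) := by
    ring
  rw [h4]
  calc (M * (1 / 2) ^ M : ℝ) * (2 * (1 / 2) ^ 20) ≤ 1 * (2 * (1 / 2) ^ 20) := by gcongr
    _ ≤ 1 / 32 := by norm_num

theorem pow_est_nat (j : ℕ) (h : 20 ≤ j) : (1 + 98 * j * j) * 21 ≤ 2 ^ j := by
  induction j, h using Nat.le_induction with
  | base => norm_num
  | succ j hj ih =>
    rw [pow_succ]
    nlinarith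

theorem pow_est {M J : ℕ} (h : M + 20 ≤ J) : (1 + 98 * (M:ℝ) * J) * 21 ≤ 2 ^ J := by
  have h1 := pow_est_nat J (by omega)
  have h2 : (1 + 98 * M * J) * 21 ≤ (1 + 98 * J * J) * 21 := by
    have : M ≤ J := by omega
    gcongr
  exact_mod_cast h2.trans h1

end Pool.H521RB
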