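import Pool.Agent.H521R4.RB.Core4
import Pool.Agent.H521R4.RB.Lev
set_option autoImplicit false
open Classical
namespace Pool.H521RB

theorem avg_big {M : ℕ} (J : Fin M → ℕ) (hJ : ∀ i, 0 < J i)
    (C : ∀ p : Ix M, Code (300 * J p.1)) (p0 : Ix M) :
    9 / 10 ≤ (∑ y : GG (fun p : Ix M => 300 * J p.1),
      (if 16 * J p0.1 ≤ lev (C p0) (150 * J p0.1) (y p0) then (1:ℝ) else 0)) /
        (Fintype.card (GG (fun p : Ix M => 300 * J p.1)) : ℝ) := by
  have hJ0 := hJ p0.1
  let e := Equiv.piSplitAt p0 (fun p : Ix M => AA (300 * J p.1))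
  let f : AA (300 * J p0.1) → ℝ := fun a => if 16 * J p0.1 ≤ lev (C p0) (150 * J p0.1) a then 1 else 0
  have h1 : ∑ y : GG (fun p : Ix M => 300 * J p.1),
      (if 16 * J p0.1 ≤ lev (C p0) (150 * J p0.1) (y p0) then (1:ℝ) else 0) =
      ∑ z : AA (300 * J p0.1) × (∀ j : {j // j ≠ p0}, AA (300 * J j.1.1)), f z.1 :=
    Equiv.sum_comp e (fun z => f z.1)
  have hcard : Fintype.card (GG (fun p : Ix M => 300 * J p.1)) =
      Fintype.card (AA (300 * J p0.1)) * Fintype.card (∀ j : {j // j ≠ p0}, AA (300 * J j.1.1)) := by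
    rw [← Fintype.card_prod]
    exact Fintype.card_congr e
  rw [h1, hcard, Fintype.sum_prod_type]
  simp only [Finset.sum_const, Finset.card_univ, nsmul_eq_mul]
  rw [← Finset.mul_sum]
  set R : ℝ := (Fintype.card (∀ j : {j // j ≠ p0}, AA (300 * J j.1.1)) : ℝ) with hR
  have hRpos : 0 < R := by
    have : 0 < Fintype.card (∀ j : {j // j ≠ p0}, AA (300 * J j.1.1)) := Fintype.card_pos
    rw [hR]; exact Nat.cast_pos.mpr this
  have hcA : Fintype.card (AA (300 * J p0.1)) = 2 ^ (8 * (300 * J p0.1)) := by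
    simp [AA, ZMod.card]
  have hb := ball_small (C p0) (150 * J p0.1) (by omega) (by omega) (16 * J p0.1) (by omega)
  rw [← hcA] at hb
  have hb' : 10 * ((Finset.univ.filter (fun x : AA (300 * J p0.1) =>
      lev (C p0) (150 * J p0.1) x < 16 * J p0.1)).card : ℝ) ≤
      (Fintype.card (AA (300 * J p0.1)) : ℝ) := by exact_mod_cast hb
  have hApos : 0 < (Fintype.card (AA (300 * J p0.1)) : ℝ) := by
    have : 0 < Fintype.card (AA (300 * J p0.1)) := Fintype.card_pos
    exact_mod_cast this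
  have hsum : ∑ a, f a = (Fintype.card (AA (300 * J p0.1)) : ℝ) -
      ((Finset.univ.filter (fun x : AA (300 * J p0.1) =>
      lev (C p0) (150 * J p0.1) x < 16 * J p0.1)).card : ℝ) := by
    have h2 : ∀ a, f a = 1 - (if lev (C p0) (150 * J p0.1) a < 16 * J p0.1 then (1:ℝ) else 0) := by
      intro a
      show (if 16 * J p0.1 ≤ lev (C p0) (150 * J p0.1) a then (1:ℝ) else 0) = _
      by_cases h : 16 * J p0.1 ≤ lev (C p0) (150 * J p0.1) a
      · rw [if_pos h, if_neg (not_lt.mpr h)]; norm_num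
      · rw [if_neg h, if_pos (not_le.mp h)]; norm_num
    rw [Finset.sum_congr rfl fun a _ => h2 a, Finset.sum_sub_distrib, Finset.sum_boole]
    simp
  rw [hsum]
  push_cast
  rw [le_div_iff₀ (by positivity)]
  nlinarith

end Pool.H521RB
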