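import Pool.Agent.H521R4.RB.Defs

/-! RB TASK D2 (helper744, for helper521): the neutral perturbation exists. -/

set_option autoImplicit false
open Classical

namespace Pool.H521RB

namespace Pert

section Gen
variable {V : Type} [Fintype V] [DecidableEq V]

theorem pow_mulVec_iter (P : Matrix V V ℝ) (f : V → ℝ) (t : ℕ) :
    (P ^ t).mulVec f = (fun g => P.mulVec g)^[t] f := by
  induction t with
  | zero => simp
  | succ t ih =>
    rw [pow_succ', ← Matrix.mulVec_mulVec, ih, Function.iterate_succ_apply']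

theorem mix_apply (w : V → V → ℝ) (D : ℝ) (hD : 0 < D) (hw : ∀ a, ∑ b, w a b = D)
    (t : ℕ) (hm : MixF w t) (f : V → ℝ) (hf : ∀ y, 0 ≤ f y ∧ f y ≤ 1) (x : V) :
    |(fun g : V → ℝ => (Matrix.of (fun a b : V => (if a = b then (1:ℝ)/2 else 0) +
        w a b / (2 * ∑ z : V, w a z))).mulVec g)^[t] f x
      - (∑ y, f y) / (Fintype.card V : ℝ)| ≤ 1 / 4 := by
  set P : Matrix V V ℝ := Matrix.of (fun a b : V => (if a = b then (1:ℝ)/2 else 0) +
        w a b / (2 * ∑ z : V, w a z)) with hP
  rw [← pow_mulVec_iter]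
  have hone : P.mulVec (fun _ => (1:ℝ)) = fun _ => 1 := by
    funext a
    simp only [hP, Matrix.mulVec, dotProduct, Matrix.of_apply, mul_one]
    rw [Finset.sum_add_distrib, ← Finset.sum_div, hw a]
    simp
    field_simp
    norm_num
  have hrow : (P ^ t).mulVec (fun _ => (1:ℝ)) = fun _ => 1 := by
    rw [pow_mulVec_iter]
    induction t with
    | zero => rfl
    | succ t ih =>
      clear ih hm
      have : ∀ s : ℕ, (fun g => P.mulVec g)^[s] (fun _ => (1:ℝ)) = fun _ => 1 := by
        intro s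
        induction s with
        | zero => rfl
        | succ s ih => rw [Function.iterate_succ_apply', ih]; exact hone
      exact this _
  have hN : (0:ℝ) < Fintype.card V := by
    have : 0 < Fintype.card V := Fintype.card_pos_iff.mpr ⟨x⟩
    exact_mod_cast this
  set N : ℝ := (Fintype.card V : ℝ) with hNdef
  have hm1 := hm x
  have e1 : ∀ y : V, (∑ z : V, w y z) / (∑ a : V, ∑ b : V, w a b) = 1 / N := by
    intro y
    simp only [hw]
    rw [Finset.sum_const, Finset.card_univ, nsmul_eq_mul, ← hNdef]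
    field_simp
  simp only [e1] at hm1
  rw [← hP, ← Finset.mul_sum] at hm1
  set Q := (P ^ t) x with hQ
  have hQ1 : ∑ y, Q y = 1 := by
    have := congrFun hrow x
    simpa [Matrix.mulVec, dotProduct] using this
  have key : (P ^ t).mulVec f x - (∑ y, f y) / N
      = (1 / N) * ∑ y, (Q y / (1 / N) - 1) * (f y - 1 / 2) := by
    have h1 : (P ^ t).mulVec f x = ∑ y, Q y * f y := rfl
    rw [h1]
    have h2 : ∀ y, (Q y / (1 / N) - 1) * (f y - 1 / 2)
        = N * (Q y * f y) - N * (1/2) * Q y - f y + 1 / 2 := by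
      intro y
      have : Q y / (1 / N) = N * Q y := by field_simp
      rw [this]; ring
    simp only [h2]
    rw [Finset.sum_add_distrib, Finset.sum_sub_distrib, Finset.sum_sub_distrib,
      ← Finset.mul_sum, ← Finset.mul_sum, hQ1, Finset.sum_const, Finset.card_univ, nsmul_eq_mul,
      ← hNdef]
    field_simp
    ring
  rw [key]
  have cs := Finset.sum_mul_sq_le_sq_mul_sq Finset.univ (fun y => (Q y / (1 / N) - 1))
    (fun y => f y - 1 / 2)
  have hg : ∑ y, (Q y / (1 / N) - 1) ^ 2 ≤ N / 4 := by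
    have h5 : (1 / N) * ∑ y, (Q y / (1 / N) - 1) ^ 2 ≤ 1 / 4 := hm1
    have h6 : N * ((1 / N) * ∑ y, (Q y / (1 / N) - 1) ^ 2) ≤ N * (1 / 4) :=
      mul_le_mul_of_nonneg_left h5 hN.le
    rw [← mul_assoc, mul_one_div_cancel hN.ne', one_mul] at h6
    linarith
  have hf2 : ∑ y, (f y - 1 / 2) ^ 2 ≤ N / 4 := by
    have : ∑ y, (f y - 1 / 2) ^ 2 ≤ ∑ _y : V, (1 / 4 : ℝ) := by
      apply Finset.sum_le_sum
      intro y _
      nlinarith [(hf y).1, (hf y).2]
    rw [Finset.sum_const, Finset.card_univ, nsmul_eq_mul, ← hNdef] at this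
    linarith
  have hsq : (∑ y, (Q y / (1 / N) - 1) * (f y - 1 / 2)) ^ 2 ≤ (N / 4) ^ 2 := by
    refine cs.trans ?_
    rw [sq (N / 4)]
    exact mul_le_mul hg hf2 (Finset.sum_nonneg fun _ _ => sq_nonneg _) (by positivity)
  have habs := abs_le_of_sq_le_sq hsq (by positivity)
  rw [abs_mul, abs_of_pos (by positivity : (0:ℝ) < 1 / N)]
  have : |∑ y, (Q y / (1 / N) - 1) * (f y - 1 / 2)| ≤ N / 4 := habs
  calc 1 / N * |∑ y, (Q y / (1 / N) - 1) * (f y - 1 / 2)| ≤ 1 / N * (N / 4) := by
        gcongr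
    _ = 1 / 4 := by field_simp

end Gen

section P
variable {ι : Type} [Fintype ι] [DecidableEq ι] {nn : ι → ℕ}

theorem h_ne_zero {n : ℕ} (C : Code n) (hn : 2 ≤ n) (i : EE n) : C.h i ≠ 0 := by
  have := C.dist {i} (Finset.singleton_nonempty i) (by simp; omega)
  simpa using this

theorem two_zero {n : ℕ} (z : AA n) : z + z = 0 := by
  funext j
  have : ∀ z : ZMod 2, z + z = 0 := by decide
  exact this _

theorem h_inj {n : ℕ} (C : Code n) (hn : 2 ≤ n) (i j : EE n) (h : C.h i = C.h j) : i = j := by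
  by_contra hij
  have := C.dist {i, j} ⟨i, by simp⟩ (by rw [Finset.card_pair hij]; exact hn)
  rw [Finset.sum_pair hij, h] at this
  exact this (two_zero _)

theorem hh_ne_zero (C : ∀ p : ι, Code (nn p)) (hn : ∀ p, 2 ≤ nn p) (e : EG nn) :
    hh C e ≠ 0 := by
  intro h
  have := congrFun h e.1
  simp only [hh, Pi.single_eq_same, Pi.zero_apply] at this
  exact h_ne_zero (C e.1) (hn e.1) e.2 this

theorem hh_inj (C : ∀ p : ι, Code (nn p)) (hn : ∀ p, 2 ≤ nn p) (e e' : EG nn)
    (h : hh C e = hh C e') : e = e' := by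
  obtain ⟨p, i⟩ := e
  obtain ⟨p', i'⟩ := e'
  by_cases hp : p = p'
  · subst hp
    have := congrFun h p
    simp only [hh, Pi.single_eq_same] at this
    rw [h_inj (C p) (hn p) i i' this]
  · exfalso
    have := congrFun h p
    simp only [hh, Pi.single_eq_same] at this
    rw [Pi.single_eq_of_ne hp] at this
    exact h_ne_zero (C p) (hn p) i this

theorem hh_two (C : ∀ p : ι, Code (nn p)) (e : EG nn) : hh C e + hh C e = 0 := by
  funext p
  exact two_zero _

/-- weight on the `K_q` edges above `x` -/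
noncomputable def w0 (q : ℕ) (we : EG nn → GG nn → ℝ) (x : GG nn) : ℝ :=
  ((DD nn q : ℝ) - ∑ e, we e x) / ((q : ℝ) - 1)

/-- the perturbed weights -/
noncomputable def ww (C : ∀ p : ι, Code (nn p)) (q : ℕ) (we : EG nn → GG nn → ℝ)
    (a b : GG nn × Fin q) : ℝ :=
  (∑ e, if b = (a.1 + hh C e, a.2) then we e a.1 else 0) +
    (if a.1 = b.1 ∧ a.2 ≠ b.2 then w0 q we a.1 else 0)

theorem ww_symm (C : ∀ p : ι, Code (nn p)) (q : ℕ) (we : EG nn → GG nn → ℝ)
    (hsymm : ∀ e x, we e (x + hh C e) = we e x) (a b : GG nn × Fin q) :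
    ww C q we a b = ww C q we b a := by
  unfold ww
  congr 1
  · apply Finset.sum_congr rfl
    intro e _
    have key : ∀ c d : GG nn × Fin q, d = (c.1 + hh C e, c.2) → c = (d.1 + hh C e, d.2) := by
      intro c d h
      rw [h]
      simp only
      rw [add_assoc, hh_two, add_zero]
    by_cases h : b = (a.1 + hh C e, a.2)
    · rw [if_pos h, if_pos (key a b h), h]
      simp only
      rw [hsymm]
    · rw [if_neg h, if_neg (fun h' => h (key b a h'))]
  · by_cases h : a.1 = b.1 ∧ a.2 ≠ b.2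
    · rw [if_pos h, if_pos ⟨h.1.symm, h.2.symm⟩, h.1]
    · rw [if_neg h, if_neg (fun h' => h ⟨h'.1.symm, h'.2.symm⟩)]

theorem ww_sum (C : ∀ p : ι, Code (nn p)) (q : ℕ) (we : EG nn → GG nn → ℝ)
    (a : GG nn × Fin q) (f : GG nn → ℝ) :
    ∑ b, ww C q we a b * f b.1 = (∑ e, we e a.1 * f (a.1 + hh C e)) +
      ((q : ℝ) - 1) * w0 q we a.1 * f a.1 := by
  unfold ww
  simp only [add_mul]
  rw [Finset.sum_add_distrib]
  congr 1
  · simp only [Finset.sum_mul]
    rw [Finset.sum_comm]
    apply Finset.sum_congr rfl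
    intro e _
    rw [Finset.sum_eq_single (a.1 + hh C e, a.2)]
    · simp
    · intro b _ hb
      rw [if_neg hb, zero_mul]
    · intro h
      exact absurd (Finset.mem_univ _) h
  · rw [Fintype.sum_prod_type]
    rw [Finset.sum_eq_single a.1]
    · have : ∀ j : Fin q, (if a.1 = (a.1, j).1 ∧ a.2 ≠ (a.1, j).2 then w0 q we a.1 else 0) * f (a.1, j).1
          = (if a.2 = j then 0 else w0 q we a.1 * f a.1) := by
        intro j
        by_cases h : a.2 = j
        · simp [h]
        · simp [h]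
      rw [Finset.sum_congr rfl (fun j _ => this j)]
      have h2 : ∀ j : Fin q, (if a.2 = j then (0:ℝ) else w0 q we a.1 * f a.1)
          = w0 q we a.1 * f a.1 - (if a.2 = j then w0 q we a.1 * f a.1 else 0) := by
        intro j
        by_cases h : a.2 = j <;> simp [h]
      rw [Finset.sum_congr rfl (fun j _ => h2 j)]
      rw [Finset.sum_sub_distrib, Finset.sum_const, Finset.card_univ, Fintype.card_fin,
        nsmul_eq_mul, Finset.sum_ite_eq, if_pos (Finset.mem_univ _)]
      ring
    · intro x _ hx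
      apply Finset.sum_eq_zero
      intro j _
      rw [if_neg, zero_mul]
      rintro ⟨h1, _⟩
      exact hx h1.symm
    · intro h
      exact absurd (Finset.mem_univ _) h

end P
end Pert

section P
variable {ι : Type} [Fintype ι] [DecidableEq ι] {nn : ι → ℕ}
open Pert

theorem pert_exists (C : ∀ p : ι, Code (nn p)) (q : ℕ) (K : ℝ) (hK : 2 ≤ K)
    (hn : ∀ p, 2 ≤ nn p) (hq : 2 * K * (Fintype.card (EG nn) : ℝ) ≤ (q : ℝ) - 1) (hq4 : 4 ≤ q)
    (we : EG nn → GG nn → ℝ) (hsymm : ∀ e x, we e (x + hh C e) = we e x)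
    (hb : ∀ e x, K⁻¹ ≤ we e x ∧ we e x ≤ K) :
    ∃ w : (GG nn × Fin q) → (GG nn × Fin q) → ℝ,
      (∀ a b, w a b = w b a) ∧
      (∀ a b, (gr C q).Adj a b → K⁻¹ ≤ w a b ∧ w a b ≤ K) ∧
      (∀ a b, ¬ (gr C q).Adj a b → w a b = 0) ∧
      (∀ t : ℕ, MixF w t → ∀ F : GG nn → ℝ, (∀ x, 0 ≤ F x ∧ F x ≤ 1) → ∀ x : GG nn,
        |((TT C q we)^[t] F) x - (∑ y, F y) / (Fintype.card (GG nn) : ℝ)| ≤ 1 / 4) := by
  have hqr : (4:ℝ) ≤ q := by exact_mod_cast hq4
  have hq1 : (0:ℝ) < (q:ℝ) - 1 := by linarith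
  have hDD : (DD nn q : ℝ) = (Fintype.card (EG nn) : ℝ) + ((q:ℝ) - 1) := by
    unfold DD
    rw [Nat.cast_add, Nat.cast_sub (by omega)]
    simp
  have hcard : (0:ℝ) ≤ (Fintype.card (EG nn) : ℝ) := Nat.cast_nonneg _
  have hD : (0:ℝ) < (DD nn q : ℝ) := by rw [hDD]; linarith
  have hK0 : (0:ℝ) < K := by linarith
  have hKinv : K⁻¹ ≤ 1 / 2 := by
    rw [inv_le_comm₀ hK0 (by norm_num)]
    simpa using hK
  have hKinv0 : 0 < K⁻¹ := inv_pos.mpr hK0
  have hsle : ∀ x, ∑ e, we e x ≤ K * (Fintype.card (EG nn) : ℝ) := by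
    intro x
    calc ∑ e, we e x ≤ ∑ _e : EG nn, K := Finset.sum_le_sum fun e _ => (hb e x).2
      _ = K * (Fintype.card (EG nn) : ℝ) := by
        rw [Finset.sum_const, Finset.card_univ, nsmul_eq_mul, mul_comm]
  have hsge : ∀ x, 0 ≤ ∑ e, we e x := fun x =>
    Finset.sum_nonneg fun e _ => hKinv0.le.trans (hb e x).1
  have hw0 : ∀ x, K⁻¹ ≤ w0 q we x ∧ w0 q we x ≤ K := by
    intro x
    unfold w0
    rw [hDD]
    have h1 := hsle x
    have h2 := hsge x
    constructor
    · rw [le_div_iff₀ hq1]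
      nlinarith
    · rw [div_le_iff₀ hq1]
      nlinarith
  have hsumw : ∀ a : GG nn × Fin q, ∑ b, ww C q we a b = (DD nn q : ℝ) := by
    intro a
    have := ww_sum C q we a (fun _ => 1)
    simp only [mul_one] at this
    rw [this]
    unfold w0
    field_simp
    ring
  refine ⟨ww C q we, ww_symm C q we hsymm, ?_, ?_, ?_⟩
  · rintro a b (⟨h1, h2⟩ | ⟨h1, h2, e, he⟩)
    · have : ww C q we a b = w0 q we a.1 := by
        unfold ww
        rw [if_pos ⟨h1, h2⟩, Finset.sum_eq_zero, zero_add]
        intro e _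
        rw [if_neg]
        intro h
        apply h2
        rw [h]
      rw [this]
      exact hw0 _
    · have : ww C q we a b = we e a.1 := by
        unfold ww
        rw [if_neg (fun h => h.2 h1), add_zero, Finset.sum_eq_single e]
        · rw [if_pos (show b = (a.1 + hh C e, a.2) from Prod.ext he h1.symm)]
        · intro e' _ hne
          rw [if_neg]
          intro h
          apply hne
          have h3 : b.1 = a.1 + hh C e' := by rw [h]
          rw [he] at h3
          exact (hh_inj C hn e e' (add_left_cancel h3)).symm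
        · intro h
          exact absurd (Finset.mem_univ _) h
      rw [this]
      exact hb _ _
  · intro a b hnadj
    unfold ww
    rw [if_neg (fun h => hnadj (Or.inl h)), add_zero]
    apply Finset.sum_eq_zero
    intro e _
    rw [if_neg]
    intro h
    apply hnadj
    refine Or.inr ⟨by rw [h], ?_, e, by rw [h]⟩
    intro h4
    apply hh_ne_zero C hn e
    have h3 : b.1 = a.1 + hh C e := by rw [h]
    rw [← h4] at h3
    simpa using h3.symm
  · intro t hm F hF x
    have hq0 : 0 < q := by omega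
    have := mix_apply (ww C q we) (DD nn q : ℝ) hD hsumw t hm (fun y => F y.1)
      (fun y => hF y.1) (x, ⟨0, hq0⟩)
    have hstep : ∀ g : GG nn → ℝ,
        (Matrix.of (fun a b : GG nn × Fin q => (if a = b then (1:ℝ)/2 else 0) +
          ww C q we a b / (2 * ∑ z : GG nn × Fin q, ww C q we a z))).mulVec (fun y => g y.1)
        = fun y => TT C q we g y.1 := by
      intro g
      funext a
      simp only [Matrix.mulVec, dotProduct, Matrix.of_apply, add_mul]
      rw [Finset.sum_add_distrib]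
      have h1 : ∑ b : GG nn × Fin q, (if a = b then (1:ℝ)/2 else 0) * g b.1 = 1/2 * g a.1 := by
        simp
      have h2 : ∑ b : GG nn × Fin q, ww C q we a b / (2 * ∑ z : GG nn × Fin q, ww C q we a z) * g b.1
          = (1 / (2 * (DD nn q : ℝ))) * ∑ b, ww C q we a b * g b.1 := by
        rw [hsumw, Finset.mul_sum]
        apply Finset.sum_congr rfl
        intro b _
        ring
      rw [h1, h2, ww_sum]
      unfold TT w0
      have h3 : ∑ e : EG nn, we e a.1 * (g (a.1 + hh C e) - g a.1)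
          = ∑ e : EG nn, we e a.1 * g (a.1 + hh C e) - (∑ e : EG nn, we e a.1) * g a.1 := by
        rw [Finset.sum_mul, ← Finset.sum_sub_distrib]
        apply Finset.sum_congr rfl
        intro e _
        ring
      rw [h3]
      field_simp
      ring
    have hiter : ∀ s : ℕ, (fun g : GG nn × Fin q → ℝ =>
        (Matrix.of (fun a b : GG nn × Fin q => (if a = b then (1:ℝ)/2 else 0) +
          ww C q we a b / (2 * ∑ z : GG nn × Fin q, ww C q we a z))).mulVec g)^[s] (fun y => F y.1)
        = fun y => ((TT C q we)^[s] F) y.1 := by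
      intro s
      induction s with
      | zero => rfl
      | succ s ih =>
        rw [Function.iterate_succ_apply', ih, hstep, Function.iterate_succ_apply']
    rw [hiter t] at this
    have hsumF : (∑ y : GG nn × Fin q, F y.1) / (Fintype.card (GG nn × Fin q) : ℝ)
        = (∑ y, F y) / (Fintype.card (GG nn) : ℝ) := by
      rw [Fintype.sum_prod_type, Fintype.card_prod, Fintype.card_fin]
      simp only [Finset.sum_const, Finset.card_univ, Fintype.card_fin, nsmul_eq_mul]
      rw [← Finset.mul_sum]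
      push_cast
      have hqne : (q:ℝ) ≠ 0 := by linarith
      rw [mul_comm (Fintype.card (GG nn) : ℝ), mul_div_mul_left _ _ hqne]
    rw [hsumF] at this
    exact this

end P

end Pool.H521RB
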