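import Pool.Agent.H521R4.RB.Defs

set_option autoImplicit false
set_option linter.unusedSectionVars false
open Classical

namespace Pool.H521RB
namespace Up

/-- the sign character of `ZMod 2` -/
noncomputable def sg (a : ZMod 2) : ℝ := if a = 0 then 1 else -1

theorem sg_add (a b : ZMod 2) : sg (a + b) = sg a * sg b := by
  have key : ∀ a b : ZMod 2, (a + b = 0) ↔ (a = 0 ↔ b = 0) := by decide
  unfold sg
  simp only [key]
  by_cases ha : a = 0 <;> by_cases hb : b = 0 <;> simp [ha, hb]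

theorem sg_zero : sg 0 = 1 := by simp [sg]
theorem sg_sq (a : ZMod 2) : sg a * sg a = 1 := by
  unfold sg; split_ifs <;> norm_num

section P
variable {ι : Type} [Fintype ι] [DecidableEq ι] {nn : ι → ℕ}

/-- pairing -/
def dt (u x : GG nn) : ZMod 2 := ∑ p, u p ⬝ᵥ x p

noncomputable def chi (u x : GG nn) : ℝ := sg (dt u x)

theorem dt_add (u x y : GG nn) : dt u (x + y) = dt u x + dt u y := by
  simp [dt, dotProduct_add, Finset.sum_add_distrib]
theorem dt_add' (u v x : GG nn) : dt (u + v) x = dt u x + dt v x := by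
  simp [dt, add_dotProduct, Finset.sum_add_distrib]

theorem dt_hh (C : ∀ p : ι, Code (nn p)) (u : GG nn) (e : EG nn) :
    dt u (hh C e) = u e.1 ⬝ᵥ (C e.1).h e.2 := by
  unfold dt hh
  rw [Finset.sum_eq_single e.1]
  · simp
  · intro p _ hp
    rw [Pi.single_eq_of_ne hp]; simp
  · intro h; exact absurd (Finset.mem_univ _) h

theorem chi_add (u x y : GG nn) : chi u (x + y) = chi u x * chi u y := by
  simp [chi, dt_add, sg_add]
theorem chi_add' (u v x : GG nn) : chi (u + v) x = chi u x * chi v x := by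
  simp [chi, dt_add', sg_add]
theorem chi_zero (u : GG nn) : chi u 0 = 1 := by
  simp [chi, dt, sg]
theorem chi_zero' (x : GG nn) : chi 0 x = 1 := by
  simp [chi, dt, sg]
theorem add_self (x : GG nn) : x + x = 0 := by
  funext p; funext j
  have : ∀ z : ZMod 2, z + z = 0 := by decide
  exact this _

theorem chi_sum (x : GG nn) : ∑ u : GG nn, chi u x = if x = 0 then (Fintype.card (GG nn) : ℝ) else 0 := by
  split_ifs with h
  · subst h; simp [chi_zero]
  · have : ∃ p j, x p j ≠ 0 := by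
      by_contra hc; push Not at hc
      exact h (by funext p; funext j; exact hc p j)
    obtain ⟨p, j, hpj⟩ := this
    set v : GG nn := Pi.single p (Pi.single j 1) with hv
    have hchi : chi v x = -1 := by
      have : dt v x = x p j := by
        unfold dt
        rw [Finset.sum_eq_single p]
        · simp [hv]
        · intro p' _ hp'
          rw [hv, Pi.single_eq_of_ne hp']; simp
        · intro h; exact absurd (Finset.mem_univ _) h
      simp [chi, this, sg, hpj]
    have h1 : ∑ u : GG nn, chi u x = ∑ u : GG nn, chi (u + v) x :=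
      (Fintype.sum_equiv (Equiv.addRight v) (fun u => chi (u + v) x) (fun u => chi u x) (fun u => rfl)).symm
    have h2 : ∑ u : GG nn, chi (u + v) x = - ∑ u : GG nn, chi u x := by
      rw [← Finset.sum_neg_distrib]
      refine Finset.sum_congr rfl fun u _ => ?_
      rw [chi_add', hchi]; ring
    linarith


theorem hh_ne_zero (C : ∀ p : ι, Code (nn p)) (hn : ∀ p, 2 ≤ nn p) (e : EG nn) : hh C e ≠ 0 := by
  intro h
  have h1 : (C e.1).h e.2 = 0 := by
    have := congrFun h e.1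
    simpa [hh] using this
  have h2 := (C e.1).dist {e.2} (Finset.singleton_nonempty _) (by simp; linarith [hn e.1])
  simp at h2
  exact h2 h1

theorem hh_inj (C : ∀ p : ι, Code (nn p)) (hn : ∀ p, 2 ≤ nn p) : Function.Injective (hh C) := by
  rintro ⟨p, i⟩ ⟨p', i'⟩ h
  by_cases hp : p = p'
  · subst hp
    have h1 : (C p).h i = (C p).h i' := by
      have := congrFun h p
      simpa [hh] using this
    by_cases hi : i = i'
    · subst hi; rfl
    · exfalso
      have h2 := (C p).dist {i, i'} ⟨i, by simp⟩ (by rw [Finset.card_pair hi]; exact hn p)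
      rw [Finset.sum_pair hi, h1] at h2
      apply h2
      funext j
      have : ∀ z : ZMod 2, z + z = 0 := by decide
      exact this _
  · exfalso
    have h1 : (C p).h i = 0 := by
      have := congrFun h p
      simpa [hh, Pi.single_eq_of_ne hp] using this
    have h2 := (C p).dist {i} (Finset.singleton_nonempty _) (by simp; linarith [hn p])
    simp at h2
    exact h2 h1

theorem w_eq (C : ∀ p : ι, Code (nn p)) (q : ℕ) (hn : ∀ p, 2 ≤ nn p) (a : GG nn × Fin q) (y : GG nn) (j : Fin q) :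
    (if (gr C q).Adj a (y, j) then (1:ℝ) else 0) =
      (if a.1 = y then 1 else 0) - (if a = (y, j) then 1 else 0) +
      ∑ e : EG nn, (if a = (y + hh C e, j) then (1:ℝ) else 0) := by
  obtain ⟨x, i⟩ := a
  have hsum : ∑ e : EG nn, (if ((x, i) : GG nn × Fin q) = (y + hh C e, j) then (1:ℝ) else 0) =
      if (i = j ∧ ∃ e, x = y + hh C e) then 1 else 0 := by
    split_ifs with h
    · obtain ⟨h1, e, he⟩ := h
      rw [Finset.sum_eq_single e]
      · simp [h1, he]
      · intro e' _ hee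
        rw [if_neg]
        intro hc
        rw [Prod.mk.injEq] at hc
        exact hee (hh_inj C hn (add_left_cancel (hc.1.symm.trans he)))
      · intro h; exact absurd (Finset.mem_univ _) h
    · apply Finset.sum_eq_zero
      intro e _
      rw [if_neg]
      intro hc
      rw [Prod.mk.injEq] at hc
      exact h ⟨hc.2, e, hc.1⟩
  rw [hsum]
  have hadj : (gr C q).Adj (x, i) (y, j) ↔ (x = y ∧ i ≠ j) ∨ (i = j ∧ ∃ e, x = y + hh C e) := by
    show ((x = y ∧ i ≠ j) ∨ (i = j ∧ x ≠ y ∧ ∃ e : EG nn, y = x + hh C e)) ↔ _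
    constructor
    · rintro (h | ⟨h1, h2, e, he⟩)
      · exact Or.inl h
      · exact Or.inr ⟨h1, e, by rw [he, add_assoc, add_self, add_zero]⟩
    · rintro (h | ⟨h1, e, he⟩)
      · exact Or.inl h
      · refine Or.inr ⟨h1, ?_, e, by rw [he, add_assoc, add_self, add_zero]⟩
        intro hxy
        rw [hxy] at he
        exact hh_ne_zero C hn e (by simpa using he)
  have hne : ∀ e : EG nn, ¬ (y = y + hh C e) := fun e he => hh_ne_zero C hn e (by simpa using he)
  simp only [hadj]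
  by_cases hxy : x = y
  · subst hxy
    by_cases hij : i = j
    · subst hij
      have : ¬ ∃ e, x = x + hh C e := by
        rintro ⟨e, he⟩
        exact hne e he
      rw [if_neg (by tauto), if_pos rfl, if_pos rfl, if_neg (by tauto)]; norm_num
    · rw [if_pos (by tauto), if_pos rfl, if_neg (by simp [hij]), if_neg (by tauto)]; norm_num
  · rw [if_neg hxy, if_neg (by simp [hxy] : ¬ ((x, i) : GG nn × Fin q) = (y, j))]
    by_cases h : i = j ∧ ∃ e, x = y + hh C e
    · rw [if_pos (Or.inr h), if_pos h]; norm_num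
    · rw [if_neg (by tauto), if_neg h]; norm_num

theorem w_sum (C : ∀ p : ι, Code (nn p)) (q : ℕ) (hn : ∀ p, 2 ≤ nn p) (f : GG nn × Fin q → ℝ) (y : GG nn) (j : Fin q) :
    ∑ a, f a * (if (gr C q).Adj a (y, j) then (1:ℝ) else 0) =
      ∑ k, f (y, k) - f (y, j) + ∑ e : EG nn, f (y + hh C e, j) := by
  simp_rw [w_eq C q hn, mul_add, mul_sub, Finset.sum_add_distrib, Finset.sum_sub_distrib, Finset.mul_sum]
  congr 1
  · congr 1
    · rw [Fintype.sum_prod_type, Finset.sum_eq_single y]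
      · simp
      · intro x _ hx
        apply Finset.sum_eq_zero
        intro i _
        simp [hx]
      · intro h; exact absurd (Finset.mem_univ _) h
    · simp
  · rw [Finset.sum_comm]
    simp


noncomputable def lam (C : ∀ p : ι, Code (nn p)) (u : GG nn) : ℝ := ∑ e : EG nn, chi u (hh C e)
noncomputable def al (C : ∀ p : ι, Code (nn p)) (q : ℕ) (u : GG nn) : ℝ :=
  1 / 2 + (lam C u + q - 1) / (2 * (DD nn q : ℝ))
noncomputable def be (C : ∀ p : ι, Code (nn p)) (q : ℕ) (u : GG nn) : ℝ :=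
  1 / 2 + (lam C u - 1) / (2 * (DD nn q : ℝ))
noncomputable def bb (C : ∀ p : ι, Code (nn p)) (q t : ℕ) (u : GG nn) (i j : Fin q) : ℝ :=
  (1 / (q : ℝ)) * al C q u ^ t + ((if i = j then 1 else 0) - 1 / (q : ℝ)) * be C q u ^ t
noncomputable def KK (C : ∀ p : ι, Code (nn p)) (q t : ℕ) (a b : GG nn × Fin q) : ℝ :=
  (1 / (Fintype.card (GG nn) : ℝ)) * ∑ u : GG nn, chi u (a.1 + b.1) * bb C q t u a.2 b.2

/-- the unweighted weights -/
noncomputable def W (C : ∀ p : ι, Code (nn p)) (q : ℕ) (a b : GG nn × Fin q) : ℝ :=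
  if (gr C q).Adj a b then (1:ℝ) else 0

theorem W_symm (C : ∀ p : ι, Code (nn p)) (q : ℕ) (a b : GG nn × Fin q) : W C q a b = W C q b a := by
  unfold W
  simp only [(gr C q).adj_comm a b]

theorem W_row (C : ∀ p : ι, Code (nn p)) (q : ℕ) (hq : 0 < q) (hn : ∀ p, 2 ≤ nn p) (a : GG nn × Fin q) :
    ∑ b, W C q a b = (DD nn q : ℝ) := by
  obtain ⟨y, j⟩ := a
  have := w_sum C q hn (fun _ => 1) y j
  simp only [one_mul] at this
  rw [Finset.sum_congr rfl (fun b _ => W_symm C q (y, j) b)]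
  unfold W
  rw [this]
  simp only [Finset.sum_const, Finset.card_univ, Fintype.card_fin, nsmul_eq_mul, mul_one, DD]
  push_cast [Nat.cast_sub hq]
  ring

noncomputable def Pm (C : ∀ p : ι, Code (nn p)) (q : ℕ) : Matrix (GG nn × Fin q) (GG nn × Fin q) ℝ :=
  Matrix.of (fun a b => (if a = b then (1:ℝ)/2 else 0) + W C q a b / (2 * ∑ z, W C q a z))

theorem bb_sum (C : ∀ p : ι, Code (nn p)) (q t : ℕ) (hq : 0 < q) (u : GG nn) (i : Fin q) :
    ∑ k, bb C q t u i k = al C q u ^ t := by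
  have hq' : (q : ℝ) ≠ 0 := by positivity
  have h1 : ∑ k : Fin q, (if i = k then (1:ℝ) else 0) = 1 := by simp
  unfold bb
  simp only [sub_mul, Finset.sum_add_distrib, Finset.sum_sub_distrib, ← Finset.sum_mul, h1, Finset.sum_const,
    Finset.card_univ, Fintype.card_fin, nsmul_eq_mul]
  field_simp
  ring

theorem bb_succ (C : ∀ p : ι, Code (nn p)) (q t : ℕ) (hq : 0 < q) (hD : (DD nn q : ℝ) ≠ 0) (u : GG nn) (i j : Fin q) :
    bb C q (t + 1) u i j = bb C q t u i j / 2 +
      (al C q u ^ t - bb C q t u i j + lam C u * bb C q t u i j) / (2 * (DD nn q : ℝ)) := by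
  have hq' : (q : ℝ) ≠ 0 := by positivity
  have h1 : al C q u ^ (t + 1) = al C q u ^ t * (1 / 2 + (lam C u + q - 1) / (2 * (DD nn q : ℝ))) := by
    rw [pow_succ, al]
  have h2 : be C q u ^ (t + 1) = be C q u ^ t * (1 / 2 + (lam C u - 1) / (2 * (DD nn q : ℝ))) := by
    rw [pow_succ, be]
  unfold bb
  rw [h1, h2]
  generalize al C q u ^ t = A
  generalize be C q u ^ t = B
  generalize (if i = j then (1:ℝ) else 0) = d
  field_simp
  ring

theorem pow_eq (C : ∀ p : ι, Code (nn p)) (q : ℕ) (hq : 0 < q) (hn : ∀ p, 2 ≤ nn p) (hD : (DD nn q : ℝ) ≠ 0)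
    (t : ℕ) (a b : GG nn × Fin q) : (Pm C q ^ t) a b = KK C q t a b := by
  have hG : (Fintype.card (GG nn) : ℝ) ≠ 0 := by
    have : 0 < Fintype.card (GG nn) := Fintype.card_pos
    positivity
  induction t generalizing a b with
  | zero =>
    rw [pow_zero, Matrix.one_apply]
    unfold KK bb
    simp only [pow_zero, mul_one]
    rw [← Finset.sum_mul, chi_sum]
    by_cases h1 : a.1 = b.1
    · rw [h1, add_self, if_pos rfl]
      by_cases h2 : a.2 = b.2
      · have : a = b := Prod.ext h1 h2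
        rw [if_pos this, if_pos h2]; field_simp; ring
      · have : a ≠ b := fun h => h2 (by rw [h])
        rw [if_neg this, if_neg h2]; field_simp; ring
    · have : a ≠ b := fun h => h1 (by rw [h])
      have h3 : a.1 + b.1 ≠ 0 := by
        intro h
        apply h1
        have := congrArg (· + b.1) h
        simpa [add_assoc, add_self] using this
      rw [if_neg this, if_neg h3]; ring
  | succ t ih =>
    obtain ⟨y, j⟩ := b
    rw [pow_succ, Matrix.mul_apply]
    have hP : ∀ c, (Pm C q) c (y, j) = (if c = (y, j) then (1:ℝ)/2 else 0) + (1 / (2 * (DD nn q : ℝ))) * (if (gr C q).Adj c (y, j) then (1:ℝ) else 0) := by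
      intro c
      show (if c = (y, j) then (1:ℝ)/2 else 0) + W C q c (y, j) / (2 * ∑ z, W C q c z) = _
      rw [W_row C q hq hn, W]
      ring
    have h1 : ∑ c, (Pm C q ^ t) a c * (Pm C q) c (y, j) =
        KK C q t a (y, j) / 2 + (1 / (2 * (DD nn q : ℝ))) * ∑ c, KK C q t a c * (if (gr C q).Adj c (y, j) then (1:ℝ) else 0) := by
      rw [Finset.mul_sum]
      simp_rw [ih, hP, mul_add, Finset.sum_add_distrib]
      congr 1
      · simp [mul_ite]
        ring
      · refine Finset.sum_congr rfl fun c _ => ?_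
        ring
    rw [h1, w_sum C q hn]
    have h2 : ∑ k, KK C q t a (y, k) = (1 / (Fintype.card (GG nn) : ℝ)) * ∑ u : GG nn, chi u (a.1 + y) * al C q u ^ t := by
      unfold KK
      rw [← Finset.mul_sum, Finset.sum_comm]
      congr 1
      refine Finset.sum_congr rfl fun u _ => ?_
      show ∑ k, chi u (a.1 + y) * bb C q t u a.2 k = _
      rw [← Finset.mul_sum, bb_sum C q t hq]
    have h3 : ∑ e : EG nn, KK C q t a (y + hh C e, j) = (1 / (Fintype.card (GG nn) : ℝ)) * ∑ u : GG nn, chi u (a.1 + y) * (lam C u * bb C q t u a.2 j) := by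
      unfold KK
      rw [← Finset.mul_sum, Finset.sum_comm]
      congr 1
      refine Finset.sum_congr rfl fun u _ => ?_
      unfold lam
      rw [Finset.sum_mul, Finset.mul_sum]
      refine Finset.sum_congr rfl fun e _ => ?_
      rw [← add_assoc, chi_add]
      ring
    rw [h2, h3]
    unfold KK
    have h4 : ∀ u : GG nn, chi u (a.1 + y) * bb C q (t + 1) u a.2 j =
        chi u (a.1 + y) * bb C q t u a.2 j / 2 + (1 / (2 * (DD nn q : ℝ))) *
          (chi u (a.1 + y) * al C q u ^ t - chi u (a.1 + y) * bb C q t u a.2 j + chi u (a.1 + y) * (lam C u * bb C q t u a.2 j)) := by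
      intro u
      rw [bb_succ C q t hq hD]
      field_simp
    simp only
    rw [Finset.sum_congr rfl (fun u _ => h4 u), Finset.sum_add_distrib, ← Finset.mul_sum, Finset.sum_add_distrib, Finset.sum_sub_distrib,
      ← Finset.sum_div]
    ring


theorem KK_symm (C : ∀ p : ι, Code (nn p)) (q t : ℕ) (a b : GG nn × Fin q) : KK C q t a b = KK C q t b a := by
  unfold KK bb
  rw [add_comm a.1 b.1]
  simp only [eq_comm (a := a.2) (b := b.2)]

theorem row_one (C : ∀ p : ι, Code (nn p)) (q : ℕ) (hq : 0 < q) (hn : ∀ p, 2 ≤ nn p) (hD : (DD nn q : ℝ) ≠ 0)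
    (t : ℕ) (a : GG nn × Fin q) : ∑ b, (Pm C q ^ t) a b = 1 := by
  induction t generalizing a with
  | zero => simp [Matrix.one_apply]
  | succ t ih =>
    rw [pow_succ]
    simp_rw [Matrix.mul_apply]
    rw [Finset.sum_comm]
    have h1 : ∀ c, ∑ b, (Pm C q) c b = 1 := by
      intro c
      show ∑ b, ((if c = b then (1:ℝ)/2 else 0) + W C q c b / (2 * ∑ z, W C q c z)) = 1
      rw [Finset.sum_add_distrib, ← Finset.sum_div, W_row C q hq hn]
      simp
      field_simp
      norm_num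
    simp_rw [← Finset.mul_sum, h1, mul_one]
    exact ih a

theorem sq_sum (C : ∀ p : ι, Code (nn p)) (q : ℕ) (hq : 0 < q) (hn : ∀ p, 2 ≤ nn p) (hD : (DD nn q : ℝ) ≠ 0)
    (t : ℕ) (a : GG nn × Fin q) : ∑ b, (Pm C q ^ t) a b ^ 2 =
      (1 / ((Fintype.card (GG nn) : ℝ) * q)) * ∑ u : GG nn, (al C q u ^ (2 * t) + (q - 1) * be C q u ^ (2 * t)) := by
  have hq' : (q : ℝ) ≠ 0 := by positivity
  have h1 : ∑ b, (Pm C q ^ t) a b ^ 2 = (Pm C q ^ (2 * t)) a a := by
    rw [two_mul, pow_add, Matrix.mul_apply]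
    refine Finset.sum_congr rfl fun b _ => ?_
    rw [pow_eq C q hq hn hD t b a, KK_symm, ← pow_eq C q hq hn hD t a b]
    ring
  rw [h1, pow_eq C q hq hn hD]
  unfold KK bb
  rw [add_self]
  simp only [chi_zero, if_true, one_mul]
  rw [Finset.mul_sum, Finset.mul_sum]
  refine Finset.sum_congr rfl fun u _ => ?_
  field_simp

theorem mix_of_bound (C : ∀ p : ι, Code (nn p)) (q : ℕ) (hq : 0 < q) (hn : ∀ p, 2 ≤ nn p) (hD : (DD nn q : ℝ) ≠ 0)
    (t : ℕ) (hb : ∑ u : GG nn, (al C q u ^ (2 * t) + (q - 1) * be C q u ^ (2 * t)) ≤ 5 / 4) :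
    MixF (fun a b => if (gr C q).Adj a b then (1:ℝ) else 0) t := by
  have hq' : (0 : ℝ) < q := by positivity
  have hG : (0 : ℝ) < (Fintype.card (GG nn) : ℝ) := by
    have : 0 < Fintype.card (GG nn) := Fintype.card_pos
    positivity
  intro x
  have hrow : ∀ y : GG nn × Fin q, ∑ z, (if (gr C q).Adj y z then (1:ℝ) else 0) = (DD nn q : ℝ) := fun y => W_row C q hq hn y
  have hrat : ∀ y : GG nn × Fin q, (∑ z, (if (gr C q).Adj y z then (1:ℝ) else 0)) /
      (∑ a : GG nn × Fin q, ∑ b, (if (gr C q).Adj a b then (1:ℝ) else 0)) = 1 / ((Fintype.card (GG nn) : ℝ) * q) := by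
    intro y
    rw [Finset.sum_congr rfl (fun a _ => hrow a), hrow]
    simp only [Finset.sum_const, Finset.card_univ, Fintype.card_prod, Fintype.card_fin, nsmul_eq_mul]
    push_cast
    field_simp
  simp only [hrat]
  have hP : (Matrix.of (fun a b : GG nn × Fin q => (if a = b then (1:ℝ)/2 else 0) + (if (gr C q).Adj a b then (1:ℝ) else 0) / (2 * ∑ z, (if (gr C q).Adj a z then (1:ℝ) else 0)))) = Pm C q := rfl
  have hgoal : ∑ y, 1 / ((Fintype.card (GG nn) : ℝ) * q) * ((Pm C q ^ t) x y / (1 / ((Fintype.card (GG nn) : ℝ) * q)) - 1) ^ 2 ≤ 1 / 4 := by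
    set N : ℝ := (Fintype.card (GG nn) : ℝ) * q with hN
    have hN0 : 0 < N := by positivity
    have h1 : ∀ y, 1 / N * ((Pm C q ^ t) x y / (1 / N) - 1) ^ 2 = N * (Pm C q ^ t) x y ^ 2 - 2 * (Pm C q ^ t) x y + 1 / N := by
      intro y
      field_simp
      ring
    simp_rw [h1]
    rw [Finset.sum_add_distrib, Finset.sum_sub_distrib, ← Finset.mul_sum, ← Finset.mul_sum, sq_sum C q hq hn hD, row_one C q hq hn hD,
      ← hN]
    simp only [Finset.sum_const, Finset.card_univ, Fintype.card_prod, Fintype.card_fin, nsmul_eq_mul]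
    push_cast
    rw [← hN, ← mul_assoc, mul_one_div_cancel hN0.ne']
    linarith
  exact hgoal


/-- weight of a functional on one factor -/
noncomputable def wt {n : ℕ} (C : Code n) (a : AA n) : ℝ := ∑ i : EE n, if a ⬝ᵥ C.h i ≠ 0 then (1:ℝ) else 0
noncomputable def ww (C : ∀ p : ι, Code (nn p)) (u : GG nn) : ℝ := ∑ p, wt (C p) (u p)

theorem sg_eq (z : ZMod 2) : sg z = 1 - 2 * (if z ≠ 0 then (1:ℝ) else 0) := by
  unfold sg
  by_cases h : z = 0 <;> simp [h]; norm_num

theorem lam_eq (C : ∀ p : ι, Code (nn p)) (u : GG nn) :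
    lam C u = (Fintype.card (EG nn) : ℝ) - 2 * ww C u := by
  unfold lam chi ww wt
  simp only [dt_hh, sg_eq]
  rw [Finset.sum_sub_distrib, ← Finset.mul_sum]
  simp only [Finset.sum_const, Finset.card_univ, nsmul_eq_mul, mul_one]
  congr 2
  rw [Fintype.sum_sigma]

theorem ww_nonneg (C : ∀ p : ι, Code (nn p)) (u : GG nn) : 0 ≤ ww C u := by
  unfold ww wt
  apply Finset.sum_nonneg; intro p _
  apply Finset.sum_nonneg; intro i _
  split_ifs <;> norm_num

theorem ww_le (C : ∀ p : ι, Code (nn p)) (u : GG nn) : ww C u ≤ (Fintype.card (EG nn) : ℝ) := by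
  have : (Fintype.card (EG nn) : ℝ) = ∑ p : ι, ∑ i : EE (nn p), (1:ℝ) := by
    simp [Fintype.card_sigma]
  rw [this]
  unfold ww wt
  apply Finset.sum_le_sum; intro p _
  apply Finset.sum_le_sum; intro i _
  split_ifs <;> norm_num

theorem wt_ge {n : ℕ} (C : Code n) (a : AA n) (ha : a ≠ 0) : (n : ℝ) ≤ wt C a := by
  have := C.wt a ha
  unfold wt
  rw [Finset.sum_boole]
  exact_mod_cast this

theorem wt_nonneg {n : ℕ} (C : Code n) (a : AA n) : 0 ≤ wt C a := by
  unfold wt
  apply Finset.sum_nonneg; intro i _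
  split_ifs <;> norm_num

theorem DD_cast (q : ℕ) (hq : 0 < q) : (DD nn q : ℝ) = (Fintype.card (EG nn) : ℝ) + q - 1 := by
  unfold DD
  push_cast [Nat.cast_sub hq]
  ring

theorem al_eq (C : ∀ p : ι, Code (nn p)) (q : ℕ) (hq : 0 < q) (hD : (0:ℝ) < (DD nn q : ℝ)) (u : GG nn) :
    al C q u = 1 - ww C u / (DD nn q : ℝ) := by
  unfold al
  rw [lam_eq]
  have h := DD_cast (nn := nn) q hq
  have h2 : (Fintype.card (EG nn) : ℝ) = (DD nn q : ℝ) - q + 1 := by linarith
  rw [h2]
  field_simp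
  ring

theorem al_pow (C : ∀ p : ι, Code (nn p)) (q t : ℕ) (hq : 0 < q) (hD : (0:ℝ) < (DD nn q : ℝ)) (ht : 4 * DD nn q ≤ t)
    (u : GG nn) : al C q u ^ (2 * t) ≤ Real.exp (-(8 * ww C u)) := by
  have h0 := ww_nonneg C u
  have h1 := ww_le C u
  have hDc := DD_cast (nn := nn) q hq
  have hq1 : (1:ℝ) ≤ q := by exact_mod_cast hq
  have hal0 : 0 ≤ al C q u := by
    rw [al_eq C q hq hD]
    have : ww C u / (DD nn q : ℝ) ≤ 1 := by
      rw [div_le_one hD]; linarith
    linarith
  have hal1 : al C q u ≤ Real.exp (-(ww C u / (DD nn q : ℝ))) := by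
    rw [al_eq C q hq hD]
    have := Real.add_one_le_exp (-(ww C u / (DD nn q : ℝ)))
    linarith
  calc al C q u ^ (2 * t) ≤ Real.exp (-(ww C u / (DD nn q : ℝ))) ^ (2 * t) := pow_le_pow_left₀ hal0 hal1 _
    _ = Real.exp (((2 * t : ℕ) : ℝ) * (-(ww C u / (DD nn q : ℝ)))) := by rw [← Real.exp_nat_mul]
    _ ≤ Real.exp (-(8 * ww C u)) := by
      apply Real.exp_le_exp.mpr
      have ht' : 4 * (DD nn q : ℝ) ≤ t := by exact_mod_cast ht
      have h3 : 8 * ww C u ≤ ((2 * t : ℕ) : ℝ) * (ww C u / (DD nn q : ℝ)) := by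
        rw [mul_div_assoc', le_div_iff₀ hD]
        push_cast
        nlinarith
      linarith

/-- factor bound -/
noncomputable def gf {n : ℕ} (a : AA n) : ℝ := if a = 0 then 1 else Real.exp (-(8 * (n : ℝ)))

theorem exp_ww_le (C : ∀ p : ι, Code (nn p)) (u : GG nn) : Real.exp (-(8 * ww C u)) ≤ ∏ p, gf (u p) := by
  have : -(8 * ww C u) = ∑ p, (-(8 * wt (C p) (u p))) := by
    unfold ww
    rw [Finset.mul_sum, Finset.sum_neg_distrib]
  rw [this, Real.exp_sum]
  apply Finset.prod_le_prod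
  · intro p _; positivity
  · intro p _
    unfold gf
    split_ifs with h
    · apply Real.exp_le_one_iff.mpr
      have := wt_nonneg (C p) (u p)
      linarith
    · apply Real.exp_le_exp.mpr
      have := wt_ge (C p) (u p) h
      linarith

theorem exp8 : 256 * Real.exp (-8) ≤ 1 / 11 := by
  have h1 : (2.7182818283 : ℝ) < Real.exp 1 := Real.exp_one_gt_d9
  have h2 : Real.exp 8 = Real.exp 1 ^ 8 := by
    rw [← Real.exp_nat_mul]; norm_num
  have h3 : (2816 : ℝ) ≤ Real.exp 8 := by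
    rw [h2]
    calc (2816 : ℝ) ≤ (2.7182818283 : ℝ) ^ 8 := by norm_num
      _ ≤ _ := pow_le_pow_left₀ (by norm_num) h1.le 8
  rw [Real.exp_neg]
  rw [← div_eq_mul_inv, div_le_div_iff₀ (Real.exp_pos _) (by norm_num)]
  linarith

theorem gf_sum (n : ℕ) : ∑ a : AA n, gf a ≤ 1 + (1 / 11 : ℝ) ^ n := by
  have hle : ∀ a : AA n, gf a ≤ (if a = 0 then 1 else 0) + Real.exp (-(8 * (n:ℝ))) := by
    intro a
    unfold gf
    have := Real.exp_pos (-(8 * (n:ℝ)))
    split_ifs <;> linarith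
  calc ∑ a : AA n, gf a ≤ ∑ a : AA n, ((if a = 0 then (1:ℝ) else 0) + Real.exp (-(8 * (n:ℝ)))) :=
        Finset.sum_le_sum fun a _ => hle a
    _ = 1 + (256 * Real.exp (-8)) ^ n := by
      rw [Finset.sum_add_distrib]
      simp only [Finset.sum_ite_eq', Finset.mem_univ, if_true, Finset.sum_const, Finset.card_univ, nsmul_eq_mul]
      have h1 : Fintype.card (AA n) = 256 ^ n := by
        simp [AA, ZMod.card, pow_mul]
      rw [h1, mul_pow, ← Real.exp_nat_mul]
      push_cast
      congr 3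
      ring
    _ ≤ 1 + (1 / 11 : ℝ) ^ n := by
      have := pow_le_pow_left₀ (by positivity) exp8 n
      linarith

theorem al_sum (C : ∀ p : ι, Code (nn p)) (q t : ℕ) (hq : 0 < q) (hD : (0:ℝ) < (DD nn q : ℝ)) (ht : 4 * DD nn q ≤ t)
    (hs : ∑ p, (1 / 11 : ℝ) ^ (nn p) ≤ 1 / 32) :
    ∑ u : GG nn, al C q u ^ (2 * t) ≤ 17 / 16 := by
  calc ∑ u : GG nn, al C q u ^ (2 * t) ≤ ∑ u : GG nn, ∏ p, gf (u p) :=
        Finset.sum_le_sum fun u _ => (al_pow C q t hq hD ht u).trans (exp_ww_le C u)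
    _ = ∏ p, ∑ a : AA (nn p), gf a := by
      rw [Finset.prod_univ_sum, Fintype.piFinset_univ]
    _ ≤ ∏ p : ι, Real.exp ((1 / 11 : ℝ) ^ (nn p)) := by
      apply Finset.prod_le_prod
      · intro p _
        apply Finset.sum_nonneg; intro a _
        unfold gf; split_ifs <;> positivity
      · intro p _
        have := Real.add_one_le_exp ((1 / 11 : ℝ) ^ (nn p))
        linarith [gf_sum (nn p)]
    _ = Real.exp (∑ p, (1 / 11 : ℝ) ^ (nn p)) := by rw [Real.exp_sum]
    _ ≤ Real.exp (1 / 32) := Real.exp_le_exp.mpr hs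
    _ ≤ 17 / 16 := by
      have h := Real.add_one_le_exp (-(1 / 32 : ℝ))
      rw [Real.exp_neg] at h
      have hp := Real.exp_pos (1 / 32 : ℝ)
      have h2 : (31 / 32 : ℝ) * Real.exp (1 / 32) ≤ 1 := by
        have : (31 / 32 : ℝ) ≤ (Real.exp (1 / 32))⁻¹ := by linarith
        calc (31 / 32 : ℝ) * Real.exp (1 / 32) ≤ (Real.exp (1 / 32))⁻¹ * Real.exp (1 / 32) := by gcongr
          _ = 1 := inv_mul_cancel₀ hp.ne'
      linarith

theorem be_sum (C : ∀ p : ι, Code (nn p)) (q t : ℕ) (hq : 4 ≤ q) (ht : 4 * DD nn q ≤ t)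
    (hq3 : Fintype.card (EG nn) + 1 ≤ q - 1) :
    ∑ u : GG nn, ((q:ℝ) - 1) * be C q u ^ (2 * t) ≤ 1 / 8 := by
  have hq0 : 0 < q := by omega
  have hDc := DD_cast (nn := nn) q hq0
  have hE : (Fintype.card (EG nn) : ℝ) + 2 ≤ q := by
    have : Fintype.card (EG nn) + 2 ≤ q := by omega
    exact_mod_cast this
  have hE0 : (0:ℝ) ≤ (Fintype.card (EG nn) : ℝ) := by positivity
  have hD : (0:ℝ) < (DD nn q : ℝ) := by linarith
  have hq1 : (4:ℝ) ≤ q := by exact_mod_cast hq
  have hbe : ∀ u : GG nn, be C q u ^ (2 * t) ≤ (3 / 4 : ℝ) ^ (2 * t) := by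
    intro u
    have h0 := ww_nonneg C u
    have h1 := ww_le C u
    have hlam := lam_eq C u
    have hb0 : 0 ≤ be C q u := by
      unfold be
      have : -(1/2 : ℝ) ≤ (lam C u - 1) / (2 * (DD nn q : ℝ)) := by
        rw [le_div_iff₀ (by positivity)]
        linarith
      linarith
    have hb1 : be C q u ≤ 3 / 4 := by
      unfold be
      have : (lam C u - 1) / (2 * (DD nn q : ℝ)) ≤ 1 / 4 := by
        rw [div_le_iff₀ (by positivity)]
        linarith
      linarith
    exact pow_le_pow_left₀ hb0 hb1 _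
  have h34 : (3 / 4 : ℝ) ^ (2 * t) ≤ (1 / 9 : ℝ) ^ (DD nn q) := by
    calc (3 / 4 : ℝ) ^ (2 * t) ≤ (3 / 4 : ℝ) ^ (8 * DD nn q) :=
          pow_le_pow_of_le_one (by norm_num) (by norm_num) (by omega)
      _ = ((3 / 4 : ℝ) ^ 8) ^ (DD nn q) := by rw [pow_mul]
      _ ≤ _ := pow_le_pow_left₀ (by norm_num) (by norm_num) _
  have hcard : (Fintype.card (GG nn) : ℝ) * ((q : ℝ) - 1) ≤ 2 ^ (DD nn q) := by
    have h1 : Fintype.card (GG nn) = 2 ^ (∑ p, 8 * nn p) := by
      have : Fintype.card (GG nn) = ∏ p : ι, Fintype.card (AA (nn p)) := by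
        simp [GG, Fintype.card_pi]
      rw [this, ← Finset.prod_pow_eq_pow_sum]
      refine Finset.prod_congr rfl fun p _ => ?_
      simp [AA, ZMod.card]
    have h2 : Fintype.card (EG nn) = ∑ p, 16 * nn p := by
      simp [EG, Fintype.card_sigma]
    have h3 : Fintype.card (GG nn) ≤ 2 ^ (Fintype.card (EG nn)) := by
      rw [h1, h2]
      apply Nat.pow_le_pow_right (by norm_num)
      apply Finset.sum_le_sum; intro p _; omega
    have h4 : q - 1 ≤ 2 ^ (q - 1) := (Nat.lt_two_pow_self).le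
    have h5 : Fintype.card (GG nn) * (q - 1) ≤ 2 ^ (DD nn q) := by
      rw [DD, pow_add]
      exact Nat.mul_le_mul h3 h4
    have h6 : ((q - 1 : ℕ) : ℝ) = (q : ℝ) - 1 := by push_cast [Nat.cast_sub hq0]; ring
    rw [← h6]
    exact_mod_cast h5
  calc ∑ u : GG nn, ((q:ℝ) - 1) * be C q u ^ (2 * t) ≤ ∑ u : GG nn, ((q:ℝ) - 1) * (1 / 9 : ℝ) ^ (DD nn q) := by
        apply Finset.sum_le_sum; intro u _
        apply mul_le_mul_of_nonneg_left ((hbe u).trans h34) (by linarith)
    _ = ((Fintype.card (GG nn) : ℝ) * ((q : ℝ) - 1)) * (1 / 9 : ℝ) ^ (DD nn q) := by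
      simp only [Finset.sum_const, Finset.card_univ, nsmul_eq_mul]; ring
    _ ≤ 2 ^ (DD nn q) * (1 / 9 : ℝ) ^ (DD nn q) := by gcongr
    _ = (2 / 9 : ℝ) ^ (DD nn q) := by rw [← mul_pow]; norm_num
    _ ≤ (2 / 9 : ℝ) ^ 3 := pow_le_pow_of_le_one (by norm_num) (by norm_num) (by unfold DD; omega)
    _ ≤ 1 / 8 := by norm_num

end P
end Up

section P
variable {ι : Type} [Fintype ι] [DecidableEq ι] {nn : ι → ℕ}

theorem unpert_mix (C : ∀ p : ι, Code (nn p)) (q : ℕ) (hq : 4 ≤ q)
    (hq2 : 16 * ∑ p, nn p ≤ q) (hq3 : Fintype.card (EG nn) + 1 ≤ q - 1)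
    (hs : ∑ p, (1 / 11 : ℝ) ^ (nn p) ≤ 1 / 32) (t : ℕ) (ht : 4 * DD nn q ≤ t) :
    MixF (fun a b => if (gr C q).Adj a b then (1:ℝ) else 0) t := by
  have hq0 : 0 < q := by omega
  have hn : ∀ p, 2 ≤ nn p := by
    intro p
    by_contra hlt
    have h1 : (1 / 11 : ℝ) ^ (nn p) ≤ ∑ p, (1 / 11 : ℝ) ^ (nn p) :=
      Finset.single_le_sum (f := fun p => (1 / 11 : ℝ) ^ (nn p)) (fun i _ => by positivity) (Finset.mem_univ p)
    have h2 : (1 / 11 : ℝ) ^ 1 ≤ (1 / 11 : ℝ) ^ (nn p) :=
      pow_le_pow_of_le_one (by norm_num) (by norm_num) (by omega)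
    norm_num at h1 h2 hs
    linarith
  have hDN : 0 < DD nn q := by unfold DD; omega
  have hD : (0:ℝ) < (DD nn q : ℝ) := by exact_mod_cast hDN
  apply Up.mix_of_bound C q hq0 hn hD.ne'
  rw [Finset.sum_add_distrib]
  have h1 := Up.al_sum C q t hq0 hD ht hs
  have h2 := Up.be_sum C q t hq ht hq3
  linarith

end P
end Pool.H521RB
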