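import Pool.Agent.H521R4.RB.Core7
import Pool.Agent.H521R4.RB.CodeEx
import Pool.Agent.H521R4.RB.Upper
import Pool.Agent.H521R4.RB.Graph
import Pool.Agent.H521R4.RB.Pert
import Pool.Agent.H521R4.RB.Par1
import Pool.Agent.H521R4.RB.Par2
import Pool.Agent.H521R4.RB.Par3

/-!
# Assembly
-/

set_option autoImplicit false
open Classical

namespace Pool.H521RB

theorem card_EG_ge {M : ℕ} (J : Fin M → ℕ) (i : Fin M) :
    4800 * J i ≤ Fintype.card (EG (fun p : Ix M => 300 * J p.1)) := by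
  rw [Fintype.card_sigma]
  have h := Finset.single_le_sum (f := fun p : Ix M => Fintype.card (EE (300 * J p.1)))
    (fun _ _ => Nat.zero_le _) (Finset.mem_univ ((i, false) : Ix M))
  simp only [Fintype.card_fin] at h ⊢
  omega

theorem not_robust (C0 : ℝ) (hC0 : 0 < C0) :
    ∃ (M : ℕ) (J : Fin M → ℕ) (C : ∀ p : Ix M, Code (300 * J p.1)) (q : ℕ)
      (w : (GG (fun p : Ix M => 300 * J p.1) × Fin q) →
        (GG (fun p : Ix M => 300 * J p.1) × Fin q) → ℝ),
      (gr C q).Connected ∧ (∀ a b, w a b = w b a) ∧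
      (∀ a b, (gr C q).Adj a b → (100:ℝ)⁻¹ ≤ w a b ∧ w a b ≤ 100) ∧
      (∀ a b, ¬ (gr C q).Adj a b → w a b = 0) ∧
      ∃ t : ℕ, MixF (fun a b => if (gr C q).Adj a b then (1:ℝ) else 0) t ∧
        ¬ MixF w ⌈C0 * (t:ℝ)⌉₊ := by
  obtain ⟨M, hM⟩ := exists_nat_ge (60000 * (4 * C0 + 1) + 1)
  have hM1 : (0:ℝ) < M := by nlinarith
  have hM0 : 0 < M := by exact_mod_cast hM1
  obtain ⟨J, hJ20, hsep, hEE⟩ := exists_J M hM0
  have hJ : ∀ i, 0 < J i := fun i => by have := hJ20 i; omega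
  let C : ∀ p : Ix M, Code (300 * J p.1) := fun p =>
    Classical.choice (code_exists (300 * J p.1) (by have := hJ p.1; omega))
  set c : ℕ := Fintype.card (EG (fun p : Ix M => 300 * J p.1)) with hc
  set q : ℕ := 200 * c + 16 * (∑ p : Ix M, 300 * J p.1) + 10 with hq
  have hDD : DD (fun p : Ix M => 300 * J p.1) q = c + (q - 1) := rfl
  have hB : Big J q := by
    refine ⟨?_, ?_, ?_⟩
    · rw [hDD]; have : 0 < c + (q - 1) := by omega
      exact_mod_cast this
    · rw [hDD, ← hc]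
      have : 50 * c ≤ c + (q - 1) := by omega
      exact_mod_cast this
    · intro i
      rw [hDD]
      have h1 := card_EG_ge J i
      rw [← hc] at h1
      have : 500000 * J i ≤ c + (q - 1) := by omega
      exact_mod_cast this
  have hmix : MixF (fun a b => if (gr C q).Adj a b then (1:ℝ) else 0)
      (4 * DD (fun p : Ix M => 300 * J p.1) q) := by
    refine unpert_mix C q (by omega) ?_ ?_ (sum_small J hJ20) _ le_rfl
    · omega
    · rw [← hc]; omega
  obtain ⟨w, hw1, hw2, hw3, hw4⟩ := pert_exists C q 100 (by norm_num)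
    (fun p => by have := hJ p.1; omega) (by
      rw [← hc]
      have : 200 * c + 1 ≤ q := by omega
      have : ((200 * c + 1 : ℕ) : ℝ) ≤ q := by exact_mod_cast this
      push_cast at this
      linarith) (by omega) (we J C) we_symm (we_bd hJ)
  refine ⟨M, J, C, q, w, gr_connected C q (by omega), hw1, hw2, hw3,
    4 * DD (fun p : Ix M => 300 * J p.1) q, hmix, fun hmw => ?_⟩
  let p0 : Ix M := (⟨M - 1, by omega⟩, false)
  have hD1 : (1:ℝ) ≤ (DD (fun p : Ix M => 300 * J p.1) q : ℝ) := by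
    rw [hDD]; have : 1 ≤ c + (q - 1) := by omega
    exact_mod_cast this
  have ht : ((⌈C0 * ((4 * DD (fun p : Ix M => 300 * J p.1) q : ℕ) : ℝ)⌉₊ : ℕ) : ℝ) ≤
      (M:ℝ) * (DD (fun p : Ix M => 300 * J p.1) q : ℝ) / 60000 := by
    have h1 := (Nat.ceil_lt_add_one (show 0 ≤ C0 * ((4 * DD (fun p : Ix M => 300 * J p.1) q : ℕ) : ℝ)
      by positivity)).le
    refine h1.trans ?_
    push_cast
    rw [le_div_iff₀ (by norm_num)]
    have : (60000 * (4 * C0 + 1)) * (DD (fun p : Ix M => 300 * J p.1) q : ℝ) ≤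
        M * (DD (fun p : Ix M => 300 * J p.1) q : ℝ) :=
      mul_le_mul_of_nonneg_right (by linarith) (by linarith)
    nlinarith
  have hE := Ex_target (C := C) hM0 hJ20 hsep hEE hB (fun j hj => pow_est hj) _ ht p0 (by
    show (M - 1) + 1 = M; omega)
  have hF := hw4 _ hmw (fun x => if 16 * J p0.1 ≤ lv J C x p0 then (1:ℝ) else 0)
    (fun x => by split_ifs <;> norm_num) 0
  have hA := avg_big J hJ C p0
  unfold Ex at hE
  have h3 := (abs_le.mp hF).1
  have h4 : (∑ y : GG (fun p : Ix M => 300 * J p.1),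
      (if 16 * J p0.1 ≤ lev (C p0) (150 * J p0.1) (y p0) then (1:ℝ) else 0)) /
        (Fintype.card (GG (fun p : Ix M => 300 * J p.1)) : ℝ) =
      (∑ y : GG (fun p : Ix M => 300 * J p.1),
      (if 16 * J p0.1 ≤ lv J C y p0 then (1:ℝ) else 0)) /
        (Fintype.card (GG (fun p : Ix M => 300 * J p.1)) : ℝ) := rfl
  rw [h4] at hA
  linarith

end Pool.H521RB
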